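import Mathlib

/-!
# Project RLS: definitions and statements of the jobs

MP_9b7f10_lc: random linear systems in `n ^ 2` times a power of `log (n / ε)` operations on exact real numbers.
-/

set_option autoImplicit false

open MeasureTheory ProbabilityTheory Filter Topology
open scoped Matrix ENNReal

noncomputable section

namespace Pool.Agent.V5helper29.RLS

/-- the euclidean norm of a vector -/
def nrm {n : ℕ} (v : Fin n → ℝ) : ℝ := ‖(WithLp.toLp 2 v : EuclideanSpace ℝ (Fin n))‖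

/-- the matrices which the algorithm handles (`v ᵥ* A` is the combination of the rows of `A` with coefficients `v`) -/
def Good (n : ℕ) (A : Matrix (Fin n) (Fin n) ℝ) : Prop :=
  (∀ i j, |A i j| ≤ (n : ℝ) ^ 2) ∧ ∀ v : Fin n → ℝ, nrm v ≤ (n : ℝ) ^ 8 * nrm (v ᵥ* A)

/-- the law of an entry: `a` or `a + d`, each with probability `1 / 2` -/
def two (a d : ℝ) : Measure ℝ := (2⁻¹ : ℝ≥0∞) • Measure.dirac a + (2⁻¹ : ℝ≥0∞) • Measure.dirac (a + d)

/-- random matrices with independent entries of law `μ` -/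
def mat (μ : Measure ℝ) (n : ℕ) : Measure (Fin n → Fin n → ℝ) := Measure.pi fun _ => Measure.pi fun _ => μ

/-- the entry `a` or `a + d` -/
def val (a d : ℝ) (β : Bool) : ℝ := if β then a + d else a

/-! ### Probability: Fubini and the Gaussian ensemble -/

/-- FUB. Proof: `measurePreserving_piFinSuccAbove` (with all the measures equal to `μ`) and `Measure.prod_apply` (or the
version with the sections of the other factor): the measure of `S` is the integral over `z` of the measure of the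
section. -/
def S_FUB : Prop := ∀ (α : Type) [MeasurableSpace α] (μ : Measure α) [IsProbabilityMeasure μ] (n : ℕ) (i : Fin (n + 1))
    (S : Set (Fin (n + 1) → α)) (p : ℝ≥0∞), MeasurableSet S →
    (∀ z : Fin n → α, μ {r | i.insertNth (α := fun _ => α) r z ∈ S} ≤ p) →
    Measure.pi (fun _ : Fin (n + 1) => μ) S ≤ p

/-- ORT. `n` vectors in `ℝ ^ (n + 1)` have a common nonzero orthogonal vector; normalised by the sup norm.
Proof: the linear map `u ↦ (∑ j, z k j * u j)_k` from a space of dimension `n + 1` to one of dimension `n` has a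
nontrivial kernel (`LinearMap.exists_ne_zero_of_...`/`Matrix.exists_mulVec_eq_zero...`/rank nullity); divide by the
largest coordinate in absolute value. -/
def S_ORT : Prop := ∀ (n : ℕ) (z : Fin n → Fin (n + 1) → ℝ), ∃ u : Fin (n + 1) → ℝ,
    (∃ j, |u j| = 1) ∧ (∀ j, |u j| ≤ 1) ∧ ∀ k, ∑ j, z k j * u j = 0

/-- GCL. The set is closed, as the projection of a closed set along a compact set (the `y` are in the compact cube). -/
def S_GCL : Prop := ∀ (n : ℕ) (i : Fin n) (R t : ℝ),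
    IsClosed {A : Fin n → Fin n → ℝ | ∃ y : Fin n → ℝ, y i = 1 ∧ (∀ k, |y k| ≤ R) ∧
      nrm (y ᵥ* (A : Matrix (Fin n) (Fin n) ℝ)) ≤ t}

/-- GSL. A slab. Proof: choose `k` with `|u k| = 1`. By FUB at the coordinate `k` it is enough to bound the measure
of `{x | |x * u k + c| ≤ s}`, an interval of length `2 s`; the density of the
standard Gaussian is at most `1 / √(2 π) ≤ 1 / 2`. -/
def S_GSL : Prop := ∀ (m : ℕ) (u : Fin m → ℝ) (s : ℝ), 0 ≤ s → (∃ j, |u j| = 1) →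
    (Measure.pi fun _ : Fin m => gaussianReal 0 1) {r | |∑ j, r j * u j| ≤ s} ≤ ENNReal.ofReal s

/-- GAU. The Gaussian ensemble. Proof. (1) Entries: by Chebyshev (the variance of an entry is `1`) or a direct tail
bound, the probability that `|A i j| > n ^ 2` is at most `1 / n ^ 4`; a union bound over the `n ^ 2` entries gives
`1 / n ^ 2`. (2) Let `n ≥ 2`. Suppose that `nrm v > n ^ 8 * nrm (v ᵥ* A)` for some `v`; then `v ≠ 0`. Let `|v i|` be the
maximum of the `|v k|`, so `nrm v ≤ √n |v i|`; put `y = v / v i`. Then `y i = 1`, `|y k| ≤ 1` and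
`nrm (y ᵥ* A) ≤ √n / n ^ 8 ≤ 1 / n ^ 4`. So the bad event is contained in the union over `i` of the closed sets (GCL)
`F i = {A | ∃ y, y i = 1 ∧ (∀ k, |y k| ≤ 1) ∧ nrm (y ᵥ* A) ≤ 1 / n ^ 4}`. By FUB (for `α = Fin n → ℝ`, `μ` the Gaussian
product measure, `n = m + 1`) it is enough to bound the measure of the section over the row `i`, the other rows `z`
being fixed. Take `u` as in ORT orthogonal to the `z k`. For `r` in the section,
`|∑ j, r j * u j| = |∑ j, (y ᵥ* A) j * u j| ≤ nrm (y ᵥ* A) * nrm u ≤ √n / n ^ 4 ≤ 1 / n ^ 3`. By GSL the section has measure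
`≤ 1 / n ^ 3`. So the probability of the bad event is at most `n / n ^ 3 = 1 / n ^ 2`. (Do not forget: the set of good
matrices is closed, hence measurable, so the complement has probability `1 - ...`; in fact
only the outer bound for the complement is needed, with `prob_compl_eq_one_sub` or `measure_compl`.) -/
def S_GAU : Prop := Tendsto (fun n : ℕ => mat (gaussianReal 0 1) n {A | Good n A}) atTop (𝓝 1)

/-- CLO. The set of good matrices is closed: an intersection of closed sets. -/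
def S_CLO : Prop := ∀ n : ℕ, IsClosed {A : Fin n → Fin n → ℝ | Good n A}

/-! ### Counting: matrices with two values of the entries -/

/-- LO (Littlewood and Offord). Proof (Erdős). First reduce to `u j ≥ s` for `j ∈ J`: replacing `ξ j` by its negation for
the `j ∈ J` with `u j < 0` is a bijection of the cube which replaces `val a d (ξ j) * u j` by
`a u j + d u j - d u j [ξ j]`, so the sum has the form `c + ∑ j, d |u j| [ξ j]` on `J`. Fix the coordinates outside `J`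
(`2 ^ (n - |J|)` choices). The sets `X ⊆ J` (of the `j` with `ξ j = true`) with
`|c + ∑ j ∈ X, d |u j| | ≤ s / 4` form an antichain, since `X ⊂ X'` strictly would change the sum by at
least `d s ≥ s > s / 2`. By Sperner's theorem (`IsAntichain.sperner`) there are at most `|J|.choose (|J| / 2)` of them. -/
def S_LO : Prop := ∀ (n : ℕ) (u : Fin n → ℝ) (J : Finset (Fin n)) (s a d θ : ℝ), 0 < s → 1 ≤ d →
    (∀ j ∈ J, s ≤ |u j|) →
    {ξ : Fin n → Bool | |∑ j, val a d (ξ j) * u j - θ| ≤ s / 4}.ncard * 2 ^ J.card ≤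
      J.card.choose (J.card / 2) * 2 ^ n

/-- CB. Proof: `Nat.centralBinom k ≤ 4 ^ k / √(2 k + 1)` by induction (`Nat.succ_mul_centralBinom_succ`), and
`(2 k + 1).choose k = Nat.centralBinom (k + 1) / 2`. -/
def S_CB : Prop := ∀ M : ℕ, ((M.choose (M / 2) : ℕ) : ℝ) ≤ 2 ^ (M + 1) / √(M + 1)

/-- SP. Nearly sparse vectors. Proof. Let `Z` be in the set, with `x` as there. Round all the coordinates of `x` towards
zero to multiples of `1 / (8 N)` for those `j` with `1 / (8 N) < |x j|`, and replace the others by `0`: this gives `x'`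
with at most `M` nonzero coordinates, all in `{k / (8 N) : |k| ≤ 8 N}`, `|x j - x' j| ≤ 1 / (8 N)`, and
`x' j₀ = x j₀ = ± 1` for some `j₀`. So `|∑ j, val a d (Z k j) * x' j| ≤ 1 / 8 + N * (1 / (8 N)) = 1 / 4` for all `k`
(the values have absolute value `≤ 1`). The number of such `x'` is at most `(N (16 N + 1)) ^ M ≤ (17 N ^ 2) ^ M` (each `x'`
comes from a function from `Fin M` to the pairs (position, value)). For each fixed `x'`, at most half of the `z` in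
`Fin N → Bool` satisfy `|∑ j, val a d (z j) * x' j| ≤ 1 / 4`: flipping the coordinate `j₀` changes the sum by `± d`,
`d ≥ 1 > 1 / 2`. So for fixed `x'` the number of `Z` is at most `(2 ^ (N - 1)) ^ m`, that is, `2 ^ (m N) / 2 ^ m`. -/
def S_SP : Prop := ∀ (N m M : ℕ) (a d : ℝ), 1 ≤ N → |a| ≤ 1 → |a + d| ≤ 1 → 1 ≤ d →
    {Z : Fin m → Fin N → Bool | ∃ x : Fin N → ℝ, (∃ j, |x j| = 1) ∧ (∀ j, |x j| ≤ 1) ∧
      {j | 1 / (8 * (N : ℝ)) < |x j|}.ncard ≤ M ∧ ∀ k, |∑ j, val a d (Z k j) * x j| ≤ 1 / 8}.ncard * 2 ^ m ≤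
      (17 * N ^ 2) ^ M * 2 ^ (m * N)

/-- the bound of TC -/
def tcb (n M : ℕ) : ℝ :=
  (17 * (n : ℝ) ^ 2) ^ M / 2 ^ n + n / (M + 1) * ((17 * (n : ℝ) ^ 2) ^ M / 2 ^ (n - 1) +
    ((M + 1).choose ((M + 1) / 2) : ℕ) / 2 ^ (M + 1))

/-- TC. Proof. Write `A i j = val a d (ξ i j)`, `s = 1 / (8 n)`. Let `ξ` be in the set, `v` with
`nrm v > 256 n ^ 4 nrm (v ᵥ* A)`. Then `v ≠ 0`; divide by the largest coordinate: we may assume `|v i₀| = 1`,
`|v i| ≤ 1`, and `nrm v ≤ √n ≤ n`, so `nrm (v ᵥ* A) ≤ 1 / (256 n ^ 3) ≤ 1 / 8`.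
(1) If at most `M` coordinates of `v` satisfy `s < |v i|`: the transposed matrix `Z j i = ξ i j` is in the set of SP with
`N = m = n` (`x = v`). The fraction of these `ξ` is at most `(17 n ^ 2) ^ M / 2 ^ n`.
(2) Otherwise at least `M + 1` indices `i` satisfy `s < |v i|`, and for each of them, with `y = v / v i`, `ξ ∈ F i` where
`F i = {ξ | ∃ y, y i = 1 ∧ nrm (y ᵥ* A) ≤ 1 / (32 n ^ 2)}`. So `∑ i, 1_{F i} ξ ≥ M + 1`, and by Markov's inequality
(double counting) the fraction of these `ξ` is at most `(1 / (M + 1)) ∑ i, |F i| / 2 ^ (n n)`.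
(3) Fix `i` and the rows `z` other than `i` (`Fin.insertNth`; `n = m + 1`). Choose `u` by ORT, orthogonal to the other rows
of `A`. For `ξ ∈ F i`: `|∑ j, A i j * u j| = |∑ j, (y ᵥ* A) j * u j| ≤ nrm (y ᵥ* A) * nrm u ≤ √n / (32 n ^ 2) ≤ 1 / (32 n) = s / 4`.
If at most `M` coordinates of `u` satisfy `s < |u j|`, then `z` is in the set of SP with `m = n - 1`, `N = n`; the
fraction of these `z` is at most `(17 n ^ 2) ^ M / 2 ^ (n - 1)`. Otherwise there is `J` with `|J| = M + 1` and `s ≤ |u j|` on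
`J`, and by LO the fraction of the rows `ξ i` is at most `(M + 1).choose ((M + 1) / 2) / 2 ^ (M + 1)`. -/
def S_TC : Prop := ∀ (a d : ℝ) (n M : ℕ), 1 ≤ n → |a| ≤ 1 → |a + d| ≤ 1 → 1 ≤ d →
    (({ξ : Fin n → Fin n → Bool | ¬ ∀ v : Fin n → ℝ, nrm v ≤ 256 * (n : ℝ) ^ 4 *
      nrm (v ᵥ* (fun i j => val a d (ξ i j) : Matrix (Fin n) (Fin n) ℝ))}.ncard : ℕ) : ℝ) / 2 ^ (n * n) ≤ tcb n M

/-- ASY. With `M = ⌊n ^ (3/4)⌋` and CB: `(17 n ^ 2) ^ M ≤ 2 ^ (n / 2)` for large `n`, and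
`n / (M + 1) * (M + 1).choose ((M + 1) / 2) / 2 ^ (M + 1) ≤ 2 n / (M + 1) ^ (3 / 2) ≤ 2 n / n ^ (9 / 8)`. -/
def S_ASY : Prop := Tendsto (fun n : ℕ => tcb n ⌊(n : ℝ) ^ (3 / 4 : ℝ)⌋₊) atTop (𝓝 0)

/-- TR. Proof: `two a d` is the image of the uniform measure on `Bool` under `val a d`; product measures:
`Measure.pi_map_pi` or so; or: `Measure.pi` of the uniform measure on `Bool` is `2 ^ (- n)` times the counting measure
(check on singletons, `Measure.pi_singleton`), twice. -/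
def S_TR : Prop := ∀ (a d : ℝ) (n : ℕ) (S : Set (Fin n → Fin n → ℝ)), MeasurableSet S →
    mat (two a d) n S = (({ξ : Fin n → Fin n → Bool | (fun i j => val a d (ξ i j)) ∈ S}.ncard : ℕ) : ℝ≥0∞) / 2 ^ (n * n)

/-- TWO. The ensembles with two values. Proof: TC, ASY, TR, CLO; `256 n ^ 4 ≤ n ^ 8` for `n ≥ 4`, and the entries are
bounded by `1 ≤ n ^ 2`. -/
def S_TWO : Prop := ∀ a d : ℝ, |a| ≤ 1 → |a + d| ≤ 1 → 1 ≤ d →
    Tendsto (fun n : ℕ => mat (two a d) n {A | Good n A}) atTop (𝓝 1)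

/-! ### Numerical analysis -/

/-- the operator norm is at most `c` -/
def Bd {n : ℕ} (M : Matrix (Fin n) (Fin n) ℝ) (c : ℝ) : Prop := ∀ v : Fin n → ℝ, nrm (M *ᵥ v) ≤ c * nrm v

/-- BD. Basic facts. (1) transposes: `nrm (Mᵀ v) ^ 2 = ⟨v, M (Mᵀ v)⟩ ≤ nrm v * (c * nrm (Mᵀ v))`. (2) the entries are
coordinates of the images of unit vectors. (3) `nrm (M v) ≤ √n * max ≤ √n * δ * ∑ |v j| ≤ n δ nrm v` (Cauchy-Schwarz). -/
def S_BD : Prop := ∀ (n : ℕ) (M : Matrix (Fin n) (Fin n) ℝ) (c : ℝ), 0 ≤ c →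
    (Bd M c → Bd Mᵀ c) ∧ (Bd M c → ∀ i j, |M i j| ≤ c) ∧ ((∀ i j, |M i j| ≤ c) → Bd M (n * c))

/-- rounding: division by `P`, rounded down, in each entry -/
def flo {n : ℕ} (P : ℤ) (M : Matrix (Fin n) (Fin n) ℤ) : Matrix (Fin n) (Fin n) ℤ := fun i j => M i j / P

/-- Newton's iteration for the inverse of `B / P`, with rounding: `newt B P k / P` is near `(B / P)⁻¹`. -/
def newt {n : ℕ} (B : Matrix (Fin n) (Fin n) ℤ) (P : ℤ) : ℕ → Matrix (Fin n) (Fin n) ℤ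
  | 0 => Bᵀ
  | k + 1 => (2 : ℤ) • newt B P k - flo P (newt B P k * flo P (B * newt B P k))

/-- the rounded matrix -/
def rnd {n : ℕ} (A : Matrix (Fin n) (Fin n) ℝ) (K : ℕ) : Matrix (Fin n) (Fin n) ℤ :=
  fun i j => ⌊(2 : ℝ) ^ (4 * K) * (A i j / (2 * (n : ℝ) ^ 3))⌋

/-- REC. The recursion. Proof. Put `R k = 1 - B' * X k`, `η = 4 n / P`, `q = 1 - 1 / (2 S ^ 2)`, `δ₁ = B' * X k - T k`,
`δ₂ = X (k + 1) - (2 X k - X k * T k)`, both `Bd (n / P)` by BD 3.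
(b) `B'` is invertible (the transposed map is injective), `Bd (B'⁻¹)ᵀ S` from the hypothesis (`v ᵥ* B' = B'ᵀ *ᵥ v`), hence
`Bd B'⁻¹ S` (BD 1).
(c) `nrm (R 0 v) ^ 2 = nrm v ^ 2 - 2 nrm (B'ᵀ v) ^ 2 + nrm (B' (B'ᵀ v)) ^ 2 ≤ nrm v ^ 2 - nrm (B'ᵀ v) ^ 2
≤ (1 - 1 / S ^ 2) nrm v ^ 2`, so `Bd (R 0) q`.
(d) `R (k + 1) = R k ^ 2 - (1 - R k) δ₁ - B' δ₂`.
(e) By induction `Bd (R k) (q ^ (2 ^ k) + (3 ^ k - 1) η)` for `k ≤ K`; the bound is `≤ 2`, and with `e = (3 ^ k - 1) η ≤ 1`: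
`(q ^ 2 ^ k + e) ^ 2 + 3 n / P + n / P ≤ q ^ 2 ^ (k + 1) + 3 e + η ≤ q ^ 2 ^ (k + 1) + (3 ^ (k + 1) - 1) η`.
(f) `B' * X k = 1 - R k` gives `Bd (B' * X k) 3`, and `X k = B'⁻¹ * (1 - R k)` gives `Bd (X k) (3 S)`;
`T k = B' * X k - δ₁` gives `Bd (T k) 4`. -/
def S_REC : Prop := ∀ (n K : ℕ) (B' : Matrix (Fin n) (Fin n) ℝ) (X T : ℕ → Matrix (Fin n) (Fin n) ℝ) (P S : ℝ),
    1 ≤ n → 1 ≤ S → 0 < P → Bd B' 1 → (∀ v : Fin n → ℝ, nrm v ≤ S * nrm (v ᵥ* B')) → X 0 = B'ᵀ →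
    (∀ k i j, |(B' * X k - T k) i j| ≤ 1 / P) → (∀ k i j, |(X (k + 1) - ((2 : ℝ) • X k - X k * T k)) i j| ≤ 1 / P) →
    3 ^ K * (4 * n / P) ≤ 1 → ∀ k ≤ K, Bd (1 - B' * X k) ((1 - 1 / (2 * S ^ 2)) ^ (2 ^ k) + 3 ^ k * (4 * n / P)) ∧
      Bd (X k) (3 * S) ∧ Bd (B' * X k) 3 ∧ Bd (T k) 4

/-- NUM. Proof, from REC and BD (steps (c), (d), (e) and most of (f) are in REC). Put `P = 2 ^ (4 K)`, `Â = A / (2 n ^ 3)`, `B' = B / P`, `X k = newt B P k / P`, `T k = flo P (B * newt B P k) / P`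
(real matrices), `S = n ^ 13`, `R k = 1 - B' * X k`, `η = 4 n / P`. Note `P ≥ (n ^ 40 / ε) ^ 4`.
(a) `Â - B'` has entries in `[0, 1 / P]`, so `Bd (Â - B') (n / P)` (BD 3), also for the transpose. The entries of `B'` have
absolute value `≤ 1 / (2 n) + 1 / P ≤ 1 / n`, so `Bd B' 1`.
(b) From `Good`: `nrm v ≤ 2 n ^ 11 nrm (v ᵥ* Â) ≤ 2 n ^ 11 (nrm (v ᵥ* B') + (n / P) nrm v)`, and `2 n ^ 12 / P ≤ 1 / 2`, so
`nrm v ≤ 4 n ^ 11 nrm (v ᵥ* B') ≤ S nrm (v ᵥ* B')`. So `B'` is invertible and `Bd (B'⁻¹)ᵀ S`, hence `Bd B'⁻¹ S` (BD 1).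
(c) `X 0 = B'ᵀ`, and `nrm (R 0 v) ^ 2 = nrm v ^ 2 - 2 nrm (B'ᵀ v) ^ 2 + nrm (B' (B'ᵀ v)) ^ 2 ≤ nrm v ^ 2 - nrm (B'ᵀ v) ^ 2
≤ (1 - 1 / S ^ 2) nrm v ^ 2`, so `Bd (R 0) (1 - 1 / (2 S ^ 2))`. Put `q = 1 - 1 / (2 S ^ 2)`.
(d) Rounding: `T k = B' * X k - δ₁`, `X (k + 1) = 2 X k - (X k * T k - δ₂)` with the entries of `δ₁, δ₂` in `[0, 1 / P]`. So
`R (k + 1) = R k ^ 2 - (1 - R k) δ₁ - B' δ₂`.
(e) By induction `Bd (R k) (q ^ (2 ^ k) + (3 ^ k - 1) η)` for `k ≤ K`; note that `3 ^ K η ≤ 4 n / 2 ^ (2 K) ≤ ε / 4 ≤ 1`, so the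
bound is `≤ 2`, and with `e = (3 ^ k - 1) η`: `(q ^ 2 ^ k + e) ^ 2 + 3 n / P + n / P ≤ q ^ 2 ^ (k + 1) + 3 e + η`.
(f) `B' * X k = 1 - R k` gives `Bd (B' * X k) 3`, and `X k = B'⁻¹ * (1 - R k)` gives `Bd (X k) (3 S)`, `Bd (T k) 4`. With BD 2
the entries of `B * newt` are at most `3 P ^ 2 < 2 ^ (9 K)`, those of `newt * flo ..` at most `12 S P ^ 2 < 2 ^ (9 K)`.
(g) `q ^ (2 ^ K) ≤ exp (- 2 ^ K / (2 S ^ 2)) ≤ 2 S ^ 2 / 2 ^ K ≤ ε / 4`. So `Bd (R K) (ε / 2)`. The vector `x` in the statement is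
`X K b / (2 n ^ 3)`, and `A x - b = Â X K b - b = - R K b + (Â - B') X K b`, of norm at most
`(ε / 2 + (n / P) 3 S) nrm b ≤ ε nrm b`. -/
def S_NUM : Prop := ∀ (n K : ℕ) (A : Matrix (Fin n) (Fin n) ℝ) (ε : ℝ), 2 ≤ n → Good n A → 0 < ε → ε < 1 →
    (n : ℝ) ^ 40 / ε ≤ 2 ^ K →
    (∀ k ≤ K, ∀ i j, |(rnd A K * newt (rnd A K) (2 ^ (4 * K)) k) i j| < 2 ^ (9 * K) ∧
      |(newt (rnd A K) (2 ^ (4 * K)) k * flo (2 ^ (4 * K)) (rnd A K * newt (rnd A K) (2 ^ (4 * K)) k)) i j| <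
        2 ^ (9 * K)) ∧
    ∀ b : Fin n → ℝ, nrm (A *ᵥ (fun i => (∑ j, (newt (rnd A K) (2 ^ (4 * K)) K i j : ℝ) * b j) /
      (2 ^ (4 * K) * (2 * (n : ℝ) ^ 3))) - b) ≤ ε * nrm b

end Pool.Agent.V5helper29.RLS
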