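import Mathlib
import Pool.Agent.V5helper29.RLS.Stm

set_option autoImplicit false

open MeasureTheory ProbabilityTheory Filter Topology
open scoped Matrix ENNReal

noncomputable section

namespace Pool.Agent.V5helper29.RLS

/-- the exponential part -/
theorem asy_pow : ∀ᶠ n : ℕ in atTop,
    (17 * (n : ℝ) ^ 2) ^ ⌊(n : ℝ) ^ (3 / 4 : ℝ)⌋₊ / 2 ^ n ≤ Real.exp (-(n : ℝ) / 4) := by
  have h1 : (fun n : ℕ => Real.log (17 * (n : ℝ) ^ 2)) =o[atTop] fun n : ℕ => (n : ℝ) ^ (1 / 4 : ℝ) := by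
    have e1 : (fun n : ℕ => Real.log (17 * (n : ℝ) ^ 2)) =ᶠ[atTop]
        fun n : ℕ => Real.log 17 + 2 * Real.log (n : ℝ) := by
      filter_upwards [eventually_gt_atTop 0] with n hn
      have hn' : (n : ℝ) ≠ 0 := by positivity
      rw [Real.log_mul (by norm_num) (by positivity), Real.log_pow]
      norm_num
    have e2 : (fun n : ℕ => Real.log 17 + 2 * Real.log (n : ℝ)) =o[atTop]
        fun n : ℕ => (n : ℝ) ^ (1 / 4 : ℝ) := by
      have a1 : (fun n : ℕ => Real.log (n : ℝ)) =o[atTop] fun n : ℕ => (n : ℝ) ^ (1 / 4 : ℝ) :=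
        (isLittleO_log_rpow_atTop (by norm_num : (0 : ℝ) < 1 / 4)).comp_tendsto
          tendsto_natCast_atTop_atTop
      have a2 : (fun _ : ℕ => Real.log 17) =o[atTop] fun n : ℕ => (n : ℝ) ^ (1 / 4 : ℝ) := by
        apply Asymptotics.isLittleO_const_left.2
        right
        have : Tendsto (fun n : ℕ => (n : ℝ) ^ (1 / 4 : ℝ)) atTop atTop :=
          (tendsto_rpow_atTop (by norm_num : (0 : ℝ) < 1 / 4)).comp tendsto_natCast_atTop_atTop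
        exact tendsto_norm_atTop_atTop.comp this
      exact a2.add (a1.const_mul_left 2)
    exact e2.congr' e1.symm EventuallyEq.rfl
  have h2 := h1.def (show (0 : ℝ) < 1 / 4 by norm_num)
  filter_upwards [h2, eventually_ge_atTop 1] with n hn hn1
  have hn0 : (0 : ℝ) < n := by exact_mod_cast hn1
  have hn1' : (1 : ℝ) ≤ n := by exact_mod_cast hn1
  have hb : 0 < 17 * (n : ℝ) ^ 2 := by positivity
  have hb1 : 1 ≤ 17 * (n : ℝ) ^ 2 := by nlinarith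
  have hlog : Real.log (17 * (n : ℝ) ^ 2) ≤ 1 / 4 * (n : ℝ) ^ (1 / 4 : ℝ) := by
    have := (le_abs_self _).trans hn
    rwa [Real.norm_of_nonneg (Real.rpow_nonneg hn0.le _)] at this
  have hl0 : 0 ≤ Real.log (17 * (n : ℝ) ^ 2) := Real.log_nonneg hb1
  have hM : ((⌊(n : ℝ) ^ (3 / 4 : ℝ)⌋₊ : ℕ) : ℝ) ≤ (n : ℝ) ^ (3 / 4 : ℝ) :=
    Nat.floor_le (Real.rpow_nonneg hn0.le _)
  have e1 : (17 * (n : ℝ) ^ 2) ^ ⌊(n : ℝ) ^ (3 / 4 : ℝ)⌋₊ =
      Real.exp ((⌊(n : ℝ) ^ (3 / 4 : ℝ)⌋₊ : ℕ) * Real.log (17 * (n : ℝ) ^ 2)) := by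
    rw [Real.exp_nat_mul, Real.exp_log hb]
  have e2 : (2 : ℝ) ^ n = Real.exp ((n : ℝ) * Real.log 2) := by
    rw [Real.exp_nat_mul, Real.exp_log (by norm_num)]
  rw [e1, e2, ← Real.exp_sub]
  apply Real.exp_le_exp.2
  have h3 : ((⌊(n : ℝ) ^ (3 / 4 : ℝ)⌋₊ : ℕ) : ℝ) * Real.log (17 * (n : ℝ) ^ 2) ≤ (n : ℝ) / 4 := by
    calc ((⌊(n : ℝ) ^ (3 / 4 : ℝ)⌋₊ : ℕ) : ℝ) * Real.log (17 * (n : ℝ) ^ 2)
        ≤ (n : ℝ) ^ (3 / 4 : ℝ) * (1 / 4 * (n : ℝ) ^ (1 / 4 : ℝ)) :=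
          mul_le_mul hM hlog hl0 (Real.rpow_nonneg hn0.le _)
      _ = (n : ℝ) / 4 := by
          have : (n : ℝ) ^ (3 / 4 : ℝ) * (n : ℝ) ^ (1 / 4 : ℝ) = n := by
            rw [← Real.rpow_add hn0]; norm_num
          linear_combination this / 4
  have h4 : (1 / 2 : ℝ) ≤ Real.log 2 := by
    have := Real.log_two_gt_d9
    linarith
  have h5 : (n : ℝ) * (1 / 2) ≤ n * Real.log 2 := mul_le_mul_of_nonneg_left h4 hn0.le
  linarith

theorem asy_exp : Tendsto (fun n : ℕ => (1 + 2 * (n : ℝ)) * Real.exp (-(n : ℝ) / 4)) atTop (𝓝 0) := by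
  have h1 : Tendsto (fun x : ℝ => x ^ 1 * Real.exp (-x)) atTop (𝓝 0) :=
    Real.tendsto_pow_mul_exp_neg_atTop_nhds_zero 1
  have h0 : Tendsto (fun x : ℝ => x ^ 0 * Real.exp (-x)) atTop (𝓝 0) :=
    Real.tendsto_pow_mul_exp_neg_atTop_nhds_zero 0
  have hc : Tendsto (fun n : ℕ => (n : ℝ) / 4) atTop atTop :=
    tendsto_natCast_atTop_atTop.atTop_div_const (by norm_num)
  have h2 := (h0.comp hc).add ((h1.comp hc).const_mul 8)
  simp only [mul_zero, add_zero] at h2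
  refine h2.congr fun n => ?_
  simp only [Function.comp_apply]
  rw [show -(n : ℝ) / 4 = -((n : ℝ) / 4) by ring]
  ring

/-- the polynomial part -/
theorem asy_root : Tendsto (fun n : ℕ => 2 * (n : ℝ) ^ (-(1 / 8) : ℝ)) atTop (𝓝 0) := by
  have h1 : Tendsto (fun n : ℕ => (n : ℝ) ^ (-(1 / 8) : ℝ)) atTop (𝓝 0) :=
    (tendsto_rpow_neg_atTop (by norm_num : (0 : ℝ) < 1 / 8)).comp tendsto_natCast_atTop_atTop
  simpa using h1.const_mul 2

/-- ASY -/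
theorem asy : S_CB → S_ASY := by
  intro hCB
  have hlim : Tendsto (fun n : ℕ => (1 + 2 * (n : ℝ)) * Real.exp (-(n : ℝ) / 4) +
      2 * (n : ℝ) ^ (-(1 / 8) : ℝ)) atTop (𝓝 0) := by
    simpa using asy_exp.add asy_root
  refine squeeze_zero' (Eventually.of_forall fun n => ?_) ?_ hlim
  · unfold tcb
    positivity
  · filter_upwards [asy_pow, eventually_ge_atTop 1] with n hp hn1
    have hn0 : (0 : ℝ) < n := by exact_mod_cast hn1
    have hn1' : (1 : ℝ) ≤ n := by exact_mod_cast hn1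
    set M : ℕ := ⌊(n : ℝ) ^ (3 / 4 : ℝ)⌋₊ with hMdef
    have hM1 : (n : ℝ) ^ (3 / 4 : ℝ) ≤ (M : ℝ) + 1 := (Nat.lt_floor_add_one _).le
    have hMp : (0 : ℝ) < (M : ℝ) + 1 := by positivity
    have hr0 : 0 < (n : ℝ) ^ (3 / 4 : ℝ) := Real.rpow_pos_of_pos hn0 _
    have hr1 : 1 ≤ (n : ℝ) ^ (3 / 4 : ℝ) := Real.one_le_rpow hn1' (by norm_num)
    unfold tcb
    have hE : 0 ≤ Real.exp (-(n : ℝ) / 4) := (Real.exp_pos _).le
    have b1 : (17 * (n : ℝ) ^ 2) ^ M / 2 ^ (n - 1) = 2 * ((17 * (n : ℝ) ^ 2) ^ M / 2 ^ n) := by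
      obtain ⟨k, rfl⟩ := Nat.exists_eq_add_of_le' hn1
      rw [Nat.add_sub_cancel, pow_succ (2 : ℝ) k]
      field_simp
    have b2 : (n : ℝ) / (M + 1) ≤ n := by
      rw [div_le_iff₀ hMp]
      have : (1 : ℝ) ≤ M + 1 := by linarith [(Nat.cast_nonneg M : (0 : ℝ) ≤ M)]
      nlinarith
    have b3 : (((M + 1).choose ((M + 1) / 2) : ℕ) : ℝ) / 2 ^ (M + 1) ≤ 2 / √((M : ℝ) + 1) := by
      have h := hCB (M + 1)
      have hs : √((M : ℝ) + 1) ≤ √(((M + 1 : ℕ) : ℝ) + 1) := by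
        apply Real.sqrt_le_sqrt
        push_cast
        linarith
      have hs0 : 0 < √((M : ℝ) + 1) := Real.sqrt_pos.2 hMp
      rw [div_le_iff₀ (by positivity)]
      refine h.trans ?_
      have e1 : (2 : ℝ) ^ (M + 1 + 1) = 2 * 2 ^ (M + 1) := by ring
      rw [e1]
      have e2 : 2 / √((M : ℝ) + 1) * 2 ^ (M + 1) = 2 * 2 ^ (M + 1) / √((M : ℝ) + 1) := by ring
      rw [e2]
      exact div_le_div_of_nonneg_left (by positivity) hs0 hs
    have b4 : (n : ℝ) / (M + 1) * (2 / √((M : ℝ) + 1)) ≤ 2 * (n : ℝ) ^ (-(1 / 8) : ℝ) := by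
      have c1 : (n : ℝ) ^ (3 / 8 : ℝ) ≤ √((M : ℝ) + 1) := by
        rw [show (3 / 8 : ℝ) = 3 / 4 * (1 / 2) by norm_num, Real.rpow_mul hn0.le, ← Real.sqrt_eq_rpow]
        exact Real.sqrt_le_sqrt hM1
      have c0 : 0 < (n : ℝ) ^ (3 / 8 : ℝ) := Real.rpow_pos_of_pos hn0 _
      calc (n : ℝ) / (M + 1) * (2 / √((M : ℝ) + 1))
          ≤ (n : ℝ) / (n : ℝ) ^ (3 / 4 : ℝ) * (2 / (n : ℝ) ^ (3 / 8 : ℝ)) := by
            apply mul_le_mul _ _ (by positivity) (by positivity)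
            · exact div_le_div_of_nonneg_left hn0.le hr0 hM1
            · exact div_le_div_of_nonneg_left (by norm_num) c0 c1
        _ = 2 * (n : ℝ) ^ (-(1 / 8) : ℝ) := by
            have e1 : (n : ℝ) / (n : ℝ) ^ (3 / 4 : ℝ) = (n : ℝ) ^ (1 / 4 : ℝ) := by
              rw [div_eq_iff hr0.ne', ← Real.rpow_add hn0]
              norm_num
            have e2 : (n : ℝ) ^ (1 / 4 : ℝ) = (n : ℝ) ^ (-(1 / 8) : ℝ) * (n : ℝ) ^ (3 / 8 : ℝ) := by
              rw [← Real.rpow_add hn0]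
              norm_num
            rw [e1, e2]
            field_simp
    have d1 : (17 * (n : ℝ) ^ 2) ^ M / 2 ^ n ≤ Real.exp (-(n : ℝ) / 4) := hp
    have d2 : 0 ≤ (17 * (n : ℝ) ^ 2) ^ M / 2 ^ n := by positivity
    rw [b1, mul_add]
    have d3 : (n : ℝ) / (M + 1) * (2 * ((17 * (n : ℝ) ^ 2) ^ M / 2 ^ n)) ≤
        n * (2 * Real.exp (-(n : ℝ) / 4)) :=
      mul_le_mul b2 (by linarith) (by positivity) hn0.le
    have d4 : (n : ℝ) / (M + 1) * ((((M + 1).choose ((M + 1) / 2) : ℕ) : ℝ) / 2 ^ (M + 1)) ≤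
        (n : ℝ) / (M + 1) * (2 / √((M : ℝ) + 1)) :=
      mul_le_mul_of_nonneg_left b3 (by positivity)
    linarith

end Pool.Agent.V5helper29.RLS
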