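import Pool.Agent.V5helper37.RLS.Base

namespace Pool.Agent.V5helper29.RLS

theorem bd : S_BD := Pool.Agent.V5helper37.RLS.bd'

end Pool.Agent.V5helper29.RLS
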