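import Pool.Agent.V5helper29.RLS.Stm

set_option autoImplicit false

open MeasureTheory ProbabilityTheory Filter Topology
open scoped Matrix ENNReal

noncomputable section

namespace Pool.Agent.V5helper29.RLS

lemma cb_sq (k : ℕ) : Nat.centralBinom k ^ 2 * (2 * k + 1) ≤ 16 ^ k := by
  induction k with
  | zero => simp
  | succ k ih =>
    have h1 := Nat.succ_mul_centralBinom_succ k
    have h2 : (k + 1) ^ 2 * (Nat.centralBinom (k + 1) ^ 2 * (2 * (k + 1) + 1)) ≤
        (k + 1) ^ 2 * 16 ^ (k + 1) := by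
      calc (k + 1) ^ 2 * (Nat.centralBinom (k + 1) ^ 2 * (2 * (k + 1) + 1))
          = ((k + 1) * Nat.centralBinom (k + 1)) ^ 2 * (2 * k + 3) := by ring
        _ = (2 * (2 * k + 1) * Nat.centralBinom k) ^ 2 * (2 * k + 3) := by rw [h1]
        _ = 4 * (2 * k + 1) * (2 * k + 3) * (Nat.centralBinom k ^ 2 * (2 * k + 1)) := by ring
        _ ≤ 4 * (2 * k + 1) * (2 * k + 3) * 16 ^ k := Nat.mul_le_mul_left _ ih
        _ ≤ 16 * (k + 1) ^ 2 * 16 ^ k := Nat.mul_le_mul_right _ (by nlinarith)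
        _ = (k + 1) ^ 2 * 16 ^ (k + 1) := by ring
    exact Nat.le_of_mul_le_mul_left h2 (by positivity)

lemma cb_real (k : ℕ) : (Nat.centralBinom k : ℝ) ≤ 4 ^ k / √(2 * k + 1) := by
  have hs : 0 < √(2 * (k : ℝ) + 1) := Real.sqrt_pos.mpr (by positivity)
  rw [le_div_iff₀ hs]
  refine abs_le_of_sq_le_sq' ?_ (by positivity) |>.2
  rw [mul_pow, Real.sq_sqrt (by positivity), ← pow_mul, mul_comm k 2, pow_mul]
  have h := cb_sq k
  have h2 : ((Nat.centralBinom k ^ 2 * (2 * k + 1) : ℕ) : ℝ) ≤ ((16 ^ k : ℕ) : ℝ) := by exact_mod_cast h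
  push_cast at h2
  norm_num
  exact h2

theorem cb : S_CB := by
  intro M
  rcases Nat.even_or_odd' M with ⟨k, rfl | rfl⟩
  · have h1 : 2 * k / 2 = k := by omega
    have h2 := cb_real k
    rw [h1, ← Nat.centralBinom_eq_two_mul_choose]
    push_cast
    refine h2.trans ?_
    gcongr
    rw [pow_succ, pow_mul]
    norm_num
  · have h1 : (2 * k + 1) / 2 = k := by omega
    have h2 := cb_real (k + 1)
    have h3 : Nat.centralBinom (k + 1) = 2 * (2 * k + 1).choose k := by
      rw [Nat.centralBinom_eq_two_mul_choose]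
      have h4 : 2 * (k + 1) = (2 * k + 1) + 1 := by ring
      rw [h4, Nat.choose_succ_succ]
      have h5 : (2 * k + 1).choose (k + 1) = (2 * k + 1).choose k := by
        have := Nat.choose_symm_half k
        exact this
      rw [h5]
      ring
    rw [h1]
    rw [h3] at h2
    push_cast at h2 ⊢
    have hs : (0 : ℝ) < √(2 * k + 1 + 1) := Real.sqrt_pos.mpr (by positivity)
    have h6 : √(2 * (k : ℝ) + 1 + 1) ≤ √(2 * (k + 1) + 1) := Real.sqrt_le_sqrt (by linarith)
    have h7 : (4 : ℝ) ^ (k + 1) / √(2 * (k + 1) + 1) ≤ 4 ^ (k + 1) / √(2 * k + 1 + 1) := by gcongr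
    have h8 : (4 : ℝ) ^ (k + 1) = 2 ^ (2 * k + 1 + 1) := by
      rw [show 2 * k + 1 + 1 = 2 * (k + 1) by ring, pow_mul]
      norm_num
    rw [h8] at h7 h2
    have h9 : (0 : ℝ) ≤ ((2 * k + 1).choose k : ℕ) := by positivity
    linarith

end Pool.Agent.V5helper29.RLS
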