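import Pool.Agent.V5helper29.RLS.Stm

set_option autoImplicit false

open MeasureTheory ProbabilityTheory Filter Topology
open scoped Matrix ENNReal

noncomputable section

namespace Pool.Agent.V5helper29.RLS

theorem clo : S_CLO := by
  intro n
  have hc : Continuous fun v : Fin n → ℝ => nrm v :=
    continuous_norm.comp (PiLp.continuous_toLp 2 _)
  have hm : ∀ v : Fin n → ℝ, Continuous fun A : Fin n → Fin n → ℝ =>
      nrm (v ᵥ* (A : Matrix (Fin n) (Fin n) ℝ)) := by
    intro v
    refine hc.comp ?_
    refine continuous_pi fun j => ?_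
    simp only [Matrix.vecMul, dotProduct]
    exact continuous_finsetSum _ fun i _ => by fun_prop
  have h : {A : Fin n → Fin n → ℝ | Good n A} =
      (⋂ i, ⋂ j, {A : Fin n → Fin n → ℝ | |A i j| ≤ (n : ℝ) ^ 2}) ∩
      ⋂ v : Fin n → ℝ, {A : Fin n → Fin n → ℝ | nrm v ≤ (n : ℝ) ^ 8 *
        nrm (v ᵥ* (A : Matrix (Fin n) (Fin n) ℝ))} := by
    ext A
    simp [Good]
  rw [h]
  refine IsClosed.inter (isClosed_iInter fun i => isClosed_iInter fun j =>
    isClosed_le (by fun_prop) continuous_const) (isClosed_iInter fun v =>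
    isClosed_le continuous_const (continuous_const.mul (hm v)))

end Pool.Agent.V5helper29.RLS
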