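import Pool.Agent.V5helper29.RLS.Stm

/-!
# Project RLS, job GAU: the least singular value of a Gaussian matrix
-/

set_option autoImplicit false

open MeasureTheory ProbabilityTheory Filter Topology
open scoped Matrix ENNReal

noncomputable section

namespace Pool.Agent.V5helper29.RLS

theorem gau_nrm_sq {n : ℕ} (v : Fin n → ℝ) : nrm v ^ 2 = ∑ i, v i ^ 2 := by
  unfold nrm
  rw [EuclideanSpace.norm_eq, Real.sq_sqrt (Finset.sum_nonneg fun i _ => sq_nonneg _)]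
  apply Finset.sum_congr rfl; intro i _
  rw [Real.norm_eq_abs, sq_abs]

theorem gau_nrm_nonneg {n : ℕ} (v : Fin n → ℝ) : 0 ≤ nrm v := norm_nonneg _

theorem gau_nrm_smul {n : ℕ} (c : ℝ) (v : Fin n → ℝ) : nrm (c • v) = |c| * nrm v := by
  unfold nrm
  rw [WithLp.toLp_smul, norm_smul, Real.norm_eq_abs]

theorem gau_nrm_le {n : ℕ} (hn : 1 ≤ n) (v : Fin n → ℝ) (c : ℝ) (hc : 0 ≤ c) (h : ∀ i, |v i| ≤ c) :
    nrm v ≤ n * c := by
  have hn' : (1:ℝ) ≤ n := by exact_mod_cast hn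
  apply abs_le_of_sq_le_sq' _ (by positivity) |>.2
  rw [gau_nrm_sq]
  calc ∑ i, v i ^ 2 ≤ ∑ _i : Fin n, c ^ 2 := by
        apply Finset.sum_le_sum; intro i _
        rw [← sq_abs (v i)]
        exact pow_le_pow_left₀ (abs_nonneg _) (h i) 2
    _ = n * c ^ 2 := by rw [Finset.sum_const, Finset.card_univ, Fintype.card_fin, nsmul_eq_mul]
    _ ≤ (n * c) ^ 2 := by
        rw [mul_pow]
        apply mul_le_mul_of_nonneg_right _ (sq_nonneg c)
        nlinarith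

theorem gau_cs {n : ℕ} (w u : Fin n → ℝ) : |∑ j, w j * u j| ≤ nrm w * nrm u := by
  apply abs_le_of_sq_le_sq _ (mul_nonneg (gau_nrm_nonneg _) (gau_nrm_nonneg _))
  rw [mul_pow, gau_nrm_sq, gau_nrm_sq]
  exact Finset.sum_mul_sq_le_sq_mul_sq _ _ _

/-- the closed sets which cover the bad event -/
def gauF (n : ℕ) (i : Fin n) : Set (Fin n → Fin n → ℝ) :=
  {A | ∃ y : Fin n → ℝ, y i = 1 ∧ (∀ k, |y k| ≤ 1) ∧ nrm (y ᵥ* (A : Matrix (Fin n) (Fin n) ℝ)) ≤ 1 / (n : ℝ) ^ 4}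

theorem gau_cover {n : ℕ} (hn : 1 ≤ n) (A : Matrix (Fin n) (Fin n) ℝ) (v : Fin n → ℝ)
    (hv : (n : ℝ) ^ 8 * nrm (v ᵥ* A) < nrm v) : ∃ i, A ∈ gauF n i := by
  have hn' : (1:ℝ) ≤ n := by exact_mod_cast hn
  have : Nonempty (Fin n) := ⟨⟨0, hn⟩⟩
  obtain ⟨i, hi⟩ := Finite.exists_max (fun i => |v i|)
  have hpos : 0 < nrm v := lt_of_le_of_lt (mul_nonneg (by positivity) (gau_nrm_nonneg _)) hv
  have hle : nrm v ≤ n * |v i| := gau_nrm_le hn v _ (abs_nonneg _) hi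
  have hvi : 0 < |v i| := by
    by_contra h
    have : |v i| = 0 := le_antisymm (not_lt.mp h) (abs_nonneg _)
    rw [this, mul_zero] at hle
    linarith
  have hvi' : v i ≠ 0 := abs_pos.mp hvi
  refine ⟨i, (v i)⁻¹ • v, ?_, ?_, ?_⟩
  · simp [hvi']
  · intro k
    rw [Pi.smul_apply, smul_eq_mul, abs_mul, abs_inv, ← div_eq_inv_mul, div_le_one hvi]
    exact hi k
  · rw [Matrix.smul_vecMul, gau_nrm_smul, abs_inv, ← div_eq_inv_mul, div_le_div_iff₀ hvi (by positivity), one_mul]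
    have h1 : (n:ℝ) ^ 8 * nrm (v ᵥ* A) ≤ n * |v i| := hv.le.trans hle
    have h2 : nrm (v ᵥ* A) * (n:ℝ) ^ 4 * (n:ℝ) ≤ |v i| * n := by
      calc nrm (v ᵥ* A) * (n:ℝ) ^ 4 * (n:ℝ) = nrm (v ᵥ* A) * (n:ℝ) ^ 5 := by ring
        _ ≤ nrm (v ᵥ* A) * (n:ℝ) ^ 8 :=
            mul_le_mul_of_nonneg_left (pow_le_pow_right₀ hn' (by norm_num)) (gau_nrm_nonneg _)
        _ ≤ |v i| * n := by linarith
    exact le_of_mul_le_mul_right h2 (by linarith)

theorem gau_F (hFUB : S_FUB) (hORT : S_ORT) (hGCL : S_GCL) (hGSL : S_GSL) (m : ℕ) (i : Fin (m + 1)) :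
    mat (gaussianReal 0 1) (m + 1) (gauF (m + 1) i) ≤ ENNReal.ofReal (1 / ((m + 1 : ℕ) : ℝ) ^ 3) := by
  have hm : (1:ℝ) ≤ ((m + 1 : ℕ) : ℝ) := by exact_mod_cast Nat.le_add_left 1 m
  apply hFUB (Fin (m + 1) → ℝ) (Measure.pi fun _ => gaussianReal 0 1) m i
  · exact (hGCL (m + 1) i 1 _).measurableSet
  · intro z
    obtain ⟨u, hu1, hu2, hu3⟩ := hORT m z
    refine (measure_mono ?_).trans (hGSL (m + 1) u (1 / ((m + 1 : ℕ) : ℝ) ^ 3) (by positivity) hu1)
    rintro r ⟨y, hy1, hy2, hy3⟩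
    show |∑ j, r j * u j| ≤ _
    set A : Matrix (Fin (m + 1)) (Fin (m + 1)) ℝ :=
      i.insertNth (α := fun _ => Fin (m + 1) → ℝ) r z with hA
    have h1 : ∑ j, (y ᵥ* A) j * u j = ∑ j, r j * u j := by
      have h2 : ∀ j, (y ᵥ* A) j * u j = ∑ k, y k * (A k j * u j) := by
        intro j
        simp only [Matrix.vecMul, dotProduct, Finset.sum_mul]
        apply Finset.sum_congr rfl; intro k _; ring
      simp_rw [h2]
      rw [Finset.sum_comm]
      rw [Fin.sum_univ_succAbove _ i]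
      have h3 : ∀ k : Fin m, ∑ j, y (i.succAbove k) * (A (i.succAbove k) j * u j) = 0 := by
        intro k
        rw [← Finset.mul_sum]
        have : ∑ j, A (i.succAbove k) j * u j = ∑ j, z k j * u j := by
          apply Finset.sum_congr rfl; intro j _
          rw [hA, Fin.insertNth_apply_succAbove]
        rw [this, hu3 k, mul_zero]
      rw [Finset.sum_eq_zero fun k _ => h3 k, add_zero]
      apply Finset.sum_congr rfl; intro j _
      rw [hy1, one_mul, hA, Fin.insertNth_apply_same]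
    rw [← h1]
    have h4 : nrm u ≤ ((m + 1 : ℕ) : ℝ) * 1 := gau_nrm_le (Nat.le_add_left 1 m) u 1 zero_le_one hu2
    calc |∑ j, (y ᵥ* A) j * u j| ≤ nrm (y ᵥ* A) * nrm u := gau_cs _ _
      _ ≤ 1 / ((m + 1 : ℕ) : ℝ) ^ 4 * (((m + 1 : ℕ) : ℝ) * 1) :=
          mul_le_mul hy3 h4 (gau_nrm_nonneg _) (by positivity)
      _ = 1 / ((m + 1 : ℕ) : ℝ) ^ 3 := by
          field_simp

theorem gau_tail {c : ℝ} (hc : 0 < c) : gaussianReal 0 1 {x : ℝ | c < |x|} ≤ ENNReal.ofReal (1 / c ^ 2) := by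
  have h := meas_ge_le_variance_div_sq (μ := gaussianReal 0 1) (X := id) (memLp_id_gaussianReal 2) hc
  rw [variance_id_gaussianReal] at h
  refine (measure_mono ?_).trans h
  intro x hx
  show c ≤ |id x - ∫ y, id y ∂(gaussianReal 0 1)|
  have : ∫ y, id y ∂(gaussianReal 0 1) = 0 := integral_id_gaussianReal
  rw [this, sub_zero]
  exact le_of_lt hx

theorem gau_entry (n : ℕ) (i j : Fin n) {c : ℝ} (hc : 0 < c) :
    mat (gaussianReal 0 1) n {A | c < |A i j|} ≤ ENNReal.ofReal (1 / c ^ 2) := by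
  have h1 : MeasurePreserving (Function.eval i) (mat (gaussianReal 0 1) n)
      (Measure.pi fun _ : Fin n => gaussianReal 0 1) :=
    measurePreserving_eval (fun _ : Fin n => Measure.pi fun _ : Fin n => gaussianReal 0 1) i
  have h2 : MeasurePreserving (Function.eval j) (Measure.pi fun _ : Fin n => gaussianReal 0 1) (gaussianReal 0 1) :=
    measurePreserving_eval (fun _ : Fin n => gaussianReal 0 1) j
  have h3 := h2.comp h1
  have hmeas : MeasurableSet {x : ℝ | c < |x|} := measurableSet_lt measurable_const (continuous_abs.measurable)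
  have h4 := h3.measure_preimage hmeas.nullMeasurableSet
  have h5 : {A : Fin n → Fin n → ℝ | c < |A i j|} =
      (Function.eval j ∘ Function.eval i) ⁻¹' {x : ℝ | c < |x|} := rfl
  rw [h5, h4]
  exact gau_tail hc

theorem gau_compl (hFUB : S_FUB) (hORT : S_ORT) (hGCL : S_GCL) (hGSL : S_GSL) (m : ℕ) :
    mat (gaussianReal 0 1) (m + 1) {A | Good (m + 1) A}ᶜ ≤ ENNReal.ofReal (2 / ((m + 1 : ℕ) : ℝ) ^ 2) := by
  set n := m + 1 with hn
  have hn1 : 1 ≤ n := Nat.le_add_left 1 m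
  have hn' : (1:ℝ) ≤ n := by exact_mod_cast hn1
  have hsub : {A : Fin n → Fin n → ℝ | Good n A}ᶜ ⊆
      (⋃ i, ⋃ j, {A | (n:ℝ) ^ 2 < |A i j|}) ∪ ⋃ i, gauF n i := by
    intro A hA
    have hA' : ¬ Good n A := hA
    unfold Good at hA'
    rw [not_and_or] at hA'
    rcases hA' with h | h
    · left
      push_neg at h
      obtain ⟨i, j, h⟩ := h
      exact Set.mem_iUnion.mpr ⟨i, Set.mem_iUnion.mpr ⟨j, h⟩⟩
    · right
      push_neg at h
      obtain ⟨v, hv⟩ := h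
      obtain ⟨i, hi⟩ := gau_cover hn1 A v hv
      exact Set.mem_iUnion.mpr ⟨i, hi⟩
  have e1 : mat (gaussianReal 0 1) n (⋃ i, ⋃ j, {A | (n:ℝ) ^ 2 < |A i j|}) ≤ ENNReal.ofReal (1 / (n:ℝ) ^ 2) := by
    calc mat (gaussianReal 0 1) n (⋃ i, ⋃ j, {A | (n:ℝ) ^ 2 < |A i j|})
        ≤ ∑ i : Fin n, mat (gaussianReal 0 1) n (⋃ j, {A | (n:ℝ) ^ 2 < |A i j|}) := measure_iUnion_fintype_le _ _
      _ ≤ ∑ i : Fin n, ∑ j : Fin n, mat (gaussianReal 0 1) n {A | (n:ℝ) ^ 2 < |A i j|} :=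
          Finset.sum_le_sum fun i _ => measure_iUnion_fintype_le _ _
      _ ≤ ∑ _i : Fin n, ∑ _j : Fin n, ENNReal.ofReal (1 / ((n:ℝ) ^ 2) ^ 2) :=
          Finset.sum_le_sum fun i _ => Finset.sum_le_sum fun j _ => gau_entry n i j (by positivity)
      _ = ENNReal.ofReal (1 / (n:ℝ) ^ 2) := by
          simp only [Finset.sum_const, Finset.card_univ, Fintype.card_fin, nsmul_eq_mul]
          rw [← ENNReal.ofReal_natCast, ← ENNReal.ofReal_mul (by positivity), ← ENNReal.ofReal_mul (by positivity)]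
          congr 1
          field_simp
  have e2 : mat (gaussianReal 0 1) n (⋃ i, gauF n i) ≤ ENNReal.ofReal (1 / (n:ℝ) ^ 2) := by
    calc mat (gaussianReal 0 1) n (⋃ i, gauF n i)
        ≤ ∑ i : Fin n, mat (gaussianReal 0 1) n (gauF n i) := measure_iUnion_fintype_le _ _
      _ ≤ ∑ _i : Fin n, ENNReal.ofReal (1 / (n:ℝ) ^ 3) :=
          Finset.sum_le_sum fun i _ => gau_F hFUB hORT hGCL hGSL m i
      _ = ENNReal.ofReal (1 / (n:ℝ) ^ 2) := by
          simp only [Finset.sum_const, Finset.card_univ, Fintype.card_fin, nsmul_eq_mul]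
          rw [← ENNReal.ofReal_natCast, ← ENNReal.ofReal_mul (by positivity)]
          congr 1
          field_simp
  calc mat (gaussianReal 0 1) n {A | Good n A}ᶜ
      ≤ mat (gaussianReal 0 1) n ((⋃ i, ⋃ j, {A | (n:ℝ) ^ 2 < |A i j|}) ∪ ⋃ i, gauF n i) := measure_mono hsub
    _ ≤ mat (gaussianReal 0 1) n (⋃ i, ⋃ j, {A | (n:ℝ) ^ 2 < |A i j|}) +
        mat (gaussianReal 0 1) n (⋃ i, gauF n i) := measure_union_le _ _
    _ ≤ ENNReal.ofReal (1 / (n:ℝ) ^ 2) + ENNReal.ofReal (1 / (n:ℝ) ^ 2) := add_le_add e1 e2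
    _ = ENNReal.ofReal (2 / (n:ℝ) ^ 2) := by
        rw [← ENNReal.ofReal_add (by positivity) (by positivity)]
        congr 1; ring

theorem gau : S_FUB → S_ORT → S_GCL → S_GSL → S_CLO → S_GAU := by
  intro hFUB hORT hGCL hGSL hCLO
  unfold S_GAU
  have hprob : ∀ n, IsProbabilityMeasure (mat (gaussianReal 0 1) n) := by
    intro n; unfold mat; infer_instance
  rw [← tendsto_add_atTop_iff_nat 1]
  have hlim : Tendsto (fun m : ℕ => 1 - ENNReal.ofReal (2 / ((m + 1 : ℕ) : ℝ) ^ 2)) atTop (𝓝 1) := by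
    have h1 : Tendsto (fun m : ℕ => (2:ℝ) / ((m + 1 : ℕ) : ℝ) ^ 2) atTop (𝓝 0) := by
      have h2 : Tendsto (fun m : ℕ => ((m + 1 : ℕ) : ℝ)) atTop atTop :=
        tendsto_natCast_atTop_atTop.comp (tendsto_add_atTop_nat 1)
      exact Tendsto.const_div_atTop ((tendsto_pow_atTop (by norm_num)).comp h2) 2
    have h2 := ENNReal.tendsto_ofReal h1
    rw [ENNReal.ofReal_zero] at h2
    have h3 := ENNReal.Tendsto.sub (tendsto_const_nhds (x := (1:ℝ≥0∞)) (f := (atTop : Filter ℕ))) h2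
      (Or.inl ENNReal.one_ne_top)
    rw [tsub_zero] at h3
    exact h3
  refine tendsto_of_tendsto_of_tendsto_of_le_of_le hlim tendsto_const_nhds ?_ ?_
  · intro m
    have := hprob (m + 1)
    have hmeas : MeasurableSet {A : Fin (m + 1) → Fin (m + 1) → ℝ | Good (m + 1) A} := (hCLO (m + 1)).measurableSet
    have h1 := gau_compl hFUB hORT hGCL hGSL m
    have h2 : mat (gaussianReal 0 1) (m + 1) {A | Good (m + 1) A}ᶜ =
        1 - mat (gaussianReal 0 1) (m + 1) {A | Good (m + 1) A} := prob_compl_eq_one_sub hmeas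
    rw [h2] at h1
    show 1 - ENNReal.ofReal (2 / ((m + 1 : ℕ) : ℝ) ^ 2) ≤ mat (gaussianReal 0 1) (m + 1) {A | Good (m + 1) A}
    have h3 : (1:ℝ≥0∞) ≤ mat (gaussianReal 0 1) (m + 1) {A | Good (m + 1) A} +
        ENNReal.ofReal (2 / ((m + 1 : ℕ) : ℝ) ^ 2) := by
      rw [add_comm]
      exact tsub_le_iff_right.mp h1
    exact tsub_le_iff_right.mpr h3
  · intro m
    have := hprob (m + 1)
    exact prob_le_one

end Pool.Agent.V5helper29.RLS
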