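import Pool.Agent.V5helper29.RLS.Stm

set_option autoImplicit false

open MeasureTheory ProbabilityTheory Filter Topology
open scoped Matrix ENNReal

noncomputable section

namespace Pool.Agent.V5helper29.RLS

/-- projection along a compact set -/
lemma proj_closed {X Y : Type*} [TopologicalSpace X] [TopologicalSpace Y] (K : Set X) (hK : IsCompact K)
    (f : X × Y → ℝ) (hf : Continuous f) (t : ℝ) : IsClosed {y : Y | ∃ x ∈ K, f (x, y) ≤ t} := by
  have : CompactSpace K := isCompact_iff_compactSpace.mp hK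
  have hcl : IsClosed {p : K × Y | f (p.1, p.2) ≤ t} :=
    isClosed_le (hf.comp ((continuous_subtype_val.comp continuous_fst).prodMk continuous_snd))
      continuous_const
  have h := isClosedMap_snd_of_compactSpace _ hcl
  have he : {y : Y | ∃ x ∈ K, f (x, y) ≤ t} = Prod.snd '' {p : K × Y | f (p.1, p.2) ≤ t} := by
    ext y
    constructor
    · rintro ⟨x, hx, h⟩
      exact ⟨(⟨x, hx⟩, y), h, rfl⟩
    · rintro ⟨⟨x, y'⟩, h, rfl⟩
      exact ⟨x.1, x.2, h⟩
  rw [he]
  exact h

theorem gcl : S_GCL := by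
  intro n i R t
  have hc : Continuous fun v : Fin n → ℝ => nrm v :=
    continuous_norm.comp (PiLp.continuous_toLp 2 _)
  have hm : Continuous fun p : (Fin n → ℝ) × (Fin n → Fin n → ℝ) =>
      nrm (p.1 ᵥ* (p.2 : Matrix (Fin n) (Fin n) ℝ)) := by
    refine hc.comp ?_
    refine continuous_pi fun j => ?_
    simp only [Matrix.vecMul, dotProduct]
    exact continuous_finsetSum _ fun i _ => by fun_prop
  have hK : IsCompact {y : Fin n → ℝ | y i = 1 ∧ ∀ k, |y k| ≤ R} := by
    refine IsCompact.of_isClosed_subset (isCompact_univ_pi fun _ : Fin n => isCompact_Icc (a := -R) (b := R)) ?_ ?_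
    · have h : {y : Fin n → ℝ | y i = 1 ∧ ∀ k, |y k| ≤ R} =
          {y : Fin n → ℝ | y i = 1} ∩ ⋂ k, {y : Fin n → ℝ | |y k| ≤ R} := by
        ext y
        simp
      rw [h]
      exact (isClosed_eq (by fun_prop) continuous_const).inter
        (isClosed_iInter fun k => isClosed_le (by fun_prop) continuous_const)
    · intro y hy k _
      exact abs_le.mp (hy.2 k)
  have h := proj_closed _ hK _ hm t
  have he : {A : Fin n → Fin n → ℝ | ∃ y : Fin n → ℝ, y i = 1 ∧ (∀ k, |y k| ≤ R) ∧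
      nrm (y ᵥ* (A : Matrix (Fin n) (Fin n) ℝ)) ≤ t} =
      {A : Fin n → Fin n → ℝ | ∃ y ∈ {y : Fin n → ℝ | y i = 1 ∧ ∀ k, |y k| ≤ R},
        nrm (y ᵥ* (A : Matrix (Fin n) (Fin n) ℝ)) ≤ t} := by
    ext A
    constructor
    · rintro ⟨y, h1, h2, h3⟩
      exact ⟨y, ⟨h1, h2⟩, h3⟩
    · rintro ⟨y, ⟨h1, h2⟩, h3⟩
      exact ⟨y, h1, h2, h3⟩
  rw [he]
  exact h

end Pool.Agent.V5helper29.RLS
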