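import Pool.Agent.V5helper37.RLS.Base

set_option autoImplicit false

open scoped Matrix

namespace Pool.Agent.V5helper29.RLS

open Pool.Agent.V5helper37.RLS

/-- division by an integer, rounded down, and division of real numbers -/
lemma num_floor (m : ℤ) (P : ℤ) (hP : 0 < P) :
    0 ≤ (m : ℝ) / (P : ℝ) - ((m / P : ℤ) : ℝ) ∧ (m : ℝ) / (P : ℝ) - ((m / P : ℤ) : ℝ) ≤ 1 := by
  have hPr : (0 : ℝ) < P := by exact_mod_cast hP
  have h1 : m / P * P ≤ m := Int.ediv_mul_le m hP.ne'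
  have h2 : m < (m / P + 1) * P := Int.lt_ediv_add_one_mul_self m hP
  have h1' : ((m / P : ℤ) : ℝ) * P ≤ m := by exact_mod_cast h1
  have h2' : (m : ℝ) < (((m / P : ℤ) : ℝ) + 1) * P := by exact_mod_cast h2
  constructor
  · have : ((m / P : ℤ) : ℝ) ≤ (m : ℝ) / P := by rw [le_div_iff₀ hPr]; exact h1'
    linarith
  · have : (m : ℝ) / P ≤ ((m / P : ℤ) : ℝ) + 1 := by rw [div_le_iff₀ hPr]; exact h2'.le
    linarith

/-- the powers -/
lemma num_pow (n : ℕ) (hn : 2 ≤ n) (j k : ℕ) (h : j + k ≤ 40) : (2 : ℝ) ^ j * (n : ℝ) ^ k ≤ (n : ℝ) ^ 40 := by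
  have hn' : (2 : ℝ) ≤ n := by exact_mod_cast hn
  calc (2 : ℝ) ^ j * (n : ℝ) ^ k ≤ (n : ℝ) ^ j * (n : ℝ) ^ k := by
        apply mul_le_mul_of_nonneg_right (pow_le_pow_left₀ (by norm_num) hn' _) (by positivity)
    _ = (n : ℝ) ^ (j + k) := by rw [pow_add]
    _ ≤ (n : ℝ) ^ 40 := pow_le_pow_right₀ (by linarith) h

/-- powers of numbers slightly smaller than one -/
lemma num_bern (x : ℝ) (hx : 0 < x) (hx1 : x ≤ 1) (N : ℕ) (hN : 0 < N) : (1 - x) ^ N ≤ 1 / (N * x) := by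
  have h1 : 1 + (N : ℝ) * x ≤ (1 + x) ^ N := one_add_mul_le_pow (by linarith) N
  have h2 : (1 - x) ^ N * (1 + x) ^ N ≤ 1 := by
    rw [← mul_pow]
    apply pow_le_one₀
    · nlinarith
    · nlinarith
  have h3 : 0 ≤ (1 - x) ^ N := pow_nonneg (by linarith) _
  have hN' : (0 : ℝ) < N := by exact_mod_cast hN
  have hNx : 0 < (N : ℝ) * x := by positivity
  rw [le_div_iff₀ hNx]
  nlinarith

theorem num (hBD : S_BD) (hREC : S_REC) : S_NUM := by
  intro n K A ε hn hA hε hε1 hK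
  have hn1 : 1 ≤ n := by omega
  have hn2 : (2 : ℝ) ≤ n := by exact_mod_cast hn
  have hnpos : (0 : ℝ) < n := by linarith
  set Q : ℝ := 2 ^ K with hQ
  have hQpos : 0 < Q := by positivity
  have hnQ : (n : ℝ) ^ 40 ≤ ε * Q := by
    rw [div_le_iff₀ hε] at hK
    linarith
  have hnQ1 : (n : ℝ) ^ 40 ≤ Q := by nlinarith
  have hQ1 : 1 ≤ Q := (one_le_pow₀ (by linarith)).trans hnQ1
  set P : ℝ := 2 ^ (4 * K) with hP
  have hPQ : P = Q ^ 4 := by rw [hP, hQ, ← pow_mul, mul_comm]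
  have hPpos : 0 < P := by positivity
  have hQP : Q ≤ P := by
    rw [hPQ]
    calc Q = Q ^ 1 := (pow_one _).symm
      _ ≤ Q ^ 4 := pow_le_pow_right₀ hQ1 (by norm_num)
  have hPz : ((2 ^ (4 * K) : ℤ) : ℝ) = P := by rw [hP]; push_cast; rfl
  have hPz0 : (0 : ℤ) < 2 ^ (4 * K) := by positivity
  have hp := num_pow n hn
  set B : Matrix (Fin n) (Fin n) ℤ := rnd A K with hB
  set Ah : Matrix (Fin n) (Fin n) ℝ := fun i j => A i j / (2 * (n : ℝ) ^ 3) with hAh
  set B' : Matrix (Fin n) (Fin n) ℝ := fun i j => (B i j : ℝ) / P with hB'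
  set N : ℕ → Matrix (Fin n) (Fin n) ℤ := newt B (2 ^ (4 * K)) with hN
  set X : ℕ → Matrix (Fin n) (Fin n) ℝ := fun k i j => (N k i j : ℝ) / P with hX
  set T : ℕ → Matrix (Fin n) (Fin n) ℝ := fun k i j => ((flo (2 ^ (4 * K)) (B * N k) i j : ℤ) : ℝ) / P with hT
  have hAB : ∀ i j, |(Ah - B') i j| ≤ 1 / P := by
    intro i j
    have h1 : B i j = ⌊P * Ah i j⌋ := rfl
    have h2 := Int.floor_le (P * Ah i j)
    have h3 := Int.lt_floor_add_one (P * Ah i j)
    have h4 : (Ah - B') i j = (P * Ah i j - (⌊P * Ah i j⌋ : ℝ)) / P := by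
      rw [Matrix.sub_apply]
      change Ah i j - (B i j : ℝ) / P = _
      rw [h1]
      field_simp
    rw [h4, abs_div, abs_of_pos hPpos]
    apply div_le_div_of_nonneg_right _ hPpos.le
    rw [abs_le]
    constructor <;> linarith
  have hAhb : ∀ i j, |Ah i j| ≤ 1 / (2 * n) := by
    intro i j
    change |A i j / (2 * (n : ℝ) ^ 3)| ≤ _
    rw [abs_div, abs_of_pos (show (0 : ℝ) < 2 * (n : ℝ) ^ 3 by positivity), div_le_div_iff₀ (by positivity) (by positivity)]
    have := hA.1 i j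
    nlinarith [this, sq_nonneg (n : ℝ)]
  have hP2n : 2 * (n : ℝ) ≤ P := by
    have := hp 1 1 (by norm_num)
    rw [pow_one, pow_one] at this
    linarith
  have hBdB : Bd B' 1 := by
    have h1 : ∀ i j, |B' i j| ≤ 1 / n := by
      intro i j
      have h2 : B' i j = Ah i j - (Ah - B') i j := by rw [Matrix.sub_apply]; ring
      rw [h2]
      calc |Ah i j - (Ah - B') i j| ≤ |Ah i j| + |(Ah - B') i j| := abs_sub _ _
        _ ≤ 1 / (2 * n) + 1 / P := add_le_add (hAhb i j) (hAB i j)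
        _ ≤ 1 / (2 * n) + 1 / (2 * n) := by
            apply add_le_add_right
            exact one_div_le_one_div_of_le (by positivity) hP2n
        _ = 1 / n := by field_simp; norm_num
    have h2 := (hBD n B' (1 / n) (by positivity)).2.2 h1
    refine bdMono h2 (le_of_eq ?_)
    field_simp
  have hABt : Bd (Ah - B')ᵀ (n / P) := by
    have h1 := (hBD n (Ah - B')ᵀ (1 / P) (by positivity)).2.2 (fun i j => hAB j i)
    refine bdMono h1 (le_of_eq ?_)
    ring
  have hABb : Bd (Ah - B') (n / P) := by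
    have h1 := (hBD n (Ah - B') (1 / P) (by positivity)).2.2 hAB
    refine bdMono h1 (le_of_eq ?_)
    ring
  have hA2 : A = (2 * (n : ℝ) ^ 3) • Ah := by
    ext i j
    simp only [Matrix.smul_apply, hAh, smul_eq_mul]
    field_simp
  have hlow : ∀ v : Fin n → ℝ, nrm v ≤ (n : ℝ) ^ 13 * nrm (v ᵥ* B') := by
    intro v
    have h1 := hA.2 v
    have h2 : v ᵥ* A = (2 * (n : ℝ) ^ 3) • (v ᵥ* Ah) := by
      rw [hA2, Matrix.vecMul_smul]
    rw [h2, nrm_smul, abs_of_pos (show (0 : ℝ) < 2 * (n : ℝ) ^ 3 by positivity)] at h1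
    have h3 : v ᵥ* Ah = v ᵥ* B' + (Ah - B')ᵀ *ᵥ v := by
      rw [Matrix.mulVec_transpose, Matrix.vecMul_sub]
      abel
    have h4 : nrm (v ᵥ* Ah) ≤ nrm (v ᵥ* B') + n / P * nrm v := by
      rw [h3]
      exact (nrm_add _ _).trans (add_le_add le_rfl (hABt v))
    have h5 : 2 * (n : ℝ) ^ 11 * (n / P) ≤ 1 / 2 := by
      have := hp 2 12 (by norm_num)
      rw [mul_div_assoc', div_le_div_iff₀ hPpos (by norm_num)]
      nlinarith
    have h6 : nrm v ≤ 2 * (n : ℝ) ^ 11 * (nrm (v ᵥ* B') + n / P * nrm v) := by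
      calc nrm v ≤ (n : ℝ) ^ 8 * (2 * (n : ℝ) ^ 3 * nrm (v ᵥ* Ah)) := h1
        _ = 2 * (n : ℝ) ^ 11 * nrm (v ᵥ* Ah) := by ring
        _ ≤ _ := mul_le_mul_of_nonneg_left h4 (by positivity)
    have h7 : 2 * (n : ℝ) ^ 11 * (n / P * nrm v) ≤ 1 / 2 * nrm v := by
      rw [← mul_assoc]
      exact mul_le_mul_of_nonneg_right h5 (nrm_nonneg _)
    have h8 : nrm v ≤ 4 * (n : ℝ) ^ 11 * nrm (v ᵥ* B') := by
      have : 2 * (n : ℝ) ^ 11 * (nrm (v ᵥ* B') + n / P * nrm v) =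
        2 * (n : ℝ) ^ 11 * nrm (v ᵥ* B') + 2 * (n : ℝ) ^ 11 * (n / P * nrm v) := by ring
      linarith
    refine h8.trans (mul_le_mul_of_nonneg_right ?_ (nrm_nonneg _))
    calc 4 * (n : ℝ) ^ 11 ≤ (n : ℝ) ^ 2 * (n : ℝ) ^ 11 := by
          apply mul_le_mul_of_nonneg_right _ (by positivity)
          nlinarith
      _ = (n : ℝ) ^ 13 := by ring
  have hX0 : X 0 = B'ᵀ := by
    ext i j
    rfl
  have hBX : ∀ k i j, (B' * X k) i j = (((B * N k) i j : ℤ) : ℝ) / P / P := by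
    intro k i j
    rw [Matrix.mul_apply, Matrix.mul_apply]
    push_cast
    rw [Finset.sum_div, Finset.sum_div]
    apply Finset.sum_congr rfl
    intro l _
    simp only [hB', hX]
    ring
  have hXT : ∀ k i j, (X k * T k) i j = (((N k * flo (2 ^ (4 * K)) (B * N k)) i j : ℤ) : ℝ) / P / P := by
    intro k i j
    rw [Matrix.mul_apply, Matrix.mul_apply]
    push_cast
    rw [Finset.sum_div, Finset.sum_div]
    apply Finset.sum_congr rfl
    intro l _
    simp only [hT, hX]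
    ring
  have hr1 : ∀ k i j, |(B' * X k - T k) i j| ≤ 1 / P := by
    intro k i j
    have h1 := num_floor ((B * N k) i j) (2 ^ (4 * K)) hPz0
    rw [hPz] at h1
    have h2 : (B' * X k - T k) i j = ((((B * N k) i j : ℤ) : ℝ) / P - (((B * N k) i j / 2 ^ (4 * K) : ℤ) : ℝ)) / P := by
      rw [Matrix.sub_apply, hBX, sub_div]
      rfl
    rw [h2, abs_div, abs_of_pos hPpos]
    apply div_le_div_of_nonneg_right _ hPpos.le
    rw [abs_le]
    constructor <;> linarith [h1.1, h1.2]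
  have hr2 : ∀ k i j, |(X (k + 1) - ((2 : ℝ) • X k - X k * T k)) i j| ≤ 1 / P := by
    intro k i j
    have h1 := num_floor ((N k * flo (2 ^ (4 * K)) (B * N k)) i j) (2 ^ (4 * K)) hPz0
    rw [hPz] at h1
    have h3 : N (k + 1) i j = 2 * N k i j - (N k * flo (2 ^ (4 * K)) (B * N k)) i j / 2 ^ (4 * K) := by
      rw [hN]
      simp only [newt, Matrix.sub_apply, Matrix.smul_apply, smul_eq_mul]
      rfl
    have h2 : (X (k + 1) - ((2 : ℝ) • X k - X k * T k)) i j =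
        ((((N k * flo (2 ^ (4 * K)) (B * N k)) i j : ℤ) : ℝ) / P -
          (((N k * flo (2 ^ (4 * K)) (B * N k)) i j / 2 ^ (4 * K) : ℤ) : ℝ)) / P := by
      rw [Matrix.sub_apply, Matrix.sub_apply, Matrix.smul_apply, hXT]
      have h4 : X (k + 1) i j = (N (k + 1) i j : ℝ) / P := rfl
      have h5 : X k i j = (N k i j : ℝ) / P := rfl
      rw [h4, h5, h3, smul_eq_mul]
      push_cast
      ring
    rw [h2, abs_div, abs_of_pos hPpos]
    apply div_le_div_of_nonneg_right _ hPpos.le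
    rw [abs_le]
    constructor <;> linarith [h1.1, h1.2]
  have h3K : (3 : ℝ) ^ K * (4 * n / P) ≤ ε / 4 := by
    have h1 : (3 : ℝ) ^ K ≤ Q ^ 2 := by
      rw [hQ, ← pow_mul, mul_comm, pow_mul]
      exact pow_le_pow_left₀ (by norm_num) (by norm_num) _
    have h2 := hp 4 1 (by norm_num)
    rw [pow_one] at h2
    rw [mul_div_assoc', div_le_div_iff₀ hPpos (by norm_num), hPQ]
    have h3 : 16 * (n : ℝ) ≤ ε * Q ^ 2 := by nlinarith
    have h4 : (3 : ℝ) ^ K * (4 * n) * 4 ≤ Q ^ 2 * (16 * n) := by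
      have : (3 : ℝ) ^ K * (4 * n) * 4 = 3 ^ K * (16 * n) := by ring
      rw [this]
      exact mul_le_mul_of_nonneg_right h1 (by positivity)
    calc (3 : ℝ) ^ K * (4 * n) * 4 ≤ Q ^ 2 * (16 * n) := h4
      _ ≤ Q ^ 2 * (ε * Q ^ 2) := mul_le_mul_of_nonneg_left h3 (by positivity)
      _ = ε * Q ^ 4 := by ring
  have hS1 : (1 : ℝ) ≤ (n : ℝ) ^ 13 := one_le_pow₀ (by linarith)
  have hmain := hREC n K B' X T P ((n : ℝ) ^ 13) hn1 hS1 hPpos hBdB hlow hX0 hr1 hr2 (by linarith)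
  have hP9 : (2 : ℝ) ^ (9 * K) = Q * (P * P) := by
    rw [hPQ, hQ, ← pow_mul, ← pow_add, ← pow_add]
    congr 1
    ring
  refine ⟨fun k hk i j => ?_, fun b => ?_⟩
  · obtain ⟨-, hXk, hBXk, hTk⟩ := hmain k hk
    constructor
    · have h1 := (hBD n (B' * X k) 3 (by norm_num)).2.1 hBXk i j
      rw [hBX, abs_div, abs_div, abs_of_pos hPpos, div_div, div_le_iff₀ (by positivity)] at h1
      have h2 := hp 2 1 (by norm_num)
      rw [pow_one] at h2
      have h3 : (|((B * N k) i j : ℤ)| : ℝ) < 2 ^ (9 * K) := by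
        rw [hP9]
        refine lt_of_le_of_lt h1 (mul_lt_mul_of_pos_right ?_ (by positivity))
        linarith
      exact_mod_cast h3
    · have h0 := bdMul hXk hTk (by positivity)
      have h1 := (hBD n (X k * T k) (3 * (n : ℝ) ^ 13 * 4) (by positivity)).2.1 h0 i j
      rw [hXT, abs_div, abs_div, abs_of_pos hPpos, div_div, div_le_iff₀ (by positivity)] at h1
      have h2 := hp 4 13 (by norm_num)
      have h3 : (|((N k * flo (2 ^ (4 * K)) (B * N k)) i j : ℤ)| : ℝ) < 2 ^ (9 * K) := by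
        rw [hP9]
        refine lt_of_le_of_lt h1 (mul_lt_mul_of_pos_right ?_ (by positivity))
        have : (0 : ℝ) < (n : ℝ) ^ 13 := by positivity
        linarith
      exact_mod_cast h3
  · obtain ⟨hR, hXK, -, -⟩ := hmain K le_rfl
    have hq : (1 - 1 / (2 * ((n : ℝ) ^ 13) ^ 2)) ^ (2 ^ K) ≤ ε / 4 := by
      have h1 : (1 : ℝ) ≤ 2 * ((n : ℝ) ^ 13) ^ 2 := by
        have := one_le_pow₀ hS1 (n := 2)
        linarith
      have h2 := num_bern (1 / (2 * ((n : ℝ) ^ 13) ^ 2)) (by positivity)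
        (by rw [div_le_one (by positivity)]; exact h1) (2 ^ K) (by positivity)
      refine h2.trans ?_
      have h3 : (((2 ^ K : ℕ) : ℝ)) = Q := by rw [hQ]; push_cast; rfl
      rw [h3]
      have h4 := hp 3 26 (by norm_num)
      have h5 : Q * (1 / (2 * ((n : ℝ) ^ 13) ^ 2)) = Q / (2 * (n : ℝ) ^ 26) := by
        rw [← pow_mul]; ring
      rw [h5, one_div_div, div_le_div_iff₀ hQpos (by norm_num)]
      linarith
    have hR' : Bd (1 - B' * X K) (ε / 2) := bdMono hR (by linarith)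
    have hfin : Bd ((Ah - B') * X K - (1 - B' * X K)) ε := by
      have h1 := bdSub (bdMul hABb hXK (by positivity)) hR'
      refine bdMono h1 ?_
      have h2 := hp 3 14 (by norm_num)
      have h3 : (n : ℝ) / P * (3 * (n : ℝ) ^ 13) ≤ ε / 2 := by
        rw [div_mul_eq_mul_div, div_le_div_iff₀ hPpos (by norm_num), hPQ]
        have h4 : ε * Q ≤ ε * Q ^ 4 := by
          apply mul_le_mul_of_nonneg_left _ hε.le
          calc Q = Q ^ 1 := (pow_one _).symm
            _ ≤ Q ^ 4 := pow_le_pow_right₀ hQ1 (by norm_num)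
        have h5 : (n : ℝ) * (3 * (n : ℝ) ^ 13) * 2 = 6 * (n : ℝ) ^ 14 := by ring
        have h6 : (0 : ℝ) < (n : ℝ) ^ 14 := by positivity
        rw [h5]
        linarith
      linarith
    have hx : (fun i => (∑ j, (N K i j : ℝ) * b j) / (2 ^ (4 * K) * (2 * (n : ℝ) ^ 3))) =
        (1 / (2 * (n : ℝ) ^ 3)) • (X K *ᵥ b) := by
      funext i
      rw [Pi.smul_apply, smul_eq_mul]
      change _ = _ * ∑ j, X K i j * b j
      rw [Finset.mul_sum, Finset.sum_div]
      apply Finset.sum_congr rfl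
      intro j _
      have h5 : X K i j = (N K i j : ℝ) / P := rfl
      rw [h5, hP]
      field_simp
    have hAx : A *ᵥ ((1 / (2 * (n : ℝ) ^ 3)) • (X K *ᵥ b)) - b = ((Ah - B') * X K - (1 - B' * X K)) *ᵥ b := by
      have h1 : A *ᵥ ((1 / (2 * (n : ℝ) ^ 3)) • (X K *ᵥ b)) = (Ah * X K) *ᵥ b := by
        rw [hA2, Matrix.mulVec_smul, Matrix.smul_mulVec, smul_smul, ← Matrix.mulVec_mulVec]
        have : 1 / (2 * (n : ℝ) ^ 3) * (2 * (n : ℝ) ^ 3) = 1 := by field_simp
        rw [this, one_smul]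
      have h2 : (Ah - B') * X K - (1 - B' * X K) = Ah * X K - 1 := by noncomm_ring
      rw [h1, h2, Matrix.sub_mulVec, Matrix.one_mulVec]
    rw [hx, hAx]
    exact hfin b

end Pool.Agent.V5helper29.RLS
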