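import Pool.Agent.V5helper29.RLS.Stm

set_option autoImplicit false

open MeasureTheory ProbabilityTheory Filter Topology
open scoped Matrix ENNReal

noncomputable section

namespace Pool.Agent.V5helper29.RLS

theorem ort : S_ORT := by
  intro n z
  have hker : LinearMap.ker (Matrix.mulVecLin (Matrix.of z)) ≠ ⊥ :=
    LinearMap.ker_ne_bot_of_finrank_lt (by simp)
  obtain ⟨v, hv, hv0⟩ := Submodule.exists_mem_ne_zero_of_ne_bot hker
  obtain ⟨j₀, hj₀⟩ := Finite.exists_max (fun j => |v j|)
  have hpos : v j₀ ≠ 0 := by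
    intro h
    refine hv0 (funext fun j => ?_)
    have h1 := hj₀ j
    simp only [h, abs_zero] at h1
    simpa using abs_nonpos_iff.mp h1
  have hz : ∀ k, ∑ j, z k j * v j = 0 := by
    intro k
    have h1 : (Matrix.mulVecLin (Matrix.of z)) v = 0 := hv
    have h2 := congrFun h1 k
    simpa [Matrix.mulVec, dotProduct] using h2
  refine ⟨fun j => v j / v j₀, ⟨j₀, by
    change |v j₀ / v j₀| = 1
    rw [div_self hpos, abs_one]⟩, fun j => ?_, fun k => ?_⟩
  · change |v j / v j₀| ≤ 1
    rw [abs_div, div_le_one (abs_pos.mpr hpos)]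
    exact hj₀ j
  · have h1 : ∑ j, z k j * (v j / v j₀) = (∑ j, z k j * v j) / v j₀ := by
      rw [Finset.sum_div]
      exact Finset.sum_congr rfl fun j _ => by ring
    rw [h1, hz k, zero_div]

end Pool.Agent.V5helper29.RLS
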