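import Pool.Agent.V5helper37.RLS.Base

set_option autoImplicit false

open scoped Matrix

namespace Pool.Agent.V5helper29.RLS

open Pool.Agent.V5helper37.RLS

theorem rec (hBD : S_BD) : S_REC := by
  intro n K B' X T P S hn hS hP hB hlow hX0 hT hX hK
  -- notations
  have hnpos : (0 : ℝ) < n := by exact_mod_cast hn
  have hSpos : 0 < S := by linarith
  set q : ℝ := 1 - 1 / (2 * S ^ 2) with hq
  have hS2 : 1 ≤ S ^ 2 := one_le_pow₀ hS
  have hq0 : 0 ≤ q := by
    have : 1 / (2 * S ^ 2) ≤ 1 := by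
      rw [div_le_one (by positivity)]; linarith
    rw [hq]; linarith
  have hq1 : q ≤ 1 := by
    have : 0 ≤ 1 / (2 * S ^ 2) := by positivity
    rw [hq]; linarith
  set η : ℝ := 4 * n / P with hη
  have hη0 : 0 < η := by positivity
  have hnP : (n : ℝ) / P = η / 4 := by rw [hη]; ring
  -- rounding errors
  have hd1 : ∀ k, Bd (B' * X k - T k) (η / 4) := by
    intro k
    have := (hBD n (B' * X k - T k) (1 / P) (by positivity)).2.2 (hT k)
    refine bdMono this (le_of_eq ?_)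
    rw [← hnP]; ring
  have hd2 : ∀ k, Bd (X (k + 1) - ((2 : ℝ) • X k - X k * T k)) (η / 4) := by
    intro k
    have := (hBD n (X (k + 1) - ((2 : ℝ) • X k - X k * T k)) (1 / P) (by positivity)).2.2 (hX k)
    refine bdMono this (le_of_eq ?_)
    rw [← hnP]; ring
  -- lower bound for B'
  have hlow' : ∀ w : Fin n → ℝ, nrm w ≤ S * nrm (B' *ᵥ w) := by
    intro w
    have hinj : Function.Injective (fun v : Fin n → ℝ => v ᵥ* B') := by
      intro v1 v2 h
      have h1 : (v1 - v2) ᵥ* B' = 0 := by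
        rw [Matrix.sub_vecMul]
        exact sub_eq_zero.mpr h
      have h2 := hlow (v1 - v2)
      rw [h1, nrm_zero, mul_zero] at h2
      exact sub_eq_zero.mp (nrm_eq_zero (le_antisymm h2 (nrm_nonneg _)))
    have hsurj : Function.Surjective (fun v : Fin n → ℝ => v ᵥ* B') := by
      have := (LinearMap.injective_iff_surjective (f := B'.vecMulLinear)).mp (by
        intro a b h
        exact hinj h)
      intro y
      obtain ⟨x, hx⟩ := this y
      exact ⟨x, hx⟩
    obtain ⟨u, hu⟩ := hsurj w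
    have hu' : u ᵥ* B' = w := hu
    have h1 : nrm w ^ 2 ≤ nrm (B' *ᵥ w) * (S * nrm w) := by
      rw [nrm_sq']
      calc w ⬝ᵥ w = (u ᵥ* B') ⬝ᵥ w := by rw [hu']
        _ = u ⬝ᵥ (B' *ᵥ w) := by rw [Matrix.dotProduct_mulVec]
        _ ≤ |u ⬝ᵥ (B' *ᵥ w)| := le_abs_self _
        _ ≤ nrm u * nrm (B' *ᵥ w) := abs_dot_le _ _
        _ ≤ (S * nrm w) * nrm (B' *ᵥ w) := by
            apply mul_le_mul_of_nonneg_right _ (nrm_nonneg _)
            rw [← hu']
            exact hlow u
        _ = nrm (B' *ᵥ w) * (S * nrm w) := by ring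
    rcases (nrm_nonneg w).eq_or_lt with h0 | h0
    · rw [← h0]
      exact mul_nonneg hSpos.le (nrm_nonneg _)
    · by_contra hlt
      push Not at hlt
      nlinarith
  -- the start
  have hR0 : Bd (1 - B' * X 0) q := by
    intro v
    have e1 : (1 - B' * X 0) *ᵥ v = v - B' *ᵥ (B'ᵀ *ᵥ v) := by
      rw [hX0, Matrix.sub_mulVec, Matrix.one_mulVec, Matrix.mulVec_mulVec]
    set a := B'ᵀ *ᵥ v with ha
    have hva : v ⬝ᵥ (B' *ᵥ a) = nrm a ^ 2 := by
      rw [nrm_sq', Matrix.dotProduct_mulVec, ← Matrix.mulVec_transpose]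
    have h1 : nrm (v - B' *ᵥ a) ^ 2 = nrm v ^ 2 - 2 * nrm a ^ 2 + nrm (B' *ᵥ a) ^ 2 := by
      rw [nrm_sq', nrm_sq' v, nrm_sq' (B' *ᵥ a), ← hva, sub_dotProduct, dotProduct_sub, dotProduct_sub,
        dotProduct_comm (B' *ᵥ a) v]
      ring
    have h2 : nrm (B' *ᵥ a) ^ 2 ≤ nrm a ^ 2 := by
      have := hB a
      rw [one_mul] at this
      exact pow_le_pow_left₀ (nrm_nonneg _) this 2
    have h3 : nrm v ^ 2 ≤ S ^ 2 * nrm a ^ 2 := by
      have := hlow v
      rw [← Matrix.mulVec_transpose] at this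
      calc nrm v ^ 2 ≤ (S * nrm a) ^ 2 := pow_le_pow_left₀ (nrm_nonneg _) this 2
        _ = _ := by ring
    have h4 : nrm (v - B' *ᵥ a) ^ 2 ≤ (q * nrm v) ^ 2 := by
      have h5 : (1 / S ^ 2) * nrm v ^ 2 ≤ nrm a ^ 2 := by
        rw [div_mul_eq_mul_div, one_mul, div_le_iff₀ (by positivity)]
        linarith
      have h6 : q ^ 2 = 1 - 1 / S ^ 2 + (1 / (2 * S ^ 2)) ^ 2 := by
        rw [hq]; field_simp; ring
      have h7 : (0 : ℝ) ≤ (1 / (2 * S ^ 2)) ^ 2 := sq_nonneg _
      rw [mul_pow, h6]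
      nlinarith [sq_nonneg (nrm v)]
    rw [e1]
    exact (le_abs_self _).trans (abs_le_of_sq_le_sq h4 (mul_nonneg hq0 (nrm_nonneg _)))
  -- the recursion
  have hrec : ∀ k, 1 - B' * X (k + 1) = (1 - B' * X k) * (1 - B' * X k) - (B' * X k) * (B' * X k - T k)
      - B' * (X (k + 1) - ((2 : ℝ) • X k - X k * T k)) := by
    intro k
    have : (2 : ℝ) • X k = X k + X k := two_smul _ _
    rw [this]
    noncomm_ring
  have hmain : ∀ k ≤ K, Bd (1 - B' * X k) (q ^ (2 ^ k) + (3 ^ k - 1) * η) := by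
    intro k
    induction k with
    | zero =>
      intro _
      simpa using hR0
    | succ k ih =>
      intro hk
      have ih' := ih (by omega)
      have h3k : (3 : ℝ) ^ k * η ≤ 1 := by
        calc (3 : ℝ) ^ k * η ≤ 3 ^ K * η := by
              apply mul_le_mul_of_nonneg_right _ hη0.le
              exact pow_le_pow_right₀ (by norm_num) (by omega)
          _ ≤ 1 := hK
      have h3k1 : (1 : ℝ) ≤ 3 ^ k := one_le_pow₀ (by norm_num)
      set p : ℝ := q ^ (2 ^ k) with hp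
      set e : ℝ := (3 ^ k - 1) * η with he
      have hp0 : 0 ≤ p := pow_nonneg hq0 _
      have hp1 : p ≤ 1 := pow_le_one₀ hq0 hq1
      have he0 : 0 ≤ e := mul_nonneg (by linarith) hη0.le
      have he1 : e ≤ 1 := by
        rw [he]; nlinarith
      have hpp : q ^ (2 ^ (k + 1)) = p ^ 2 := by
        rw [hp, pow_succ, pow_mul]
      have hY : Bd (B' * X k) (1 + (p + e)) := by
        have := bdSub (bdOne (n := n)) ih'
        simpa using this
      rw [hrec k]
      have hb1 := bdMul ih' ih' (by linarith)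
      have hb2 := bdMul hY (hd1 k) (by linarith)
      have hb3 := bdMul hB (hd2 k) (by norm_num)
      refine bdMono (bdSub (bdSub hb1 hb2) hb3) ?_
      rw [hpp]
      have h3e : (3 ^ (k + 1) - 1) * η = 3 * e + 2 * η := by
        rw [he, pow_succ]; ring
      rw [h3e]
      have h8 : (p + e) * (p + e) ≤ p ^ 2 + 3 * e := by nlinarith
      have h9 : (1 + (p + e)) * (η / 4) ≤ 3 * (η / 4) := by nlinarith
      nlinarith
  intro k hk
  have h3k : (3 : ℝ) ^ k * η ≤ 1 := by
    calc (3 : ℝ) ^ k * η ≤ 3 ^ K * η := by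
          apply mul_le_mul_of_nonneg_right _ hη0.le
          exact pow_le_pow_right₀ (by norm_num) hk
      _ ≤ 1 := hK
  have h3k1 : (1 : ℝ) ≤ 3 ^ k := one_le_pow₀ (by norm_num)
  have hp1 : q ^ (2 ^ k) ≤ 1 := pow_le_one₀ hq0 hq1
  have hη1 : η ≤ 1 := by nlinarith
  have hY : Bd (B' * X k) 3 := by
    have := bdSub (bdOne (n := n)) (hmain k hk)
    rw [sub_sub_cancel] at this
    refine bdMono this ?_
    nlinarith
  refine ⟨bdMono (hmain k hk) (by nlinarith), ?_, hY, ?_⟩
  · intro v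
    calc nrm (X k *ᵥ v) ≤ S * nrm (B' *ᵥ (X k *ᵥ v)) := hlow' _
      _ = S * nrm ((B' * X k) *ᵥ v) := by rw [Matrix.mulVec_mulVec]
      _ ≤ S * (3 * nrm v) := mul_le_mul_of_nonneg_left (hY v) hSpos.le
      _ = 3 * S * nrm v := by ring
  · have := bdSub hY (hd1 k)
    rw [sub_sub_cancel] at this
    refine bdMono this ?_
    linarith

end Pool.Agent.V5helper29.RLS
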