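import Pool.Agent.V5helper29.RLS.Stm

/-!
# Project RLS, job SP: the union bound over nearly sparse vectors
-/

set_option autoImplicit false

open MeasureTheory ProbabilityTheory Filter Topology
open scoped Matrix ENNReal

noncomputable section

namespace Pool.Agent.V5helper29.RLS

/-- flipping one coordinate -/
def spFlip {N : ℕ} (j₀ : Fin N) (z : Fin N → Bool) : Fin N → Bool := Function.update z j₀ (!z j₀)

theorem spFlip_flip {N : ℕ} (j₀ : Fin N) (z : Fin N → Bool) : spFlip j₀ (spFlip j₀ z) = z := by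
  unfold spFlip
  ext j
  by_cases h : j = j₀
  · subst h; simp
  · simp [Function.update_of_ne h]

theorem spFlip_sum {N : ℕ} (a d : ℝ) (y : Fin N → ℝ) (j₀ : Fin N) (z : Fin N → Bool) :
    |∑ j, val a d (spFlip j₀ z j) * y j - ∑ j, val a d (z j) * y j| = |d| * |y j₀| := by
  rw [← Finset.sum_sub_distrib]
  rw [Finset.sum_eq_single j₀]
  · unfold spFlip
    rw [Function.update_self, ← sub_mul, abs_mul]
    congr 1
    cases z j₀ <;> simp [val]
  · intro j _ hj
    unfold spFlip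
    rw [Function.update_of_ne hj]; ring
  · intro h; exact absurd (Finset.mem_univ _) h

/-- at most half of the rows -/
theorem sp_half {N : ℕ} (a d : ℝ) (hd : 1 ≤ d) (y : Fin N → ℝ) (j₀ : Fin N) (hy : |y j₀| = 1) :
    {z : Fin N → Bool | |∑ j, val a d (z j) * y j| ≤ 1 / 4}.ncard * 2 ≤ 2 ^ N := by
  classical
  set G := {z : Fin N → Bool | |∑ j, val a d (z j) * y j| ≤ 1 / 4} with hG
  have hinj : Function.Injective (spFlip j₀ : (Fin N → Bool) → Fin N → Bool) :=
    Function.LeftInverse.injective (g := spFlip j₀) (spFlip_flip j₀)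
  have h1 : (spFlip j₀ '' G).ncard = G.ncard := Set.ncard_image_of_injective _ hinj
  have h2 : Disjoint G (spFlip j₀ '' G) := by
    rw [Set.disjoint_left]
    rintro _ hz ⟨z, hz', rfl⟩
    have h3 := spFlip_sum a d y j₀ z
    rw [hy, mul_one, abs_of_nonneg (by linarith : (0:ℝ) ≤ d)] at h3
    have h4 : |∑ j, val a d (spFlip j₀ z j) * y j| ≤ 1 / 4 := hz
    have h5 : |∑ j, val a d (z j) * y j| ≤ 1 / 4 := hz'
    have h6 := abs_sub (∑ j, val a d (spFlip j₀ z j) * y j) (∑ j, val a d (z j) * y j)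
    linarith
  have h3 : (G ∪ spFlip j₀ '' G).ncard = G.ncard + (spFlip j₀ '' G).ncard :=
    Set.ncard_union_eq h2 (Set.toFinite _) (Set.toFinite _)
  have h4 : (G ∪ spFlip j₀ '' G).ncard ≤ (Set.univ : Set (Fin N → Bool)).ncard :=
    Set.ncard_le_ncard (Set.subset_univ _) (Set.toFinite _)
  rw [Set.ncard_univ, Nat.card_eq_fintype_card] at h4
  simp only [Fintype.card_fun, Fintype.card_bool, Fintype.card_fin] at h4
  omega

/-- the decoded vector -/
def spDec {N M : ℕ} (f : Fin M → Fin N × Fin (16 * N + 1)) (j : Fin N) : ℝ := by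
  classical
  exact if h : ∃ i, (f i).1 = j then ((((f (Classical.choose h)).2 : ℕ) : ℝ) - 8 * N) / (8 * N) else 0

/-- encoding -/
theorem sp_enc {N M : ℕ} (hN : 1 ≤ N) (x : Fin N → ℝ) (hx : ∀ j, |x j| ≤ 1) (j₀ : Fin N) (hj : |x j₀| = 1)
    (hM : {j | 1 / (8 * (N : ℝ)) < |x j|}.ncard ≤ M) :
    ∃ f : Fin M → Fin N × Fin (16 * N + 1), |spDec f j₀| = 1 ∧ ∀ j, |x j - spDec f j| ≤ 1 / (8 * (N : ℝ)) := by
  classical
  set S := {j | 1 / (8 * (N : ℝ)) < |x j|} with hS
  have hN' : (1:ℝ) ≤ N := by exact_mod_cast hN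
  have hj0 : j₀ ∈ S := by
    show 1 / (8 * (N : ℝ)) < |x j₀|
    rw [hj, div_lt_one (by linarith)]
    linarith
  have : Nonempty S := ⟨⟨j₀, hj0⟩⟩
  have hcard : Fintype.card S ≤ Fintype.card (Fin M) := by
    rw [Fintype.card_fin, ← Nat.card_eq_fintype_card]
    exact hM
  obtain ⟨e⟩ := Function.Embedding.nonempty_of_card_le hcard
  let g : Fin M → S := Function.invFun e
  have hg : Function.Surjective g := Function.invFun_surjective e.injective
  have hb : ∀ j, (0:ℤ) ≤ ⌊8 * (N:ℝ) * x j⌋ + 8 * N ∧ ⌊8 * (N:ℝ) * x j⌋ + 8 * N < 16 * N + 1 := by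
    intro j
    have h1 := abs_le.mp (hx j)
    constructor
    · have : -(8 * (N:ℤ)) ≤ ⌊8 * (N:ℝ) * x j⌋ := by
        rw [Int.le_floor]; push_cast; nlinarith [h1.1]
      omega
    · have : ⌊8 * (N:ℝ) * x j⌋ ≤ 8 * (N:ℤ) := by
        have h2 : (⌊8 * (N:ℝ) * x j⌋ : ℝ) ≤ 8 * (N:ℝ) * x j := Int.floor_le _
        have h3 : 8 * (N:ℝ) * x j ≤ 8 * N := by nlinarith [h1.2]
        have : (⌊8 * (N:ℝ) * x j⌋ : ℝ) ≤ ((8 * (N:ℤ) : ℤ) : ℝ) := by push_cast; linarith
        exact_mod_cast this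
      omega
  let f : Fin M → Fin N × Fin (16 * N + 1) := fun i =>
    ((g i : Fin N), ⟨(⌊8 * (N:ℝ) * x (g i)⌋ + 8 * N).toNat, by have := hb (g i); omega⟩)
  have hval : ∀ j, j ∈ S → spDec f j = (⌊8 * (N:ℝ) * x j⌋ : ℝ) / (8 * N) := by
    intro j hjS
    obtain ⟨i, hi⟩ := hg ⟨j, hjS⟩
    have hex : ∃ i, (f i).1 = j := ⟨i, by show (g i : Fin N) = j; rw [hi]⟩
    unfold spDec
    rw [dif_pos hex]
    have hch : (g (Classical.choose hex) : Fin N) = j := Classical.choose_spec hex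
    have h2 : (((f (Classical.choose hex)).2 : ℕ) : ℝ) = (⌊8 * (N:ℝ) * x j⌋ : ℝ) + 8 * N := by
      show (((⌊8 * (N:ℝ) * x (g (Classical.choose hex))⌋ + 8 * N).toNat : ℕ) : ℝ) = _
      rw [hch]
      have h3 : (((⌊8 * (N:ℝ) * x j⌋ + 8 * N).toNat : ℕ) : ℤ) = ⌊8 * (N:ℝ) * x j⌋ + 8 * N :=
        Int.toNat_of_nonneg (hb j).1
      exact_mod_cast h3
    rw [h2]; ring
  have hval0 : ∀ j, j ∉ S → spDec f j = 0 := by
    intro j hjS
    unfold spDec
    rw [dif_neg]
    rintro ⟨i, hi⟩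
    exact hjS (hi ▸ (g i).2)
  have h8 : (0:ℝ) < 8 * N := by linarith
  refine ⟨f, ?_, ?_⟩
  · rw [hval j₀ hj0]
    rcases (abs_eq (by norm_num : (0:ℝ) ≤ 1)).mp hj with h | h
    · rw [h]
      have : ⌊8 * (N:ℝ) * 1⌋ = ((8 * N : ℕ) : ℤ) := by
        rw [Int.floor_eq_iff]; push_cast; constructor <;> linarith
      rw [this]; push_cast
      rw [div_self h8.ne', abs_one]
    · rw [h]
      have : ⌊8 * (N:ℝ) * -1⌋ = -((8 * N : ℕ) : ℤ) := by
        rw [Int.floor_eq_iff]; push_cast; constructor <;> linarith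
      rw [this]; push_cast
      rw [neg_div, div_self h8.ne', abs_neg, abs_one]
  · intro j
    by_cases hjS : j ∈ S
    · rw [hval j hjS]
      have h1 := Int.floor_le (8 * (N:ℝ) * x j)
      have h2 := Int.lt_floor_add_one (8 * (N:ℝ) * x j)
      have h3 : x j - (⌊8 * (N:ℝ) * x j⌋ : ℝ) / (8 * N) = (8 * (N:ℝ) * x j - ⌊8 * (N:ℝ) * x j⌋) / (8 * N) := by
        field_simp
      rw [h3, abs_of_nonneg (div_nonneg (by linarith) h8.le)]
      apply div_le_div_of_nonneg_right _ h8.le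
      linarith
    · rw [hval0 j hjS, sub_zero]
      exact not_lt.mp hjS

theorem sp_val {a d : ℝ} (ha : |a| ≤ 1) (had : |a + d| ≤ 1) (β : Bool) : |val a d β| ≤ 1 := by
  cases β <;> simp [val, ha, had]

theorem sp : S_SP := by
  classical
  intro N m M a d hN ha had hd
  have hN' : (1:ℝ) ≤ N := by exact_mod_cast hN
  set W := {Z : Fin m → Fin N → Bool | ∃ x : Fin N → ℝ, (∃ j, |x j| = 1) ∧ (∀ j, |x j| ≤ 1) ∧
      {j | 1 / (8 * (N : ℝ)) < |x j|}.ncard ≤ M ∧ ∀ k, |∑ j, val a d (Z k j) * x j| ≤ 1 / 8} with hW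
  let G : (Fin N → ℝ) → Set (Fin N → Bool) := fun y => {z | |∑ j, val a d (z j) * y j| ≤ 1 / 4}
  let Bf : (Fin M → Fin N × Fin (16 * N + 1)) → Set (Fin m → Fin N → Bool) := fun f =>
    {Z | (∃ j₀, |spDec f j₀| = 1) ∧ ∀ k, Z k ∈ G (spDec f)}
  have hsub : W ⊆ ⋃ f, Bf f := by
    rintro Z ⟨x, ⟨j₀, hj⟩, hx, hM, hk⟩
    obtain ⟨f, hf1, hf2⟩ := sp_enc hN x hx j₀ hj hM
    refine Set.mem_iUnion.mpr ⟨f, ⟨j₀, hf1⟩, fun k => ?_⟩
    show |∑ j, val a d (Z k j) * spDec f j| ≤ 1 / 4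
    have h1 : ∑ j, val a d (Z k j) * spDec f j =
        ∑ j, val a d (Z k j) * x j - ∑ j, val a d (Z k j) * (x j - spDec f j) := by
      rw [← Finset.sum_sub_distrib]; apply Finset.sum_congr rfl; intro j _; ring
    have h2 : |∑ j, val a d (Z k j) * (x j - spDec f j)| ≤ 1 / 8 := by
      calc |∑ j, val a d (Z k j) * (x j - spDec f j)|
          ≤ ∑ j, |val a d (Z k j) * (x j - spDec f j)| := Finset.abs_sum_le_sum_abs _ _
        _ ≤ ∑ _j : Fin N, 1 / (8 * (N:ℝ)) := by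
            apply Finset.sum_le_sum; intro j _
            rw [abs_mul]
            calc |val a d (Z k j)| * |x j - spDec f j| ≤ 1 * (1 / (8 * (N:ℝ))) :=
                  mul_le_mul (sp_val ha had _) (hf2 j) (abs_nonneg _) zero_le_one
              _ = _ := one_mul _
        _ = 1 / 8 := by
            rw [Finset.sum_const, Finset.card_univ, Fintype.card_fin, nsmul_eq_mul]
            field_simp
    rw [h1]
    have h3 := abs_sub (∑ j, val a d (Z k j) * x j) (∑ j, val a d (Z k j) * (x j - spDec f j))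
    have h4 := hk k
    linarith
  have hBf : ∀ f, (Bf f).ncard * 2 ^ m ≤ 2 ^ (m * N) := by
    intro f
    by_cases hex : ∃ j₀, |spDec f j₀| = 1
    · obtain ⟨j₀, hj⟩ := hex
      have h1 : Bf f ⊆ Set.univ.pi (fun _ : Fin m => G (spDec f)) := by
        rintro Z ⟨_, hZ⟩ k _; exact hZ k
      have h2 : (Bf f).ncard ≤ (G (spDec f)).ncard ^ m := by
        refine (Set.ncard_le_ncard h1 (Set.toFinite _)).trans ?_
        have h3 : (Set.univ.pi (fun _ : Fin m => G (spDec f))) =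
            ((Fintype.piFinset fun _ : Fin m => (G (spDec f)).toFinset : Finset (Fin m → Fin N → Bool)) : Set _) := by
          ext Z; simp
        rw [h3, Set.ncard_coe_finset, Fintype.card_piFinset, Finset.prod_const, Finset.card_univ, Fintype.card_fin,
          Set.ncard_eq_toFinset_card']
      calc (Bf f).ncard * 2 ^ m ≤ (G (spDec f)).ncard ^ m * 2 ^ m := Nat.mul_le_mul_right _ h2
        _ = ((G (spDec f)).ncard * 2) ^ m := (mul_pow _ _ _).symm
        _ ≤ (2 ^ N) ^ m := Nat.pow_le_pow_left (sp_half a d hd _ j₀ hj) m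
        _ = 2 ^ (m * N) := by rw [← pow_mul, mul_comm]
    · have : Bf f = ∅ := by
        rw [Set.eq_empty_iff_forall_notMem]; rintro Z ⟨h, _⟩; exact hex h
      rw [this, Set.ncard_empty, Nat.zero_mul]; exact Nat.zero_le _
  have hcount : W.ncard ≤ ∑ f, (Bf f).ncard := by
    calc W.ncard ≤ (⋃ f, Bf f).ncard := Set.ncard_le_ncard hsub (Set.toFinite _)
      _ ≤ ∑ f, (Bf f).ncard := by
          have h1 : (⋃ f, Bf f) =
              ((Finset.univ.biUnion fun f => (Bf f).toFinset : Finset (Fin m → Fin N → Bool)) : Set _) := by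
            ext Z; simp
          rw [h1, Set.ncard_coe_finset]
          refine Finset.card_biUnion_le.trans (le_of_eq ?_)
          apply Finset.sum_congr rfl; intro f _
          rw [Set.ncard_eq_toFinset_card']
  calc W.ncard * 2 ^ m ≤ (∑ f, (Bf f).ncard) * 2 ^ m := Nat.mul_le_mul_right _ hcount
    _ = ∑ f, (Bf f).ncard * 2 ^ m := Finset.sum_mul _ _ _
    _ ≤ ∑ _f : Fin M → Fin N × Fin (16 * N + 1), 2 ^ (m * N) := Finset.sum_le_sum fun f _ => hBf f
    _ = (N * (16 * N + 1)) ^ M * 2 ^ (m * N) := by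
        rw [Finset.sum_const, Finset.card_univ, smul_eq_mul]
        simp [Fintype.card_fun, Fintype.card_prod]
    _ ≤ (17 * N ^ 2) ^ M * 2 ^ (m * N) := by
        apply Nat.mul_le_mul_right
        apply Nat.pow_le_pow_left
        nlinarith

end Pool.Agent.V5helper29.RLS
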