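import Pool.Agent.V5helper29.RLS.Stm

/-!
# Project RLS: job TC

The least singular value of a matrix with two values of the entries (counting).
-/

set_option autoImplicit false

open scoped Matrix

noncomputable section

namespace Pool.Agent.V5helper29.RLS

theorem tc_nrm_nonneg {n : ℕ} (v : Fin n → ℝ) : 0 ≤ nrm v := norm_nonneg _

theorem tc_nrm_smul {n : ℕ} (c : ℝ) (v : Fin n → ℝ) : nrm (c • v) = |c| * nrm v := by
  unfold nrm
  rw [WithLp.toLp_smul, norm_smul, Real.norm_eq_abs]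

theorem tc_nrm_sq {n : ℕ} (v : Fin n → ℝ) : nrm v ^ 2 = ∑ i, v i ^ 2 := by
  unfold nrm
  rw [EuclideanSpace.norm_sq_eq]
  simp

theorem tc_abs_le_nrm {n : ℕ} (v : Fin n → ℝ) (i : Fin n) : |v i| ≤ nrm v := by
  have h0 := tc_nrm_nonneg v
  have h1 : v i ^ 2 ≤ nrm v ^ 2 := by
    rw [tc_nrm_sq]
    exact Finset.single_le_sum (f := fun i => v i ^ 2) (fun i _ => sq_nonneg _) (Finset.mem_univ i)
  exact abs_le_of_sq_le_sq h1 h0

theorem tc_nrm_le {n : ℕ} (hn : 1 ≤ n) (v : Fin n → ℝ) (h : ∀ i, |v i| ≤ 1) : nrm v ≤ n := by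
  have h0 := tc_nrm_nonneg v
  have h1 : nrm v ^ 2 ≤ n := by
    rw [tc_nrm_sq]
    calc ∑ i, v i ^ 2 ≤ ∑ _i : Fin n, (1 : ℝ) := Finset.sum_le_sum (fun i _ => by
          have := h i
          rw [← sq_abs]
          nlinarith [abs_nonneg (v i)])
      _ = n := by simp
  have h2 : (1 : ℝ) ≤ n := by exact_mod_cast hn
  nlinarith

theorem tc_cs {n : ℕ} (x u : Fin n → ℝ) : |∑ j, x j * u j| ≤ nrm x * nrm u := by
  have h1 := Finset.sum_mul_sq_le_sq_mul_sq (Finset.univ : Finset (Fin n)) x u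
  rw [← tc_nrm_sq, ← tc_nrm_sq, ← mul_pow] at h1
  exact abs_le_of_sq_le_sq h1 (mul_nonneg (tc_nrm_nonneg _) (tc_nrm_nonneg _))

/-- the cardinality of a set as a sum -/
theorem tc_ncard_sum {γ : Type} [Fintype γ] (S : Set γ) [DecidablePred (· ∈ S)] :
    S.ncard = ∑ x : γ, if x ∈ S then 1 else 0 := by
  classical
  rw [Finset.sum_boole, Set.ncard_eq_toFinset_card']
  congr 1
  ext x
  simp

/-- the cardinality of a set as the sum of the cardinalities of its sections -/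
theorem tc_ncard_fib {α β γ : Type} [Fintype α] [Fintype β] [Fintype γ] (e : α × β ≃ γ) (S : Set γ) :
    S.ncard = ∑ z : β, {r : α | e (r, z) ∈ S}.ncard := by
  classical
  rw [tc_ncard_sum, ← Equiv.sum_comp e, Fintype.sum_prod_type_right]
  refine Finset.sum_congr rfl fun z _ => ?_
  rw [tc_ncard_sum]
  rfl

/-- Markov's inequality -/
theorem tc_markov {γ ι : Type} [Fintype γ] [Fintype ι] (F : ι → Set γ) (M : ℕ) :
    (M + 1) * {x : γ | M + 1 ≤ {i : ι | x ∈ F i}.ncard}.ncard ≤ ∑ i, (F i).ncard := by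
  classical
  have h1 : ∀ i, (F i).ncard = ∑ x : γ, if x ∈ F i then 1 else 0 := fun i => tc_ncard_sum _
  have h2 : ∑ i, (F i).ncard = ∑ x : γ, {i : ι | x ∈ F i}.ncard := by
    simp only [h1]
    rw [Finset.sum_comm]
    refine Finset.sum_congr rfl fun x _ => ?_
    rw [tc_ncard_sum]
    rfl
  rw [h2, tc_ncard_sum, Finset.mul_sum]
  refine Finset.sum_le_sum fun x _ => ?_
  split_ifs with h
  · simpa using h
  · simp

/-- the set of SP -/
def tcE (N m M : ℕ) (a d : ℝ) : Set (Fin m → Fin N → Bool) :=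
  {Z : Fin m → Fin N → Bool | ∃ x : Fin N → ℝ, (∃ j, |x j| = 1) ∧ (∀ j, |x j| ≤ 1) ∧
      {j | 1 / (8 * (N : ℝ)) < |x j|}.ncard ≤ M ∧ ∀ k, |∑ j, val a d (Z k j) * x j| ≤ 1 / 8}

/-- the matrix -/
def tcA (n : ℕ) (a d : ℝ) (ξ : Fin n → Fin n → Bool) : Matrix (Fin n) (Fin n) ℝ := fun i j => val a d (ξ i j)

/-- the set of (2) -/
def tcF (n : ℕ) (a d : ℝ) (i : Fin n) : Set (Fin n → Fin n → Bool) :=
  {ξ | ∃ y : Fin n → ℝ, y i = 1 ∧ nrm (y ᵥ* tcA n a d ξ) ≤ 1 / (32 * (n : ℝ) ^ 2)}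

/-- (1) and (2) -/
theorem tc_step12 (n M : ℕ) (a d : ℝ) (hn : 1 ≤ n) (ξ : Fin n → Fin n → Bool)
    (h : ¬ ∀ v : Fin n → ℝ, nrm v ≤ 256 * (n : ℝ) ^ 4 * nrm (v ᵥ* tcA n a d ξ)) :
    (fun j i => ξ i j) ∈ tcE n n M a d ∨ M + 1 ≤ {i : Fin n | ξ ∈ tcF n a d i}.ncard := by
  have hn' : (1 : ℝ) ≤ n := by exact_mod_cast hn
  push Not at h
  obtain ⟨v, hv⟩ := h
  have hne : (Finset.univ : Finset (Fin n)).Nonempty := ⟨⟨0, hn⟩, Finset.mem_univ _⟩
  obtain ⟨i₀, -, hi₀⟩ := Finset.exists_max_image Finset.univ (fun i => |v i|) hne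
  have hpos : 0 < nrm v := lt_of_le_of_lt (by positivity [tc_nrm_nonneg (v ᵥ* tcA n a d ξ)]) hv
  have hv0 : v i₀ ≠ 0 := by
    intro h0
    have : ∀ i, v i = 0 := fun i => by
      have := hi₀ i (Finset.mem_univ i)
      rw [h0, abs_zero] at this
      exact abs_eq_zero.mp (le_antisymm this (abs_nonneg _))
    have h1 := tc_nrm_sq v
    simp only [this] at h1
    simp at h1
    exact hpos.ne' h1
  set w : Fin n → ℝ := (v i₀)⁻¹ • v with hw
  have hwi : w i₀ = 1 := by simp [hw, hv0]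
  have hw1 : ∀ i, |w i| ≤ 1 := fun i => by
    have h1 : |w i| = |v i| / |v i₀| := by
      simp [hw, abs_mul, abs_inv, div_eq_inv_mul]
    rw [h1]
    exact div_le_one_of_le₀ (hi₀ i (Finset.mem_univ i)) (abs_nonneg _)
  have hwn : nrm w ≤ n := tc_nrm_le hn w hw1
  have hwA : nrm (w ᵥ* tcA n a d ξ) ≤ 1 / (256 * (n : ℝ) ^ 3) := by
    have h1 : nrm (w ᵥ* tcA n a d ξ) = |(v i₀)⁻¹| * nrm (v ᵥ* tcA n a d ξ) := by
      rw [hw, Matrix.smul_vecMul, tc_nrm_smul]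
    have h2 : nrm w = |(v i₀)⁻¹| * nrm v := by rw [hw, tc_nrm_smul]
    have h3 : 0 < |(v i₀)⁻¹| := abs_pos.mpr (inv_ne_zero hv0)
    have h4 : 256 * (n : ℝ) ^ 4 * nrm (w ᵥ* tcA n a d ξ) ≤ n := by
      rw [h1]
      calc 256 * (n : ℝ) ^ 4 * (|(v i₀)⁻¹| * nrm (v ᵥ* tcA n a d ξ))
          = |(v i₀)⁻¹| * (256 * (n : ℝ) ^ 4 * nrm (v ᵥ* tcA n a d ξ)) := by ring
        _ ≤ |(v i₀)⁻¹| * nrm v := mul_le_mul_of_nonneg_left hv.le h3.le
        _ = nrm w := h2.symm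
        _ ≤ n := hwn
    rw [le_div_iff₀ (by positivity)]
    have h5 : (n : ℝ) * (nrm (w ᵥ* tcA n a d ξ) * (256 * (n : ℝ) ^ 3)) ≤ (n : ℝ) * 1 := by
      calc (n : ℝ) * (nrm (w ᵥ* tcA n a d ξ) * (256 * (n : ℝ) ^ 3))
          = 256 * (n : ℝ) ^ 4 * nrm (w ᵥ* tcA n a d ξ) := by ring
        _ ≤ (n : ℝ) := h4
        _ = (n : ℝ) * 1 := (mul_one _).symm
    exact le_of_mul_le_mul_left h5 (by linarith)
  by_cases hM : {j | 1 / (8 * (n : ℝ)) < |w j|}.ncard ≤ M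
  · left
    refine ⟨w, ⟨i₀, by rw [hwi, abs_one]⟩, hw1, hM, fun k => ?_⟩
    have h1 : ∑ j, val a d (ξ j k) * w j = (w ᵥ* tcA n a d ξ) k := by
      simp only [Matrix.vecMul, dotProduct, tcA]
      exact Finset.sum_congr rfl fun j _ => mul_comm _ _
    show |∑ j, val a d (ξ j k) * w j| ≤ 1 / 8
    rw [h1]
    refine (tc_abs_le_nrm _ k).trans (hwA.trans ?_)
    apply one_div_le_one_div_of_le (by norm_num)
    have : (1 : ℝ) ≤ (n : ℝ) ^ 3 := one_le_pow₀ hn'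
    linarith
  · right
    push Not at hM
    refine (Nat.succ_le_of_lt hM).trans (Set.ncard_le_ncard ?_ (Set.toFinite _))
    intro i hi
    have hi' : 1 / (8 * (n : ℝ)) < |w i| := hi
    have hpos1 : 0 < 1 / (8 * (n : ℝ)) := by positivity
    have hwi0 : w i ≠ 0 := abs_pos.mp (hpos1.trans hi')
    refine ⟨(w i)⁻¹ • w, by simp [hwi0], ?_⟩
    rw [Matrix.smul_vecMul, tc_nrm_smul, abs_inv]
    have h1 : |w i|⁻¹ ≤ 8 * (n : ℝ) := by
      rw [inv_le_comm₀ (abs_pos.mpr hwi0) (by positivity)]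
      rw [one_div] at hi'
      exact hi'.le
    calc |w i|⁻¹ * nrm (w ᵥ* tcA n a d ξ) ≤ (8 * (n : ℝ)) * (1 / (256 * (n : ℝ) ^ 3)) :=
          mul_le_mul h1 hwA (tc_nrm_nonneg _) (by positivity)
      _ = 1 / (32 * (n : ℝ) ^ 2) := by
          field_simp
          norm_num

/-- the section of (3) -/
theorem tc_section (hORT : S_ORT) (hLO : S_LO) (m M : ℕ) (a d : ℝ) (hd : 1 ≤ d) (i : Fin (m + 1))
    (z : Fin m → Fin (m + 1) → Bool) (hz : z ∉ tcE (m + 1) m M a d) :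
    {r : Fin (m + 1) → Bool | i.insertNth (α := fun _ => Fin (m + 1) → Bool) r z ∈ tcF (m + 1) a d i}.ncard *
      2 ^ (M + 1) ≤ (M + 1).choose ((M + 1) / 2) * 2 ^ (m + 1) := by
  obtain ⟨u, hu1, hu2, hu3⟩ := hORT m (fun k j => val a d (z k j))
  have hM : M + 1 ≤ {j | 1 / (8 * ((m + 1 : ℕ) : ℝ)) < |u j|}.ncard := by
    by_contra hcon
    push Not at hcon
    apply hz
    refine ⟨u, hu1, hu2, Nat.le_of_lt_succ hcon, fun k => ?_⟩
    rw [hu3 k, abs_zero]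
    norm_num
  obtain ⟨J, hJ, hJc⟩ := Set.exists_subset_card_eq hM
  have hJf : J.Finite := Set.toFinite J
  have hcard : hJf.toFinset.card = M + 1 := by
    rw [← Set.ncard_eq_toFinset_card J hJf, hJc]
  have hn : (0 : ℝ) < ((m + 1 : ℕ) : ℝ) := by positivity
  have hlo := hLO (m + 1) u hJf.toFinset (1 / (8 * ((m + 1 : ℕ) : ℝ))) a d 0 (by positivity) hd
    (fun j hj => by
      have : j ∈ {j | 1 / (8 * ((m + 1 : ℕ) : ℝ)) < |u j|} := hJ (hJf.mem_toFinset.mp hj)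
      exact le_of_lt this)
  rw [hcard] at hlo
  refine le_trans (Nat.mul_le_mul_right _ (Set.ncard_le_ncard ?_ (Set.toFinite _))) hlo
  rintro r ⟨y, hy1, hy2⟩
  show |∑ j, val a d (r j) * u j - 0| ≤ 1 / (8 * ((m + 1 : ℕ) : ℝ)) / 4
  set ξ : Fin (m + 1) → Fin (m + 1) → Bool := i.insertNth (α := fun _ => Fin (m + 1) → Bool) r z with hξ
  have h1 : ∑ j, (y ᵥ* tcA (m + 1) a d ξ) j * u j = ∑ j, val a d (r j) * u j := by
    have h2 : ∑ j, (y ᵥ* tcA (m + 1) a d ξ) j * u j = ∑ l, y l * ∑ j, val a d (ξ l j) * u j := by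
      simp only [Matrix.vecMul, dotProduct, tcA, Finset.sum_mul, Finset.mul_sum]
      rw [Finset.sum_comm]
      exact Finset.sum_congr rfl fun l _ => Finset.sum_congr rfl fun j _ => by ring
    rw [h2, Fin.sum_univ_succAbove _ i, hy1]
    have h3 : ξ i = r := by rw [hξ, Fin.insertNth_apply_same]
    have h4 : ∀ k, ξ (i.succAbove k) = z k := fun k => by rw [hξ, Fin.insertNth_apply_succAbove]
    simp only [h3, h4, hu3, mul_zero, Finset.sum_const_zero, add_zero, one_mul]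
  rw [← h1, sub_zero]
  refine (tc_cs _ _).trans ?_
  calc nrm (y ᵥ* tcA (m + 1) a d ξ) * nrm u ≤ 1 / (32 * ((m + 1 : ℕ) : ℝ) ^ 2) * ((m + 1 : ℕ) : ℝ) :=
        mul_le_mul hy2 (tc_nrm_le (Nat.succ_le_succ (Nat.zero_le m)) u hu2) (tc_nrm_nonneg _) (by positivity)
    _ = 1 / (8 * ((m + 1 : ℕ) : ℝ)) / 4 := by
        field_simp
        norm_num

theorem tc_F (hORT : S_ORT) (hLO : S_LO) (m M : ℕ) (a d : ℝ) (hd : 1 ≤ d) (i : Fin (m + 1)) :
    (((tcF (m + 1) a d i).ncard : ℕ) : ℝ) ≤ ((tcE (m + 1) m M a d).ncard : ℕ) * 2 ^ (m + 1) +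
      2 ^ (m * (m + 1)) * ((((M + 1).choose ((M + 1) / 2) : ℕ) : ℝ) * 2 ^ (m + 1) / 2 ^ (M + 1)) := by
  classical
  have h0 := tc_ncard_fib (Fin.insertNthEquiv (fun _ => Fin (m + 1) → Bool) i) (tcF (m + 1) a d i)
  rw [h0]
  push_cast
  have h1 : ∀ z : Fin m → Fin (m + 1) → Bool,
      (({r : Fin (m + 1) → Bool | (Fin.insertNthEquiv (fun _ => Fin (m + 1) → Bool) i) (r, z) ∈
        tcF (m + 1) a d i}.ncard : ℕ) : ℝ) ≤ (if z ∈ tcE (m + 1) m M a d then 1 else 0) * 2 ^ (m + 1) +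
        (((M + 1).choose ((M + 1) / 2) : ℕ) : ℝ) * 2 ^ (m + 1) / 2 ^ (M + 1) := by
    intro z
    split_ifs with hz
    · have h2 : {r : Fin (m + 1) → Bool | (Fin.insertNthEquiv (fun _ => Fin (m + 1) → Bool) i) (r, z) ∈
        tcF (m + 1) a d i}.ncard ≤ 2 ^ (m + 1) := by
        refine (Set.ncard_le_ncard (Set.subset_univ _) (Set.toFinite _)).trans ?_
        rw [Set.ncard_univ]
        simp
      have h3 : (({r : Fin (m + 1) → Bool | (Fin.insertNthEquiv (fun _ => Fin (m + 1) → Bool) i) (r, z) ∈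
        tcF (m + 1) a d i}.ncard : ℕ) : ℝ) ≤ 2 ^ (m + 1) := by exact_mod_cast h2
      have h4 : 0 ≤ (((M + 1).choose ((M + 1) / 2) : ℕ) : ℝ) * 2 ^ (m + 1) / 2 ^ (M + 1) := by positivity
      linarith
    · have h2 := tc_section hORT hLO m M a d hd i z hz
      have h3 : (({r : Fin (m + 1) → Bool | (Fin.insertNthEquiv (fun _ => Fin (m + 1) → Bool) i) (r, z) ∈
        tcF (m + 1) a d i}.ncard : ℕ) : ℝ) * 2 ^ (M + 1) ≤
          (((M + 1).choose ((M + 1) / 2) : ℕ) : ℝ) * 2 ^ (m + 1) := by exact_mod_cast h2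
      rw [zero_mul, zero_add, le_div_iff₀ (by positivity)]
      exact h3
  refine (Finset.sum_le_sum fun z _ => h1 z).trans ?_
  rw [Finset.sum_add_distrib, ← Finset.sum_mul, Finset.sum_const]
  have h5 : ((tcE (m + 1) m M a d).ncard : ℝ) = ∑ z, (if z ∈ tcE (m + 1) m M a d then (1 : ℝ) else 0) := by
    rw [tc_ncard_sum]
    push_cast
    rfl
  rw [h5]
  have h6 : ((Finset.univ : Finset (Fin m → Fin (m + 1) → Bool)).card : ℝ) = 2 ^ (m * (m + 1)) := by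
    simp [Finset.card_univ, ← pow_mul, mul_comm]
  rw [nsmul_eq_mul, h6]

theorem tc : S_ORT → S_LO → S_SP → S_TC := by
  intro hORT hLO hSP a d n M hn ha had hd
  obtain ⟨m, rfl⟩ : ∃ m, n = m + 1 := ⟨n - 1, by omega⟩
  have hsub : {ξ : Fin (m + 1) → Fin (m + 1) → Bool | ¬ ∀ v : Fin (m + 1) → ℝ, nrm v ≤
      256 * ((m + 1 : ℕ) : ℝ) ^ 4 * nrm (v ᵥ* (fun i j => val a d (ξ i j) : Matrix (Fin (m + 1)) (Fin (m + 1)) ℝ))} ⊆
      {ξ | (fun j i => ξ i j) ∈ tcE (m + 1) (m + 1) M a d} ∪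
      {ξ | M + 1 ≤ {i : Fin (m + 1) | ξ ∈ tcF (m + 1) a d i}.ncard} := by
    intro ξ hξ
    exact tc_step12 (m + 1) M a d hn ξ hξ
  have hE0 : ({ξ : Fin (m + 1) → Fin (m + 1) → Bool | (fun j i => ξ i j) ∈ tcE (m + 1) (m + 1) M a d}).ncard =
      (tcE (m + 1) (m + 1) M a d).ncard := by
    have hinv : Function.Involutive (fun (ξ : Fin (m + 1) → Fin (m + 1) → Bool) => fun j i => ξ i j) :=
      fun ξ => rfl
    have : {ξ : Fin (m + 1) → Fin (m + 1) → Bool | (fun j i => ξ i j) ∈ tcE (m + 1) (m + 1) M a d} =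
        (fun (ξ : Fin (m + 1) → Fin (m + 1) → Bool) => fun j i => ξ i j) '' tcE (m + 1) (m + 1) M a d := by
      ext ξ
      constructor
      · intro h
        exact ⟨_, h, rfl⟩
      · rintro ⟨ξ', h, rfl⟩
        exact h
    rw [this, Set.ncard_image_of_injective _ hinv.injective]
  set Q : ℝ := (17 * ((m + 1 : ℕ) : ℝ) ^ 2) ^ M with hQ
  set C : ℝ := (((M + 1).choose ((M + 1) / 2) : ℕ) : ℝ) with hC
  have hsp1 : ((tcE (m + 1) (m + 1) M a d).ncard : ℝ) ≤ Q * 2 ^ ((m + 1) * (m + 1)) / 2 ^ (m + 1) := by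
    have h1 : (tcE (m + 1) (m + 1) M a d).ncard * 2 ^ (m + 1) ≤
        (17 * (m + 1) ^ 2) ^ M * 2 ^ ((m + 1) * (m + 1)) := hSP (m + 1) (m + 1) M a d hn ha had hd
    rw [le_div_iff₀ (by positivity), hQ]
    exact_mod_cast h1
  have hsp2 : ((tcE (m + 1) m M a d).ncard : ℝ) ≤ Q * 2 ^ (m * (m + 1)) / 2 ^ m := by
    have h1 : (tcE (m + 1) m M a d).ncard * 2 ^ m ≤
        (17 * (m + 1) ^ 2) ^ M * 2 ^ (m * (m + 1)) := hSP (m + 1) m M a d hn ha had hd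
    rw [le_div_iff₀ (by positivity), hQ]
    exact_mod_cast h1
  have hmk := tc_markov (fun i => tcF (m + 1) a d i) M
  have hmk' : ((M : ℝ) + 1) * (({ξ : Fin (m + 1) → Fin (m + 1) → Bool | M + 1 ≤
      {i : Fin (m + 1) | ξ ∈ tcF (m + 1) a d i}.ncard}.ncard : ℕ) : ℝ) ≤
      ∑ i, (((tcF (m + 1) a d i).ncard : ℕ) : ℝ) := by exact_mod_cast hmk
  have hF : ∀ i, (((tcF (m + 1) a d i).ncard : ℕ) : ℝ) ≤
      2 ^ ((m + 1) * (m + 1)) * (Q / 2 ^ m + C / 2 ^ (M + 1)) := by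
    intro i
    refine (tc_F hORT hLO m M a d hd i).trans ?_
    have hpow : (2 : ℝ) ^ ((m + 1) * (m + 1)) = 2 ^ (m * (m + 1)) * 2 ^ (m + 1) := by
      rw [← pow_add]
      congr 1
      ring
    rw [hpow]
    have h1 : ((tcE (m + 1) m M a d).ncard : ℝ) * 2 ^ (m + 1) ≤ Q * 2 ^ (m * (m + 1)) / 2 ^ m * 2 ^ (m + 1) :=
      mul_le_mul_of_nonneg_right hsp2 (by positivity)
    refine (add_le_add_left h1 _).trans (le_of_eq ?_)
    rw [← hC]
    ring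
  have hsum : ∑ i : Fin (m + 1), (((tcF (m + 1) a d i).ncard : ℕ) : ℝ) ≤
      ((m + 1 : ℕ) : ℝ) * (2 ^ ((m + 1) * (m + 1)) * (Q / 2 ^ m + C / 2 ^ (M + 1))) := by
    refine (Finset.sum_le_sum fun i _ => hF i).trans (le_of_eq ?_)
    simp
  have hM0 : (0 : ℝ) < (M : ℝ) + 1 := by positivity
  have h2 : (({ξ : Fin (m + 1) → Fin (m + 1) → Bool | M + 1 ≤
      {i : Fin (m + 1) | ξ ∈ tcF (m + 1) a d i}.ncard}.ncard : ℕ) : ℝ) ≤
      ((m + 1 : ℕ) : ℝ) * (2 ^ ((m + 1) * (m + 1)) * (Q / 2 ^ m + C / 2 ^ (M + 1))) / ((M : ℝ) + 1) := by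
    rw [le_div_iff₀ hM0, mul_comm]
    exact hmk'.trans hsum
  have h3 := (Set.ncard_le_ncard hsub (Set.toFinite _)).trans (Set.ncard_union_le _ _)
  rw [hE0] at h3
  have h4 : (({ξ : Fin (m + 1) → Fin (m + 1) → Bool | ¬ ∀ v : Fin (m + 1) → ℝ, nrm v ≤
      256 * ((m + 1 : ℕ) : ℝ) ^ 4 * nrm (v ᵥ* (fun i j => val a d (ξ i j) :
        Matrix (Fin (m + 1)) (Fin (m + 1)) ℝ))}.ncard : ℕ) : ℝ) ≤
      Q * 2 ^ ((m + 1) * (m + 1)) / 2 ^ (m + 1) +
      ((m + 1 : ℕ) : ℝ) * (2 ^ ((m + 1) * (m + 1)) * (Q / 2 ^ m + C / 2 ^ (M + 1))) / ((M : ℝ) + 1) := by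
    refine le_trans ?_ (add_le_add hsp1 h2)
    exact_mod_cast h3
  rw [div_le_iff₀ (by positivity)]
  refine h4.trans (le_of_eq ?_)
  unfold tcb
  rw [← hQ, ← hC]
  have hm : m + 1 - 1 = m := rfl
  rw [hm]
  field_simp

end Pool.Agent.V5helper29.RLS
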