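import Mathlib
import Pool.Agent.V5helper29.RLS.Stm

set_option autoImplicit false

open MeasureTheory ProbabilityTheory Filter Topology
open scoped Matrix ENNReal

noncomputable section

namespace Pool.Agent.V5helper29.RLS

theorem abs_val_le {a d : ℝ} (ha : |a| ≤ 1) (had : |a + d| ≤ 1) (β : Bool) : |val a d β| ≤ 1 := by
  unfold val
  split_ifs
  · exact had
  · exact ha

/-- TWO -/
theorem two_good : S_TC → S_ASY → S_TR → S_CLO → S_TWO := by
  intro hTC hASY hTR hCLO a d ha had hd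
  -- the number of bad sign patterns
  set b : ℕ → ℕ := fun n => {ξ : Fin n → Fin n → Bool | ¬ Good n (fun i j => val a d (ξ i j))}.ncard
    with hb
  have hcount : ∀ n : ℕ, {ξ : Fin n → Fin n → Bool | Good n (fun i j => val a d (ξ i j))}.ncard + b n =
      2 ^ (n * n) := by
    intro n
    have h1 := Set.ncard_add_ncard_compl {ξ : Fin n → Fin n → Bool | Good n (fun i j => val a d (ξ i j))}
    have h2 : Nat.card (Fin n → Fin n → Bool) = 2 ^ (n * n) := by
      simp [Nat.card_eq_fintype_card, pow_mul]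
    rw [h2] at h1
    exact h1
  have hle : ∀ᶠ n : ℕ in atTop, (b n : ℝ) / 2 ^ (n * n) ≤ tcb n ⌊(n : ℝ) ^ (3 / 4 : ℝ)⌋₊ := by
    filter_upwards [eventually_ge_atTop 4] with n hn
    refine le_trans ?_ (hTC a d n _ (by omega) ha had hd)
    have hn4 : (4 : ℝ) ≤ n := by exact_mod_cast hn
    apply div_le_div_of_nonneg_right _ (by positivity)
    have hsub : {ξ : Fin n → Fin n → Bool | ¬ Good n (fun i j => val a d (ξ i j))} ⊆
        {ξ : Fin n → Fin n → Bool | ¬ ∀ v : Fin n → ℝ, nrm v ≤ 256 * (n : ℝ) ^ 4 *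
          nrm (v ᵥ* (fun i j => val a d (ξ i j) : Matrix (Fin n) (Fin n) ℝ))} := by
      intro ξ hξ hcon
      apply hξ
      refine ⟨fun i j => ?_, fun v => ?_⟩
      · exact (abs_val_le ha had _).trans (by nlinarith)
      · refine (hcon v).trans ?_
        apply mul_le_mul_of_nonneg_right _ (norm_nonneg _)
        have h4 : (256 : ℝ) ≤ (n : ℝ) ^ 4 := by
          calc (256 : ℝ) = 4 ^ 4 := by norm_num
            _ ≤ (n : ℝ) ^ 4 := pow_le_pow_left₀ (by norm_num) hn4 4
        calc 256 * (n : ℝ) ^ 4 ≤ (n : ℝ) ^ 4 * (n : ℝ) ^ 4 :=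
              mul_le_mul_of_nonneg_right h4 (by positivity)
          _ = (n : ℝ) ^ 8 := by ring
    exact_mod_cast Set.ncard_le_ncard hsub (Set.toFinite _)
  have hlim : Tendsto (fun n : ℕ => (b n : ℝ) / 2 ^ (n * n)) atTop (𝓝 0) :=
    squeeze_zero' (Eventually.of_forall fun n => by positivity) hle hASY
  have hlim2 : Tendsto (fun n : ℕ => ENNReal.ofReal (1 - (b n : ℝ) / 2 ^ (n * n))) atTop (𝓝 1) := by
    have h := ENNReal.tendsto_ofReal (hlim.const_sub 1)
    simpa using h
  refine hlim2.congr fun n => ?_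
  rw [hTR a d n _ (hCLO n).measurableSet]
  have h1 : (1 : ℝ) - (b n : ℝ) / 2 ^ (n * n) =
      (({ξ : Fin n → Fin n → Bool | Good n (fun i j => val a d (ξ i j))}.ncard : ℕ) : ℝ) / 2 ^ (n * n) := by
    have h2 : (({ξ : Fin n → Fin n → Bool | Good n (fun i j => val a d (ξ i j))}.ncard : ℕ) : ℝ) + b n =
        2 ^ (n * n) := by exact_mod_cast hcount n
    have h3 : (2 : ℝ) ^ (n * n) ≠ 0 := by positivity
    field_simp
    linarith
  rw [h1, ENNReal.ofReal_div_of_pos (by positivity), ENNReal.ofReal_natCast,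
    ENNReal.ofReal_pow (by norm_num), ENNReal.ofReal_ofNat]
  rfl

end Pool.Agent.V5helper29.RLS
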