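import Pool.Agent.V5helper29.RLS.PC

/-!
# Project RLS: the algorithm and its cost
-/

set_option autoImplicit false

noncomputable section

namespace Pool.Agent.V5helper29.RLS

/-! ### Lists -/

/-- one step of the reversal of a list -/
def revStep {β : Type} (s : List β × List β) : List β × List β := caseList s.1 s fun a t => (t, a :: s.2)

/-- the reversal of a list with `n` elements -/
def rev {β : Type} (n : ℕ) (l : List β) : List β := (revStep^[n] (l, [])).2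

/-- one step of `mapN` -/
def mapStep {α β : Type} (f : α → β) (s : List α × List β) : List α × List β :=
  caseList s.1 s fun a t => (t, f a :: s.2)

/-- apply `f` to the elements of a list with `n` elements -/
def mapN {α β : Type} (n : ℕ) (f : α → β) (l : List α) : List β := rev n ((mapStep f)^[n] (l, [])).2

/-- one step of `zipN` -/
def zipStep {α β γ : Type} (f : α → β → γ) (s : List α × List β × List γ) : List α × List β × List γ :=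
  caseList s.1 s fun a u => caseList s.2.1 s fun b v => (u, v, f a b :: s.2.2)

/-- apply `f` to the elements of two lists with `n` elements -/
def zipN {α β γ : Type} (n : ℕ) (f : α → β → γ) (u : List α) (v : List β) : List γ :=
  rev n ((zipStep f)^[n] (u, v, [])).2.2

/-- one step of `dot` -/
def dotStep (s : List ℝ × List ℝ × ℝ) : List ℝ × List ℝ × ℝ :=
  caseList s.1 s fun a u => caseList s.2.1 s fun b v => (u, v, s.2.2 + a * b)

/-- the scalar product of two lists with `n` elements -/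
def dot (n : ℕ) (u v : List ℝ) : ℝ := (dotStep^[n] (u, v, 0)).2.2

/-- one step of `pack` -/
def packStep (M : ℝ) (s : List ℝ × ℝ × ℝ) : List ℝ × ℝ × ℝ :=
  caseList s.1 s fun c t => (t, s.2.1 + c * s.2.2, s.2.2 * M)

/-- the number with the digits `row` in base `M`, least significant first -/
def pack (n : ℕ) (M : ℝ) (row : List ℝ) : ℝ := ((packStep M)^[n] (row, 0, 1)).2.1

/-- one step of the search for the binary digits of a number -/
def bit (s : ℝ × ℝ × ℝ) : ℝ × ℝ × ℝ :=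
  if 0 ≤ s.1 - s.2.1 then (s.1 - s.2.1, s.2.1 / 2, 2 * s.2.2 + 1) else (s.1, s.2.1 / 2, 2 * s.2.2)

/-- read off one digit in base `2 ^ (9 k + 1)`: the top `5 k + 1` bits give the result, the other `4 k` are dropped -/
def unpackStep (k : ℕ) (H : ℝ) (s : ℝ × ℝ × List ℝ) : ℝ × ℝ × List ℝ :=
  ((bit^[4 * k + 0] ((bit^[5 * k + 1] (s.1, s.2.1, 0)).1, (bit^[5 * k + 1] (s.1, s.2.1, 0)).2.1, 0)).1,
    (bit^[4 * k + 0] ((bit^[5 * k + 1] (s.1, s.2.1, 0)).1, (bit^[5 * k + 1] (s.1, s.2.1, 0)).2.1, 0)).2.1,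
    ((bit^[5 * k + 1] (s.1, s.2.1, 0)).2.2 - H) :: s.2.2)

/-- the list of the rounded digits -/
def unpack (n k : ℕ) (H τ y : ℝ) : List ℝ := ((unpackStep k H)^[n] (y, τ, [])).2.2

/-- The parameters `M = 2 ^ (9 k + 1)`, `P = 2 ^ (4 k)`, `H = 2 ^ (5 k)`, `τ = M ^ n / 2`,
`Z = ∑ 2 ^ (9 k) M ^ j`. -/
abbrev Par := ℝ × ℝ × ℝ × ℝ × ℝ

/-- the product of the matrices `X` and `Y`, divided by `2 ^ (4 k)` and rounded down; first the rows of `Y` are packed -/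
def mmB (n k : ℕ) (π : Par) (X : List (List ℝ)) (β : List ℝ) : List (List ℝ) :=
  mapN n (fun row => unpack n k π.2.2.1 π.2.2.2.1 (dot n row β + π.2.2.2.2)) X

/-- the product of the matrices `X` and `Y`, divided by `2 ^ (4 k)` and rounded down -/
def mm (n k : ℕ) (π : Par) (X Y : List (List ℝ)) : List (List ℝ) := mmB n k π X (mapN n (pack n π.1) Y)

/-- the list with `n` empty lists -/
def nils (n : ℕ) : List (List ℝ) := (fun l => [] :: l)^[n] []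

/-- one step of `transp` -/
def trStep (n : ℕ) (s : List (List ℝ) × List (List ℝ)) : List (List ℝ) × List (List ℝ) :=
  caseList s.1 s fun r t => (t, zipN n (fun a c => a :: c) r s.2)

/-- the transposed matrix -/
def transp (n : ℕ) (X : List (List ℝ)) : List (List ℝ) := ((trStep n)^[n] (rev n X, nils n)).2

/-- one step of Newton's iteration -/
def stepX (n k : ℕ) (π : Par) (B X : List (List ℝ)) : List (List ℝ) :=
  zipN n (fun u v => zipN n (fun x y => x + x - y) u v) X (mm n k π X (mm n k π B X))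

/-- the rounding of a number -/
def rndE (k : ℕ) (P D x : ℝ) : ℝ := (bit^[4 * k + 1] (P * (x / D) + P, P, 0)).2.2 - P

/-- the rounding of a matrix -/
def rndL (n k : ℕ) (P D : ℝ) (A : List (List ℝ)) : List (List ℝ) := mapN n (fun row => mapN n (rndE k P D) row) A

/-- `2 ^ (c k + d)` -/
def pw (k c d : ℕ) : ℝ := (fun x : ℝ => x + x)^[c * k + d] 1

/-- the parameters -/
def par (n k : ℕ) : Par :=
  (pw k 9 1, pw k 4 0, pw k 5 0, (fun x => x * pw k 9 1)^[n] (1 / 2),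
    ((fun s : ℝ × ℝ => (s.1 + pw k 9 0 * s.2, s.2 * pw k 9 1))^[n] (0, 1)).1)

/-- the iteration and the output -/
def fin (n k : ℕ) (π : Par) (D : ℝ) (b : List ℝ) (B : List (List ℝ)) : List ℝ :=
  mapN n (fun row => dot n row b / (π.2.1 * D)) ((stepX n k π B)^[1 * k + 0] (transp n B))

/-- the main part: `k` is the number of the iterations; `D = 2 n ^ 3` -/
def main (n k : ℕ) (D : ℝ) (A : List (List ℝ)) (b : List ℝ) : List ℝ :=
  fin n k (par n k) D b (rndL n k (par n k).2.1 D A)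

/-! ### Cost -/

namespace PC

variable {α β γ ε δ : Type} {i j : ℕ}

theorem revS {e l : (ℕ × ℕ) × γ → List β} (he : PC i j e) (hl : PC i j l) :
    PC i j (fun p => revStep (e p, l p)) :=
  PC.caseL (f := e) (g := fun p => (e p, l p)) (h := fun q : (ℕ × ℕ) × (γ × β × List β) => (q.2.2.2, q.2.2.1 :: l (q.1, q.2.1)))
    he (he.pair hl) (arg.snd.snd.pair (arg.snd.fst.cons (comp arg.fst hl)))

theorem rev' {l : (ℕ × ℕ) × γ → List β} (hl : PC (i + 1) j l) : PC (i + 1) j (fun p => rev p.1.1 (l p)) := by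
  have h : PC i j (fun q : (ℕ × ℕ) × (ℝ × (List β × List β)) => revStep q.2.2) :=
    revS (e := fun q : (ℕ × ℕ) × (ℝ × (List β × List β)) => q.2.2.1) (l := fun q => q.2.2.2) arg.snd.fst arg.snd.snd
  exact (loopN (e := fun _ => (1 : ℝ)) h one (hl.pair nil)).snd

theorem mapN' {f : (ℕ × ℕ) × (ε × α) → β} {e : (ℕ × ℕ) × γ → ε} {l : (ℕ × ℕ) × γ → List α} (hf : PC i j f)
    (he : PC (i + 1) j e) (hl : PC (i + 1) j l) :
    PC (i + 1) j (fun p => mapN p.1.1 (fun a => f (p.1, (e p, a))) (l p)) := by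
  have h : PC i j (fun q : (ℕ × ℕ) × (ε × (List α × List β)) => caseList q.2.2.1 q.2.2
      (fun a t => (t, f (q.1, (q.2.1, a)) :: q.2.2.2))) :=
    PC.caseL (f := fun q : (ℕ × ℕ) × (ε × (List α × List β)) => q.2.2.1) (g := fun q => q.2.2)
      (h := fun r : (ℕ × ℕ) × ((ε × (List α × List β)) × α × List α) =>
        (r.2.2.2, f (r.1, (r.2.1.1, r.2.2.1)) :: r.2.1.2.2)) arg.snd.fst arg.snd
      (arg.snd.snd.pair ((comp (arg.fst.fst.pair arg.snd.fst) hf).cons arg.fst.snd.snd))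
  exact rev' (loopN h he (hl.pair nil)).snd

theorem zipN' {f : (ℕ × ℕ) × (ε × α × β) → δ} {e : (ℕ × ℕ) × γ → ε} {u : (ℕ × ℕ) × γ → List α}
    {v : (ℕ × ℕ) × γ → List β} (hf : PC i j f) (he : PC (i + 1) j e) (hu : PC (i + 1) j u) (hv : PC (i + 1) j v) :
    PC (i + 1) j (fun p => zipN p.1.1 (fun a b => f (p.1, (e p, a, b))) (u p) (v p)) := by
  have h : PC i j (fun q : (ℕ × ℕ) × (ε × (List α × List β × List δ)) => caseList q.2.2.1 q.2.2
      (fun a u => caseList q.2.2.2.1 q.2.2 (fun b v => (u, v, f (q.1, (q.2.1, a, b)) :: q.2.2.2.2)))) :=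
    PC.caseL (f := fun q : (ℕ × ℕ) × (ε × (List α × List β × List δ)) => q.2.2.1) (g := fun q => q.2.2)
      (h := fun r : (ℕ × ℕ) × ((ε × (List α × List β × List δ)) × α × List α) =>
        caseList r.2.1.2.2.1 r.2.1.2 (fun b v => (r.2.2.2, v, f (r.1, (r.2.1.1, r.2.2.1, b)) :: r.2.1.2.2.2)))
      arg.snd.fst arg.snd
      (PC.caseL (f := fun r : (ℕ × ℕ) × ((ε × (List α × List β × List δ)) × α × List α) => r.2.1.2.2.1)
        (g := fun r => r.2.1.2)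
        (h := fun t : (ℕ × ℕ) × (((ε × (List α × List β × List δ)) × α × List α) × β × List β) =>
          (t.2.1.2.2, t.2.2.2, f (t.1, (t.2.1.1.1, t.2.1.2.1, t.2.2.1)) :: t.2.1.1.2.2.2))
        arg.fst.snd.snd.fst arg.fst.snd
        (arg.fst.snd.snd.pair (arg.snd.snd.pair
          ((comp (arg.fst.fst.fst.pair (arg.fst.snd.fst.pair arg.snd.fst)) hf).cons arg.fst.fst.snd.snd.snd))))
  exact rev' (loopN h he (hu.pair (hv.pair nil))).snd.snd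

theorem dot' {u v : (ℕ × ℕ) × γ → List ℝ} (hu : PC (i + 1) j u) (hv : PC (i + 1) j v) :
    PC (i + 1) j (fun p => dot p.1.1 (u p) (v p)) := by
  have h : PC i j (fun q : (ℕ × ℕ) × (ℝ × (List ℝ × List ℝ × ℝ)) => dotStep q.2.2) :=
    PC.caseL (f := fun q : (ℕ × ℕ) × (ℝ × (List ℝ × List ℝ × ℝ)) => q.2.2.1) (g := fun q => q.2.2)
      (h := fun r : (ℕ × ℕ) × ((ℝ × (List ℝ × List ℝ × ℝ)) × ℝ × List ℝ) =>
        caseList r.2.1.2.2.1 r.2.1.2 (fun b v => (r.2.2.2, v, r.2.1.2.2.2 + r.2.2.1 * b)))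
      arg.snd.fst arg.snd
      (PC.caseL (f := fun r : (ℕ × ℕ) × ((ℝ × (List ℝ × List ℝ × ℝ)) × ℝ × List ℝ) => r.2.1.2.2.1)
        (g := fun r => r.2.1.2)
        (h := fun t : (ℕ × ℕ) × (((ℝ × (List ℝ × List ℝ × ℝ)) × ℝ × List ℝ) × ℝ × List ℝ) =>
          (t.2.1.2.2, t.2.2.2, t.2.1.1.2.2.2 + t.2.1.2.1 * t.2.2.1))
        arg.fst.snd.snd.fst arg.fst.snd
        (arg.fst.snd.snd.pair (arg.snd.snd.pair
          (arg.fst.fst.snd.snd.snd.add (arg.fst.snd.fst.mul arg.snd.fst)))))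
  exact (loopN (e := fun _ => (1 : ℝ)) h one (hu.pair (hv.pair zero))).snd.snd

theorem pack' {M : (ℕ × ℕ) × γ → ℝ} {l : (ℕ × ℕ) × γ → List ℝ} (hM : PC (i + 1) j M) (hl : PC (i + 1) j l) :
    PC (i + 1) j (fun p => pack p.1.1 (M p) (l p)) := by
  have h : PC i j (fun q : (ℕ × ℕ) × (ℝ × (List ℝ × ℝ × ℝ)) => packStep q.2.1 q.2.2) :=
    PC.caseL (f := fun q : (ℕ × ℕ) × (ℝ × (List ℝ × ℝ × ℝ)) => q.2.2.1) (g := fun q => q.2.2)
      (h := fun r : (ℕ × ℕ) × ((ℝ × (List ℝ × ℝ × ℝ)) × ℝ × List ℝ) =>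
        (r.2.2.2, r.2.1.2.2.1 + r.2.2.1 * r.2.1.2.2.2, r.2.1.2.2.2 * r.2.1.1))
      arg.snd.fst arg.snd
      (arg.snd.snd.pair ((arg.fst.snd.snd.fst.add (arg.snd.fst.mul arg.fst.snd.snd.snd)).pair
        (arg.fst.snd.snd.snd.mul arg.fst.fst)))
  exact (loopN h hM (hl.pair (zero.pair one))).snd.fst

theorem bit' {f : (ℕ × ℕ) × γ → ℝ × ℝ × ℝ} (hf : PC i j f) : PC i j (fun p => bit (f p)) :=
  branch (h := fun p => (f p).1 - (f p).2.1) (hf.fst.sub hf.snd.fst)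
    ((hf.fst.sub hf.snd.fst).pair ((hf.snd.fst.div two).pair ((two.mul hf.snd.snd).add one)))
    (hf.fst.pair ((hf.snd.fst.div two).pair (two.mul hf.snd.snd)))

theorem bits (c d : ℕ) {f : (ℕ × ℕ) × γ → ℝ × ℝ × ℝ} (hf : PC i (j + 1) f) :
    PC i (j + 1) (fun p => bit^[c * p.1.2 + d] (f p)) :=
  loopK (s := fun q : (ℕ × ℕ) × (ℝ × (ℝ × ℝ × ℝ)) => bit q.2.2) (e := fun _ => (1 : ℝ)) c d (bit' arg.snd) one hf

theorem unpack' {H τ y : (ℕ × ℕ) × γ → ℝ} (hH : PC (i + 1) (j + 1) H) (hτ : PC (i + 1) (j + 1) τ)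
    (hy : PC (i + 1) (j + 1) y) :
    PC (i + 1) (j + 1) (fun p => unpack p.1.1 p.1.2 (H p) (τ p) (y p)) := by
  have h1 : PC i (j + 1) (fun q : (ℕ × ℕ) × (ℝ × (ℝ × ℝ × List ℝ)) => bit^[5 * q.1.2 + 1] (q.2.2.1, q.2.2.2.1, 0)) :=
    bits 5 1 (arg.snd.fst.pair (arg.snd.snd.fst.pair zero))
  have h2 := bits 4 0 (h1.fst.pair (h1.snd.fst.pair zero))
  have h : PC i (j + 1) (fun q : (ℕ × ℕ) × (ℝ × (ℝ × ℝ × List ℝ)) => unpackStep q.1.2 q.2.1 q.2.2) :=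
    h2.fst.pair (h2.snd.fst.pair ((h1.snd.snd.sub arg.fst).cons arg.snd.snd.snd))
  exact (loopN h hH (hy.pair (hτ.pair nil))).snd.snd

theorem mmB' {π : (ℕ × ℕ) × γ → Par} {X : (ℕ × ℕ) × γ → List (List ℝ)} {b : (ℕ × ℕ) × γ → List ℝ}
    (hπ : PC (i + 2) (j + 1) π) (hX : PC (i + 2) (j + 1) X) (hb : PC (i + 2) (j + 1) b) :
    PC (i + 2) (j + 1) (fun p => mmB p.1.1 p.1.2 (π p) (X p) (b p)) :=
  mapN' (ε := Par × List ℝ) (f := fun q : (ℕ × ℕ) × ((Par × List ℝ) × List ℝ) =>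
      unpack q.1.1 q.1.2 q.2.1.1.2.2.1 q.2.1.1.2.2.2.1 (dot q.1.1 q.2.2 q.2.1.2 + q.2.1.1.2.2.2.2))
    (e := fun p => (π p, b p))
    (unpack' arg.fst.fst.snd.snd.fst arg.fst.fst.snd.snd.snd.fst
      ((dot' arg.snd arg.fst.snd).add arg.fst.fst.snd.snd.snd.snd)) (hπ.pair hb) hX

theorem mm' {π : (ℕ × ℕ) × γ → Par} {X Y : (ℕ × ℕ) × γ → List (List ℝ)}
    (hπ : PC (i + 2) (j + 1) π) (hX : PC (i + 2) (j + 1) X) (hY : PC (i + 2) (j + 1) Y) :
    PC (i + 2) (j + 1) (fun p => mm p.1.1 p.1.2 (π p) (X p) (Y p)) :=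
  mmB' hπ hX (mapN' (ε := Par) (f := fun q : (ℕ × ℕ) × (Par × List ℝ) => pack q.1.1 q.2.1.1 q.2.2)
    (pack' arg.fst.fst arg.snd) hπ hY)

theorem nils' : PC (i + 1) j (fun p : (ℕ × ℕ) × γ => nils p.1.1) := by
  have h : PC i j (fun q : (ℕ × ℕ) × (ℝ × List (List ℝ)) => ([] : List ℝ) :: q.2.2) := nil.cons arg.snd
  exact loopN (e := fun _ => (1 : ℝ)) h one nil

theorem transp' {X : (ℕ × ℕ) × γ → List (List ℝ)} (hX : PC (i + 2) j X) :
    PC (i + 2) j (fun p => transp p.1.1 (X p)) := by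
  have h0 : PC (i + 1) j (fun r : (ℕ × ℕ) × ((ℝ × (List (List ℝ) × List (List ℝ))) × List ℝ × List (List ℝ)) =>
      zipN r.1.1 (fun a c => a :: c) r.2.2.1 r.2.1.2.2) :=
    zipN' (ε := ℝ) (f := fun q : (ℕ × ℕ) × (ℝ × ℝ × List ℝ) => q.2.2.1 :: q.2.2.2) (e := fun _ => (1 : ℝ))
      (arg.snd.fst.cons arg.snd.snd) one arg.snd.fst arg.fst.snd.snd
  have h : PC (i + 1) j (fun q : (ℕ × ℕ) × (ℝ × (List (List ℝ) × List (List ℝ))) => trStep q.1.1 q.2.2) :=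
    PC.caseL (f := fun q : (ℕ × ℕ) × (ℝ × (List (List ℝ) × List (List ℝ))) => q.2.2.1) (g := fun q => q.2.2)
      (h := fun r : (ℕ × ℕ) × ((ℝ × (List (List ℝ) × List (List ℝ))) × List ℝ × List (List ℝ)) =>
        (r.2.2.2, zipN r.1.1 (fun a c => a :: c) r.2.2.1 r.2.1.2.2))
      arg.snd.fst arg.snd (arg.snd.snd.pair h0)
  exact (loopN (e := fun _ => (1 : ℝ)) h one ((rev' hX).pair nils')).snd

theorem stepX' {π : (ℕ × ℕ) × γ → Par} {B X : (ℕ × ℕ) × γ → List (List ℝ)}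
    (hπ : PC (i + 2) (j + 1) π) (hB : PC (i + 2) (j + 1) B) (hX : PC (i + 2) (j + 1) X) :
    PC (i + 2) (j + 1) (fun p => stepX p.1.1 p.1.2 (π p) (B p) (X p)) := by
  have h0 : PC (i + 1) (j + 1) (fun q : (ℕ × ℕ) × (ℝ × List ℝ × List ℝ) =>
      zipN q.1.1 (fun x y => x + x - y) q.2.2.1 q.2.2.2) :=
    zipN' (ε := ℝ) (f := fun q : (ℕ × ℕ) × (ℝ × ℝ × ℝ) => q.2.2.1 + q.2.2.1 - q.2.2.2) (e := fun _ => (1 : ℝ))
      ((arg.snd.fst.add arg.snd.fst).sub arg.snd.snd) one arg.snd.fst arg.snd.snd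
  exact zipN' (ε := ℝ) (f := fun q : (ℕ × ℕ) × (ℝ × List ℝ × List ℝ) =>
      zipN q.1.1 (fun x y => x + x - y) q.2.2.1 q.2.2.2) (e := fun _ => (1 : ℝ)) h0 one hX (mm' hπ hX (mm' hπ hB hX))

theorem rndE' {P D x : (ℕ × ℕ) × γ → ℝ} (hP : PC i (j + 1) P) (hD : PC i (j + 1) D) (hx : PC i (j + 1) x) :
    PC i (j + 1) (fun p => rndE p.1.2 (P p) (D p) (x p)) :=
  (bits 4 1 (((hP.mul (hx.div hD)).add hP).pair (hP.pair zero))).snd.snd.sub hP

theorem rndR' {P D : (ℕ × ℕ) × γ → ℝ} {l : (ℕ × ℕ) × γ → List ℝ} (hP : PC (i + 1) (j + 1) P)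
    (hD : PC (i + 1) (j + 1) D) (hl : PC (i + 1) (j + 1) l) :
    PC (i + 1) (j + 1) (fun p => mapN p.1.1 (rndE p.1.2 (P p) (D p)) (l p)) :=
  mapN' (ε := ℝ × ℝ) (f := fun q : (ℕ × ℕ) × ((ℝ × ℝ) × ℝ) => rndE q.1.2 q.2.1.1 q.2.1.2 q.2.2)
    (e := fun p => (P p, D p)) (rndE' arg.fst.fst arg.fst.snd arg.snd) (hP.pair hD) hl

theorem rndL' {P D : (ℕ × ℕ) × γ → ℝ} {A : (ℕ × ℕ) × γ → List (List ℝ)}
    (hP : PC (i + 2) (j + 1) P) (hD : PC (i + 2) (j + 1) D) (hA : PC (i + 2) (j + 1) A) :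
    PC (i + 2) (j + 1) (fun p => rndL p.1.1 p.1.2 (P p) (D p) (A p)) :=
  mapN' (ε := ℝ × ℝ) (f := fun q : (ℕ × ℕ) × ((ℝ × ℝ) × List ℝ) =>
      mapN q.1.1 (rndE q.1.2 q.2.1.1 q.2.1.2) q.2.2) (e := fun p => (P p, D p))
    (rndR' arg.fst.fst arg.fst.snd arg.snd) (hP.pair hD) hA

theorem pw' (c d : ℕ) : PC i (j + 1) (fun p : (ℕ × ℕ) × γ => pw p.1.2 c d) :=
  loopK (s := fun q : (ℕ × ℕ) × (ℝ × ℝ) => q.2.2 + q.2.2) (e := fun _ => (1 : ℝ)) c d (arg.snd.add arg.snd) one one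

theorem par' : PC (i + 1) (j + 1) (fun p : (ℕ × ℕ) × γ => par p.1.1 p.1.2) := by
  have h1 : PC (i + 1) (j + 1) (fun p : (ℕ × ℕ) × γ => (fun x => x * pw p.1.2 9 1)^[p.1.1] (1 / 2 : ℝ)) :=
    loopN (s := fun q : (ℕ × ℕ) × (ℝ × ℝ) => q.2.2 * q.2.1) (e := fun p : (ℕ × ℕ) × γ => pw p.1.2 9 1)
      (arg.snd.mul arg.fst) (pw' 9 1) (one.div two)
  have h2 : PC (i + 1) (j + 1) (fun p : (ℕ × ℕ) × γ =>
      (fun s : ℝ × ℝ => (s.1 + pw p.1.2 9 0 * s.2, s.2 * pw p.1.2 9 1))^[p.1.1] (0, 1)) :=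
    loopN (s := fun q : (ℕ × ℕ) × ((ℝ × ℝ) × (ℝ × ℝ)) => (q.2.2.1 + q.2.1.1 * q.2.2.2, q.2.2.2 * q.2.1.2))
      (e := fun p : (ℕ × ℕ) × γ => (pw p.1.2 9 0, pw p.1.2 9 1))
      ((arg.snd.fst.add (arg.fst.fst.mul arg.snd.snd)).pair (arg.snd.snd.mul arg.fst.snd))
      ((pw' 9 0).pair (pw' 9 1)) (zero.pair one)
  exact (pw' 9 1).pair ((pw' 4 0).pair ((pw' 5 0).pair (h1.pair h2.fst)))

/-- the cost of the iteration -/
theorem fin' {π : (ℕ × ℕ) × γ → Par} {D : (ℕ × ℕ) × γ → ℝ} {b : (ℕ × ℕ) × γ → List ℝ}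
    {B : (ℕ × ℕ) × γ → List (List ℝ)} (hπ : PC 2 2 π) (hD : PC 2 2 D) (hb : PC 2 2 b) (hB : PC 2 2 B) :
    PC 2 2 (fun p => fin p.1.1 p.1.2 (π p) (D p) (b p) (B p)) := by
  have h1 : PC 2 2 (fun p => (stepX p.1.1 p.1.2 (π p) (B p))^[1 * p.1.2 + 0] (transp p.1.1 (B p))) :=
    loopK (s := fun q : (ℕ × ℕ) × ((Par × List (List ℝ)) × List (List ℝ)) => stepX q.1.1 q.1.2 q.2.1.1 q.2.1.2 q.2.2)
      (e := fun p => (π p, B p)) 1 0 (stepX' (i := 0) (j := 0) arg.fst.fst arg.fst.snd arg.snd) (hπ.pair hB) (transp' hB)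
  have h0 : PC 1 2 (fun q : (ℕ × ℕ) × ((ℝ × List ℝ) × List ℝ) => dot q.1.1 q.2.2 q.2.1.2 / q.2.1.1) :=
    (dot' arg.snd arg.fst.snd).div arg.fst.fst
  exact mapN' (ε := ℝ × List ℝ) (f := fun q : (ℕ × ℕ) × ((ℝ × List ℝ) × List ℝ) => dot q.1.1 q.2.2 q.2.1.2 / q.2.1.1)
    (e := fun p => ((π p).2.1 * D p, b p)) h0 ((hπ.snd.fst.mul hD).pair hb) h1

/-- the cost of the main part -/
theorem main' : PC 2 2 (fun p : (ℕ × ℕ) × (ℝ × List (List ℝ) × List ℝ) => main p.1.1 p.1.2 p.2.1 p.2.2.1 p.2.2.2) :=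
  fin' par' arg.fst arg.snd.snd (rndL' par'.snd.fst arg.fst arg.snd.fst)

end PC

end Pool.Agent.V5helper29.RLS
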