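import Mathlib

/-!
# Project RLS: the model of computation

A real random access machine in the form of a small programming language (as in `Pool.Agent.Helper693.Tri.Model`, with
real numbers and while loops).
-/

set_option autoImplicit false

namespace Pool.Agent.V5helper29.RLS

/-- Case distinction on a list (empty or not). -/
def caseList {β γ : Type} (l : List β) (g : γ) (h : β → List β → γ) : γ :=
  match l with
  | [] => g
  | b :: t => h b t

@[simp] theorem caseList_nil {β γ : Type} (g : γ) (h : β → List β → γ) :
    caseList [] g h = g := rfl

@[simp] theorem caseList_cons {β γ : Type} (b : β) (t : List β) (g : γ) (h : β → List β → γ) :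
    caseList (b :: t) g h = h b t := rfl

/-- **The model of computation.**  `Computes f c` says that some (uniform, finite) program computes
the function `f` and that on input `x` it performs at most `c x` operations.

The programs are the terms of a small first-order language with exact real numbers, natural
numbers (used only as loop counters), pairs and lists as data.  Every operation costs one unit:

* projections and pairing;
* the natural numbers `0` and `k ↦ k + 1`;
* the real constant `1`, the arithmetic operations `+`, `-`, `*`, `/` on exact real
  numbers, and branching on the comparison `0 ≤ z` of real numbers;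
* the empty list, `cons`, and the case distinction (empty / head and tail) on a list;
* loops `for i in 0..k-1 do s` (here `k` is a natural number computed before the loop starts); the
  cost is the sum of the costs of all executions of the body, plus one for each execution;
* loops `while h < 0 do s`, where `T x` is the number of the executions of the body `s` when the loop starts in
  the state `x`; the cost is the sum of the costs of all evaluations of `h` and of all executions of the body, plus
  one for each of them.

`Computes.le` only allows to overestimate the number of operations. -/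
inductive Computes : {α β : Type} → (α → β) → (α → ℕ) → Prop
  | id {α : Type} : Computes (fun x : α => x) (fun _ => 0)
  | comp {α β γ : Type} {f : α → β} {g : β → γ} {c : α → ℕ} {d : β → ℕ} :
      Computes f c → Computes g d → Computes (fun x => g (f x)) (fun x => c x + d (f x))
  | pair {α β γ : Type} {f : α → β} {g : α → γ} {c d : α → ℕ} :
      Computes f c → Computes g d → Computes (fun x => (f x, g x)) (fun x => c x + d x + 1)
  | fst {α β : Type} : Computes (fun p : α × β => p.1) (fun _ => 1)
  | snd {α β : Type} : Computes (fun p : α × β => p.2) (fun _ => 1)
  | zero {α : Type} : Computes (fun _ : α => (0 : ℕ)) (fun _ => 1)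
  | succ : Computes (fun k : ℕ => k + 1) (fun _ => 1)
  | one {α : Type} : Computes (fun _ : α => (1 : ℝ)) (fun _ => 1)
  | add : Computes (fun p : ℝ × ℝ => p.1 + p.2) (fun _ => 1)
  | sub : Computes (fun p : ℝ × ℝ => p.1 - p.2) (fun _ => 1)
  | mul : Computes (fun p : ℝ × ℝ => p.1 * p.2) (fun _ => 1)
  | div : Computes (fun p : ℝ × ℝ => p.1 / p.2) (fun _ => 1)
  | branch {α β : Type} {h : α → ℝ} {f g : α → β} {ch cf cg : α → ℕ} :
      Computes h ch → Computes f cf → Computes g cg →
      Computes (fun x => if 0 ≤ h x then f x else g x)
        (fun x => ch x + 1 + if 0 ≤ h x then cf x else cg x)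
  | nil {α β : Type} : Computes (fun _ : α => ([] : List β)) (fun _ => 1)
  | cons {β : Type} : Computes (fun p : β × List β => p.1 :: p.2) (fun _ => 1)
  | caseList {α β γ : Type} {g : α → γ} {h : α × β × List β → γ} {cg : α → ℕ}
      {ch : α × β × List β → ℕ} :
      Computes g cg → Computes h ch →
      Computes (fun p : α × List β => caseList p.2 (g p.1) (fun b t => h (p.1, b, t)))
        (fun p => 1 + caseList p.2 (cg p.1) (fun b t => ch (p.1, b, t)))
  | loop {α : Type} {s : α → α} {c : α → ℕ} :
      Computes s c →
      Computes (fun p : ℕ × α => s^[p.1] p.2)
        (fun p => ∑ i ∈ Finset.range p.1, (c (s^[i] p.2) + 1))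
  | while_ {α : Type} {h : α → ℝ} {s : α → α} {ch cs : α → ℕ} (T : α → ℕ) :
      Computes h ch → Computes s cs → (∀ x, 0 ≤ h (s^[T x] x)) → (∀ x, ∀ i < T x, h (s^[i] x) < 0) →
      Computes (fun x : α => s^[T x] x)
        (fun x => ∑ i ∈ Finset.range (T x + 1), (ch (s^[i] x) + 1) +
          ∑ i ∈ Finset.range (T x), (cs (s^[i] x) + 1))
  | le {α β : Type} {f : α → β} {c d : α → ℕ} :
      Computes f c → (∀ x, c x ≤ d x) → Computes f d

/-- The input data: the list of the rows of the matrix. -/
def encode {n : ℕ} (A : Fin n → Fin n → ℝ) : List (List ℝ) :=
  List.ofFn fun i => List.ofFn fun j => A i j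

end Pool.Agent.V5helper29.RLS
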