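import Pool.Agent.V5helper29.RLS.Model

/-!
# Project RLS: functions with `O((n+1)^i (k+1)^j)` operations
-/

set_option autoImplicit false

namespace Pool.Agent.V5helper29.RLS

/-- the size function -/
def sz (i j : ℕ) (q : ℕ × ℕ) : ℕ := (q.1 + 1) ^ i * (q.2 + 1) ^ j

theorem one_le_sz (i j : ℕ) (q : ℕ × ℕ) : 1 ≤ sz i j q := Nat.one_le_iff_ne_zero.2 (by unfold sz; positivity)

theorem sz_mono {i j i' j' : ℕ} (hi : i ≤ i') (hj : j ≤ j') (q : ℕ × ℕ) : sz i j q ≤ sz i' j' q :=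
  Nat.mul_le_mul (Nat.pow_le_pow_right (by omega) hi) (Nat.pow_le_pow_right (by omega) hj)

/-- `PC i j f`: the function `f` of `((n, k), x)` is computed with `O((n+1)^i (k+1)^j)` operations. -/
def PC (i j : ℕ) {α β : Type} (f : (ℕ × ℕ) × α → β) : Prop :=
  ∃ K : ℕ, Computes f (fun p => K * sz i j p.1)

namespace PC

variable {α β γ ε : Type} {i j : ℕ}

theorem of_const {f : (ℕ × ℕ) × α → β} {K : ℕ} (h : Computes f (fun _ => K)) : PC i j f :=
  ⟨K, h.le fun p => Nat.le_mul_of_pos_right _ (one_le_sz i j p.1)⟩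

theorem mono {i' j' : ℕ} {f : (ℕ × ℕ) × α → β} (h : PC i j f) (hi : i ≤ i') (hj : j ≤ j') : PC i' j' f := by
  obtain ⟨K, hK⟩ := h
  exact ⟨K, hK.le fun p => Nat.mul_le_mul_left _ (sz_mono hi hj p.1)⟩

theorem congr {f g : (ℕ × ℕ) × α → β} (h : PC i j f) (hfg : ∀ p, f p = g p) : PC i j g := by
  have : f = g := funext hfg
  rwa [← this]

theorem n : PC i j (fun p : (ℕ × ℕ) × α => p.1.1) := of_const (Computes.comp Computes.fst Computes.fst)

theorem k : PC i j (fun p : (ℕ × ℕ) × α => p.1.2) := of_const (Computes.comp Computes.fst Computes.snd)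

theorem arg : PC i j (fun p : (ℕ × ℕ) × α => p.2) := of_const Computes.snd

theorem comp {f : (ℕ × ℕ) × α → β} {g : (ℕ × ℕ) × β → γ} (hf : PC i j f) (hg : PC i j g) :
    PC i j (fun p => g (p.1, f p)) := by
  obtain ⟨K, hK⟩ := hf
  obtain ⟨L, hL⟩ := hg
  refine ⟨1 + K + 1 + L, ((Computes.pair Computes.fst hK).comp hL).le fun p => ?_⟩
  have h1 := one_le_sz i j p.1
  simp only
  nlinarith

/-- composition with a function of constant cost -/
theorem map {f : (ℕ × ℕ) × α → β} {g : β → γ} {K : ℕ} (hf : PC i j f) (hg : Computes g (fun _ => K)) :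
    PC i j (fun p => g (f p)) := by
  obtain ⟨L, hL⟩ := hf
  refine ⟨L + K, (hL.comp hg).le fun p => ?_⟩
  have h1 := one_le_sz i j p.1
  nlinarith

theorem pair {f : (ℕ × ℕ) × α → β} {g : (ℕ × ℕ) × α → γ} (hf : PC i j f) (hg : PC i j g) :
    PC i j (fun p => (f p, g p)) := by
  obtain ⟨K, hK⟩ := hf
  obtain ⟨L, hL⟩ := hg
  refine ⟨K + L + 1, (hK.pair hL).le fun p => ?_⟩
  have h1 := one_le_sz i j p.1
  nlinarith

theorem fst {f : (ℕ × ℕ) × α → β × γ} (hf : PC i j f) : PC i j (fun p => (f p).1) :=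
  hf.map Computes.fst

theorem snd {f : (ℕ × ℕ) × α → β × γ} (hf : PC i j f) : PC i j (fun p => (f p).2) :=
  hf.map Computes.snd

theorem one : PC i j (fun _ : (ℕ × ℕ) × α => (1 : ℝ)) := of_const Computes.one

theorem nil : PC i j (fun _ : (ℕ × ℕ) × α => ([] : List β)) := of_const Computes.nil

theorem natZero : PC i j (fun _ : (ℕ × ℕ) × α => (0 : ℕ)) := of_const Computes.zero

theorem natSucc {f : (ℕ × ℕ) × α → ℕ} (hf : PC i j f) : PC i j (fun p => f p + 1) :=
  hf.map Computes.succ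

theorem add {f g : (ℕ × ℕ) × α → ℝ} (hf : PC i j f) (hg : PC i j g) : PC i j (fun p => f p + g p) :=
  (hf.pair hg).map Computes.add

theorem sub {f g : (ℕ × ℕ) × α → ℝ} (hf : PC i j f) (hg : PC i j g) : PC i j (fun p => f p - g p) :=
  (hf.pair hg).map Computes.sub

theorem mul {f g : (ℕ × ℕ) × α → ℝ} (hf : PC i j f) (hg : PC i j g) : PC i j (fun p => f p * g p) :=
  (hf.pair hg).map Computes.mul

theorem div {f g : (ℕ × ℕ) × α → ℝ} (hf : PC i j f) (hg : PC i j g) : PC i j (fun p => f p / g p) :=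
  (hf.pair hg).map Computes.div

theorem zero : PC i j (fun _ : (ℕ × ℕ) × α => (0 : ℝ)) :=
  (sub (α := α) one one).congr fun _ => by simp

theorem two : PC i j (fun _ : (ℕ × ℕ) × α => (2 : ℝ)) :=
  (add (α := α) one one).congr fun _ => by norm_num

theorem neg {f : (ℕ × ℕ) × α → ℝ} (hf : PC i j f) : PC i j (fun p => - f p) :=
  (zero.sub hf).congr fun _ => by simp

theorem cons {f : (ℕ × ℕ) × α → β} {g : (ℕ × ℕ) × α → List β} (hf : PC i j f) (hg : PC i j g) :
    PC i j (fun p => f p :: g p) :=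
  (hf.pair hg).map Computes.cons

theorem branch {h : (ℕ × ℕ) × α → ℝ} {f g : (ℕ × ℕ) × α → β} (hh : PC i j h) (hf : PC i j f) (hg : PC i j g) :
    PC i j (fun p => if 0 ≤ h p then f p else g p) := by
  obtain ⟨K, hK⟩ := hh
  obtain ⟨L, hL⟩ := hf
  obtain ⟨N, hN⟩ := hg
  refine ⟨K + L + N + 1, (Computes.branch hK hL hN).le fun p => ?_⟩
  have h1 := one_le_sz i j p.1
  split_ifs <;> nlinarith [Nat.zero_le (L * sz i j p.1), Nat.zero_le (N * sz i j p.1)]

theorem caseL {f : (ℕ × ℕ) × α → List β} {g : (ℕ × ℕ) × α → γ} {h : (ℕ × ℕ) × (α × β × List β) → γ}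
    (hf : PC i j f) (hg : PC i j g) (hh : PC i j h) :
    PC i j (fun p => caseList (f p) (g p) (fun b t => h (p.1, (p.2, b, t)))) := by
  obtain ⟨K, hK⟩ := hf
  obtain ⟨L, hL⟩ := hg
  obtain ⟨N, hN⟩ := hh
  have h1 : Computes (fun q : ((ℕ × ℕ) × α) × β × List β => h (q.1.1, (q.1.2, q.2)))
      (fun q => 1 + 1 + (1 + 1 + 1 + 1) + 1 + N * sz i j q.1.1) := by
    refine ((Computes.pair (Computes.comp Computes.fst Computes.fst)
      (Computes.pair (Computes.comp Computes.fst Computes.snd) Computes.snd)).comp hN).le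
      fun q => ?_
    exact le_rfl
  have h2 := Computes.caseList (β := β) hL h1
  refine ⟨K + L + N + 20, (Computes.comp (Computes.pair Computes.id hK) h2).le fun p => ?_⟩
  have h3 := one_le_sz i j p.1
  simp only
  cases f p with
  | nil =>
    simp only [caseList_nil]
    nlinarith [Nat.zero_le (L * sz i j p.1), Nat.zero_le (N * sz i j p.1)]
  | cons b t =>
    simp only [caseList_cons]
    nlinarith [Nat.zero_le (L * sz i j p.1), Nat.zero_le (N * sz i j p.1)]

/-- A loop with `m` rounds, body depending on an environment; the number of rounds is the first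
component of the argument. -/
theorem loopAux {s : (ℕ × ℕ) × (ε × α) → α} (hs : PC i j s) :
    ∃ K : ℕ, Computes (fun p : ℕ × ((ℕ × ℕ) × (ε × α)) =>
        (fun a => s (p.2.1, (p.2.2.1, a)))^[p.1] p.2.2.2)
      (fun p => K * (p.1 + 1) * sz i j p.2.1) := by
  obtain ⟨K, hK⟩ := hs
  have hb : Computes (fun q : (ℕ × ℕ) × (ε × α) => (q.1, (q.2.1, s q)))
      (fun q => 10 + K * sz i j q.1) := by
    refine (Computes.pair Computes.fst
      (Computes.pair (Computes.comp Computes.snd Computes.fst) hK)).le fun q => ?_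
    omega
  have hl := Computes.loop hb
  have hit : ∀ (m : ℕ) (n : ℕ × ℕ) (e : ε) (a : α),
      (fun q : (ℕ × ℕ) × (ε × α) => (q.1, (q.2.1, s q)))^[m] (n, (e, a))
        = (n, (e, (fun a => s (n, (e, a)))^[m] a)) := by
    intro m
    induction m with
    | zero => intro n e a; rfl
    | succ m ih =>
      intro n e a
      rw [Function.iterate_succ_apply, Function.iterate_succ_apply]
      exact ih n e _
  refine ⟨K + 14, ?_⟩
  have h2 := (hl.comp Computes.snd).comp Computes.snd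
  have h3 : (fun p : ℕ × ((ℕ × ℕ) × (ε × α)) =>
        (fun a => s (p.2.1, (p.2.2.1, a)))^[p.1] p.2.2.2)
      = fun p : ℕ × ((ℕ × ℕ) × (ε × α)) =>
        ((((fun q : (ℕ × ℕ) × (ε × α) => (q.1, (q.2.1, s q)))^[p.1] p.2)).2).2 := by
    funext p
    obtain ⟨m, n, e, a⟩ := p
    simp only [hit]
  rw [h3]
  refine h2.le ?_
  rintro ⟨m, n, e, a⟩
  simp only [hit]
  rw [Finset.sum_const, Finset.card_range, smul_eq_mul]
  have h1 := one_le_sz i j n
  have h5 : m * (10 + K * sz i j n + 1) ≤ (m + 1) * ((11 + K) * sz i j n) := by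
    apply Nat.mul_le_mul (by omega)
    nlinarith
  have h6 : 2 ≤ (m + 1) * (2 * sz i j n) := by nlinarith
  nlinarith

/-- A loop with `n` rounds. -/
theorem loopN0 {s : (ℕ × ℕ) × (ε × α) → α} (hs : PC i j s) :
    PC (i + 1) j (fun p : (ℕ × ℕ) × (ε × α) => (fun a => s (p.1, (p.2.1, a)))^[p.1.1] p.2.2) := by
  obtain ⟨K, hK⟩ := loopAux hs
  refine ⟨K + 3, (Computes.comp (Computes.pair (Computes.comp Computes.fst Computes.fst) Computes.id) hK).le ?_⟩
  rintro ⟨n, e, a⟩
  have h1 := one_le_sz (i + 1) j n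
  have h2 : sz (i + 1) j n = (n.1 + 1) * sz i j n := by unfold sz; rw [pow_succ]; ring
  simp only
  rw [h2] at h1 ⊢
  nlinarith [Nat.zero_le (K * ((n.1 + 1) * sz i j n))]

/-- A loop with `k` rounds. -/
theorem loopK0 {s : (ℕ × ℕ) × (ε × α) → α} (hs : PC i j s) :
    PC i (j + 1) (fun p : (ℕ × ℕ) × (ε × α) => (fun a => s (p.1, (p.2.1, a)))^[p.1.2] p.2.2) := by
  obtain ⟨K, hK⟩ := loopAux hs
  refine ⟨K + 3, (Computes.comp (Computes.pair (Computes.comp Computes.fst Computes.snd) Computes.id) hK).le ?_⟩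
  rintro ⟨n, e, a⟩
  have h1 := one_le_sz i (j + 1) n
  have h2 : sz i (j + 1) n = (n.2 + 1) * sz i j n := by unfold sz; rw [pow_succ]; ring
  simp only
  rw [h2] at h1 ⊢
  nlinarith [Nat.zero_le (K * ((n.2 + 1) * sz i j n))]

/-- A loop with `n` rounds, with computed environment and initial value. -/
theorem loopN {s : (ℕ × ℕ) × (ε × α) → α} {e : (ℕ × ℕ) × γ → ε} {a : (ℕ × ℕ) × γ → α} (hs : PC i j s)
    (he : PC (i + 1) j e) (ha : PC (i + 1) j a) :
    PC (i + 1) j (fun p : (ℕ × ℕ) × γ => (fun x => s (p.1, (e p, x)))^[p.1.1] (a p)) :=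
  comp (he.pair ha) (loopN0 hs)

/-- A loop with a constant number of rounds. -/
theorem loopC {s : (ℕ × ℕ) × (ε × α) → α} (hs : PC i j s) (c : ℕ) :
    PC i j (fun p : (ℕ × ℕ) × (ε × α) => (fun a => s (p.1, (p.2.1, a)))^[c] p.2.2) := by
  induction c with
  | zero => exact arg.snd
  | succ c ih => exact comp (arg.fst.pair hs) ih

/-- A loop with `c k + d` rounds, with computed environment and initial value. -/
theorem loopK (c d : ℕ) {s : (ℕ × ℕ) × (ε × α) → α} {e : (ℕ × ℕ) × γ → ε} {a : (ℕ × ℕ) × γ → α} (hs : PC i j s)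
    (he : PC i (j + 1) e) (ha : PC i (j + 1) a) :
    PC i (j + 1) (fun p : (ℕ × ℕ) × γ => (fun x => s (p.1, (e p, x)))^[c * p.1.2 + d] (a p)) := by
  have h1 : PC i (j + 1) (fun p : (ℕ × ℕ) × (ε × α) => (fun x => s (p.1, (p.2.1, x)))^[d] p.2.2) :=
    (loopC hs d).mono le_rfl (Nat.le_succ j)
  have h2 := loopK0 (loopC hs c)
  have h3 : PC i (j + 1) (fun p : (ℕ × ℕ) × (ε × α) =>
      (fun x => s (p.1, (p.2.1, x)))^[c * p.1.2 + d] p.2.2) := by
    refine (comp (arg.fst.pair h1) h2).congr ?_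
    rintro ⟨n, e, a⟩
    simp only
    rw [Function.iterate_add_apply, Function.iterate_mul]
  exact comp (he.pair ha) h3

end PC

end Pool.Agent.V5helper29.RLS
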