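import Pool.Agent.V5helper29.RLS.Spec2

/-!
# Project RLS: the algorithm
-/

set_option autoImplicit false

noncomputable section

namespace Pool.Agent.V5helper29.RLS

open Finset Filter Topology
open scoped Matrix

/-- `n` as a real number -/
def natC (n : ℕ) : ℝ := (fun x : ℝ => x + 1)^[n] 0

theorem natC_eq (n : ℕ) : natC n = n := by
  unfold natC
  induction n with
  | zero => simp
  | succ n ih => rw [Function.iterate_succ_apply', ih]; push_cast; ring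

/-- the precision which is needed: `n ^ 40 / ε` -/
def quo (n : ℕ) (ε : ℝ) : ℝ := (fun y : ℝ => y * natC n)^[40] 1 / ε

theorem quo_eq (n : ℕ) (ε : ℝ) : quo n ε = (n : ℝ) ^ 40 / ε := by
  unfold quo
  rw [mulM_iter, natC_eq, mul_one]

/-- the first `k` with `q ≤ 2 ^ k * t`; it is `0` if `t ≤ 0` -/
def kT (s : ℝ × ℝ × ℕ) : ℕ := sInf {k : ℕ | s.1 ≤ 0 ∨ s.2.1 ≤ 2 ^ k * s.1}

/-- the guard of the while loop -/
def guard (s : ℝ × ℝ × ℕ) : ℝ := if 0 ≤ 0 - s.1 then 1 else s.1 - s.2.1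

/-- the body of the while loop -/
def dblB (s : ℝ × ℝ × ℕ) : ℝ × ℝ × ℕ := (s.1 + s.1, s.2.1, s.2.2 + 1)

theorem dblB_iter (m : ℕ) (s : ℝ × ℝ × ℕ) : dblB^[m] s = (2 ^ m * s.1, s.2.1, s.2.2 + m) := by
  induction m with
  | zero => simp
  | succ m ih =>
    rw [Function.iterate_succ_apply', ih]
    unfold dblB
    refine Prod.ext ?_ (Prod.ext rfl rfl)
    simp only
    rw [pow_succ]
    ring

theorem kT_spec (s : ℝ × ℝ × ℕ) : s.1 ≤ 0 ∨ s.2.1 ≤ 2 ^ kT s * s.1 := by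
  have h : ({k : ℕ | s.1 ≤ 0 ∨ s.2.1 ≤ 2 ^ k * s.1}).Nonempty := by
    by_cases h0 : s.1 ≤ 0
    · exact ⟨0, Or.inl h0⟩
    · rw [not_le] at h0
      obtain ⟨m, hm⟩ := pow_unbounded_of_one_lt (s.2.1 / s.1) (one_lt_two : (1 : ℝ) < 2)
      refine ⟨m, Or.inr ?_⟩
      rw [div_lt_iff₀ h0] at hm
      exact hm.le
  exact Nat.sInf_mem h

theorem kT_min (s : ℝ × ℝ × ℕ) {i : ℕ} (hi : i < kT s) : 0 < s.1 ∧ 2 ^ i * s.1 < s.2.1 := by
  have h := Nat.notMem_of_lt_sInf hi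
  simp only [Set.mem_ofPred_eq, not_or, not_le] at h
  exact h

theorem cost_while : ∃ K : ℕ, Computes (fun s : ℝ × ℝ × ℕ => dblB^[kT s] s) (fun s => K * (kT s + 1)) := by
  -- guard and body
  have h0 : PC 0 0 (fun p : (ℕ × ℕ) × (ℝ × ℝ × ℕ) => guard p.2) :=
    PC.branch (h := fun p : (ℕ × ℕ) × (ℝ × ℝ × ℕ) => 0 - p.2.1) (PC.zero.sub PC.arg.fst) PC.one
      (PC.arg.fst.sub PC.arg.snd.fst)
  have h1 : PC 0 0 (fun p : (ℕ × ℕ) × (ℝ × ℝ × ℕ) => dblB p.2) :=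
    (PC.arg.fst.add PC.arg.fst).pair (PC.arg.snd.fst.pair (PC.natSucc PC.arg.snd.snd))
  obtain ⟨K0, hK0⟩ := h0
  obtain ⟨K1, hK1⟩ := h1
  have hin : Computes (fun s : ℝ × ℝ × ℕ => (((0, 0) : ℕ × ℕ), s)) (fun _ => 4) :=
    (Computes.pair (Computes.pair Computes.zero Computes.zero) Computes.id).le fun _ => by norm_num
  have hg : Computes guard (fun _ => 4 + K0) := (hin.comp hK0).le fun _ => by simp [sz]
  have hb : Computes dblB (fun _ => 4 + K1) := (hin.comp hK1).le fun _ => by simp [sz]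
  have hw := Computes.while_ kT hg hb
    (by
      intro x
      rw [dblB_iter]
      unfold guard
      simp only
      split_ifs with h
      · exact zero_le_one
      · rcases kT_spec x with h2 | h2
        · exfalso
          apply h
          have : 2 ^ kT x * x.1 ≤ 0 := mul_nonpos_of_nonneg_of_nonpos (by positivity) h2
          linarith
        · linarith)
    (by
      intro x i hi
      obtain ⟨h1, h2⟩ := kT_min x hi
      rw [dblB_iter]
      unfold guard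
      simp only
      rw [if_neg]
      · linarith
      · have : 0 < 2 ^ i * x.1 := by positivity
        linarith)
  refine ⟨20 + K0 + K1, hw.le fun x => ?_⟩
  simp only [Finset.sum_const, Finset.card_range, smul_eq_mul]
  nlinarith [Nat.zero_le (K0 * kT x), Nat.zero_le (K1 * kT x)]

/-- the number of the iterations -/
def kOf (q : ℝ) : ℕ := kT (1, q, 0)

theorem kOf_spec (q : ℝ) : q ≤ 2 ^ kOf q := by
  show q ≤ 2 ^ kT (1, q, 0)
  rcases kT_spec (1, q, 0) with h | h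
  · norm_num at h
  · simpa using h

theorem kOf_min (q : ℝ) {i : ℕ} (hi : i < kOf q) : 2 ^ i < q := by
  have := (kT_min (1, q, 0) hi).2
  simpa using this

/-- **The algorithm.** -/
def solve (p : ℕ × (List (List ℝ) × List ℝ × ℝ)) : List ℝ :=
  main p.1 (kOf (quo p.1 p.2.2.2)) (2 * (natC p.1 * natC p.1 * natC p.1)) p.2.1 p.2.2.1

theorem cost_solve : ∃ K : ℕ, Computes solve (fun p => K * sz 2 2 (p.1, kOf (quo p.1 p.2.2.2))) := by
  obtain ⟨K0, hK0⟩ := cost_while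
  obtain ⟨K1, hK1⟩ := PC.main'
  -- the first stage
  have hn : PC 1 0 (fun p : (ℕ × ℕ) × (List (List ℝ) × List ℝ × ℝ) => natC p.1.1) :=
    PC.loopN (s := fun q : (ℕ × ℕ) × (ℝ × ℝ) => q.2.2 + 1) (e := fun _ => (1 : ℝ)) (PC.arg.snd.add PC.one) PC.one
      PC.zero
  have hq : PC 1 0 (fun p : (ℕ × ℕ) × (List (List ℝ) × List ℝ × ℝ) => quo p.1.1 p.2.2.2) :=
    (PC.comp (hn.pair PC.one) (PC.loopC (s := fun q : (ℕ × ℕ) × (ℝ × ℝ) => q.2.2 * q.2.1)
      (PC.arg.snd.mul PC.arg.fst) 40)).div PC.arg.snd.snd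
  have hD : PC 1 0 (fun p : (ℕ × ℕ) × (List (List ℝ) × List ℝ × ℝ) => 2 * (natC p.1.1 * natC p.1.1 * natC p.1.1)) :=
    PC.two.mul ((hn.mul hn).mul hn)
  -- `(n, 0), x ↦ (1, q, 0), (n, D, A, b)`
  have h1 : PC 1 0 (fun p : (ℕ × ℕ) × (List (List ℝ) × List ℝ × ℝ) =>
      ((p.1.1, 2 * (natC p.1.1 * natC p.1.1 * natC p.1.1), p.2.1, p.2.2.1), ((1 : ℝ), quo p.1.1 p.2.2.2, 0))) :=
    (PC.n.pair (hD.pair (PC.arg.fst.pair PC.arg.snd.fst))).pair (PC.one.pair (hq.pair PC.natZero))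
  obtain ⟨K2, hK2⟩ := h1
  have hin : Computes (fun p : ℕ × (List (List ℝ) × List ℝ × ℝ) => ((p.1, 0), p.2)) (fun _ => 5) :=
    (Computes.pair (Computes.pair Computes.fst Computes.zero) Computes.snd).le fun _ => by norm_num
  have h2 := hin.comp hK2
  -- the while loop
  have h3 : Computes (fun p : (ℕ × ℝ × List (List ℝ) × List ℝ) × (ℝ × ℝ × ℕ) =>
      (p.1, (dblB^[kT p.2] p.2).2.2)) (fun p => K0 * (kT p.2 + 1) + 5) :=
    (Computes.pair Computes.fst (((Computes.snd.comp hK0).comp Computes.snd).comp Computes.snd)).le fun p => by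
      first
        | omega
        | (simp only; omega)
  have h4 : Computes (fun p : (ℕ × ℝ × List (List ℝ) × List ℝ) × ℕ =>
      main p.1.1 p.2 p.1.2.1 p.1.2.2.1 p.1.2.2.2) (fun p => 10 + K1 * sz 2 2 (p.1.1, p.2)) :=
    (((Computes.comp Computes.fst Computes.fst).pair Computes.snd).pair
      (Computes.comp Computes.fst Computes.snd) |>.comp hK1).le fun p => by
      simp only
      omega
  have h5 := (h2.comp h3).comp h4
  refine ⟨K2 + K0 + K1 + 20, ?_⟩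
  have e : solve = fun p : ℕ × (List (List ℝ) × List ℝ × ℝ) =>
      main p.1 ((dblB^[kT ((1 : ℝ), quo p.1 p.2.2.2, 0)] ((1 : ℝ), quo p.1 p.2.2.2, 0)).2.2)
        (2 * (natC p.1 * natC p.1 * natC p.1)) p.2.1 p.2.2.1 := by
    funext p
    rw [dblB_iter]
    simp only [zero_add]
    rfl
  rw [e]
  refine h5.le fun p => ?_
  simp only
  rw [dblB_iter]
  simp only [zero_add]
  show _ ≤ (K2 + K0 + K1 + 20) * sz 2 2 (p.1, kOf (quo p.1 p.2.2.2))
  have e1 : kT ((1 : ℝ), quo p.1 p.2.2.2, 0) = kOf (quo p.1 p.2.2.2) := rfl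
  rw [e1]
  generalize kOf (quo p.1 p.2.2.2) = k
  have s1 : sz 1 0 (p.1, 0) ≤ sz 2 2 (p.1, k) := by
    unfold sz
    simp only [pow_one, pow_zero, mul_one]
    calc p.1 + 1 ≤ (p.1 + 1) ^ 2 := Nat.le_self_pow (by norm_num) _
      _ ≤ (p.1 + 1) ^ 2 * (k + 1) ^ 2 := Nat.le_mul_of_pos_right _ (by positivity)
  have s2 : k + 1 ≤ sz 2 2 (p.1, k) := by
    unfold sz
    simp only
    calc k + 1 ≤ (k + 1) ^ 2 := Nat.le_self_pow (by norm_num) _
      _ ≤ (p.1 + 1) ^ 2 * (k + 1) ^ 2 := Nat.le_mul_of_pos_left _ (by positivity)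
  have s3 := one_le_sz 2 2 (p.1, k)
  have s4 : K2 * sz 1 0 (p.1, 0) ≤ K2 * sz 2 2 (p.1, k) := Nat.mul_le_mul_left _ s1
  have s5 : K0 * (k + 1) ≤ K0 * sz 2 2 (p.1, k) := Nat.mul_le_mul_left _ s2
  have s6 : (K2 + K0 + K1 + 20) * sz 2 2 (p.1, k) = K2 * sz 2 2 (p.1, k) + K0 * sz 2 2 (p.1, k) +
      K1 * sz 2 2 (p.1, k) + 20 * sz 2 2 (p.1, k) := by ring
  omega

/-- the bound for the cost -/
theorem cost_bound {n : ℕ} (hn : 2 ≤ n) {ε : ℝ} (h0 : 0 < ε) (h1 : ε < 1) (K : ℕ) :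
    ((K * sz 2 2 (n, kOf (quo n ε)) : ℕ) : ℝ) ≤ (20000 * K) * (n : ℝ) ^ 2 * Real.log (n / ε) ^ 2 := by
  have hn' : (2 : ℝ) ≤ n := by exact_mod_cast hn
  have hL : Real.log 2 ≤ Real.log (n / ε) := by
    apply Real.log_le_log (by norm_num)
    rw [le_div_iff₀ h0]
    nlinarith
  have hlog2 := Real.log_two_gt_d9
  set L := Real.log (n / ε) with hLdef
  have hmin : ∀ i < kOf (quo n ε), (2 : ℝ) ^ i < (n : ℝ) ^ 40 / ε := by
    intro i hi
    rw [← quo_eq]
    exact kOf_min _ hi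
  generalize kOf (quo n ε) = k at hmin
  have hk : (k : ℝ) + 1 ≤ 63 * L := by
    rcases Nat.eq_zero_or_pos k with h | h
    · rw [h]; push_cast; linarith
    · have h2 := hmin (k - 1) (by omega)
      have h3 : ((k - 1 : ℕ) : ℝ) * Real.log 2 < 40 * L := by
        have h4 := Real.log_lt_log (by positivity) h2
        rw [Real.log_pow, Real.log_div (by positivity) h0.ne', Real.log_pow] at h4
        rw [hLdef, Real.log_div (by positivity) h0.ne']
        have h5 : Real.log ε < 0 := Real.log_neg h0 h1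
        push_cast at h4 ⊢
        linarith
      have h6 : ((k - 1 : ℕ) : ℝ) = (k : ℝ) - 1 := by
        rw [Nat.cast_sub h]; simp
      rw [h6] at h3
      by_contra hc
      rw [not_le] at hc
      have h7 : (60 * L) * Real.log 2 ≤ ((k : ℝ) - 1) * Real.log 2 := by
        apply mul_le_mul_of_nonneg_right _ (by linarith)
        linarith
      nlinarith
  unfold sz
  push_cast
  have h2 : ((n : ℝ) + 1) ^ 2 ≤ (2 * n) ^ 2 := by gcongr; linarith
  have h3 : ((k : ℝ) + 1) ^ 2 ≤ (63 * L) ^ 2 := by gcongr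
  calc (K : ℝ) * (((n : ℝ) + 1) ^ 2 * ((k : ℝ) + 1) ^ 2)
      ≤ K * ((2 * n) ^ 2 * (63 * L) ^ 2) := by gcongr
    _ = (15876 * K) * (n : ℝ) ^ 2 * L ^ 2 := by ring
    _ ≤ _ := by gcongr; norm_num

/-- correctness -/
theorem solve_good (hnum : S_NUM) {n : ℕ} (hn : 2 ≤ n) (A : Matrix (Fin n) (Fin n) ℝ) (hA : Good n A)
    (b : Fin n → ℝ) {ε : ℝ} (h0 : 0 < ε) (h1 : ε < 1) :
    ∃ x : Fin n → ℝ, solve (n, encode A, List.ofFn b, ε) = List.ofFn x ∧ nrm (A *ᵥ x - b) ≤ ε * nrm b := by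
  have hk : (n : ℝ) ^ 40 / ε ≤ 2 ^ kOf (quo n ε) := by
    rw [← quo_eq]
    exact kOf_spec _
  obtain ⟨h2, h3⟩ := hnum n (kOf (quo n ε)) A ε hn hA h0 h1 hk
  refine ⟨_, ?_, h3 b⟩
  unfold solve
  simp only
  rw [show (2 * (natC n * natC n * natC n) : ℝ) = 2 * (n : ℝ) ^ 3 by rw [natC_eq]; ring,
    main_eq A b (by omega) hA.1 h2]

end Pool.Agent.V5helper29.RLS
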