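import Pool.Agent.V5helper29.RLS.Algo

/-!
# Project RLS: what the list functions compute
-/

set_option autoImplicit false

noncomputable section

namespace Pool.Agent.V5helper29.RLS

open Finset

/-! ### Lists -/

theorem revStep_iter {β : Type} : ∀ (n : ℕ) (l acc : List β), l.length ≤ n →
    revStep^[n] (l, acc) = ([], l.reverse ++ acc) := by
  intro n
  induction n with
  | zero =>
    intro l acc h
    have : l = [] := List.length_eq_zero_iff.1 (by omega)
    subst this
    rfl
  | succ n ih =>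
    intro l acc h
    rw [Function.iterate_succ_apply]
    cases l with
    | nil => exact ih [] acc (by simp)
    | cons b t =>
      show revStep^[n] (t, b :: acc) = _
      rw [ih t (b :: acc) (by simpa using h)]
      simp

theorem rev_eq {β : Type} {n : ℕ} {l : List β} (h : l.length ≤ n) : rev n l = l.reverse := by
  unfold rev
  rw [revStep_iter n l [] h]
  simp

theorem mapStep_iter {α β : Type} (f : α → β) : ∀ (n : ℕ) (l : List α) (acc : List β), l.length ≤ n →
    (mapStep f)^[n] (l, acc) = ([], (l.map f).reverse ++ acc) := by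
  intro n
  induction n with
  | zero =>
    intro l acc h
    have : l = [] := List.length_eq_zero_iff.1 (by omega)
    subst this
    rfl
  | succ n ih =>
    intro l acc h
    rw [Function.iterate_succ_apply]
    cases l with
    | nil => exact ih [] acc (by simp)
    | cons b t =>
      show (mapStep f)^[n] (t, f b :: acc) = _
      rw [ih t (f b :: acc) (by simpa using h)]
      simp

theorem mapN_eq {α β : Type} (f : α → β) {n : ℕ} {l : List α} (h : l.length ≤ n) : mapN n f l = l.map f := by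
  unfold mapN
  rw [mapStep_iter f n l [] h, rev_eq (by simpa using h)]
  simp

theorem mapN_ofFn {α β : Type} (f : α → β) {n : ℕ} (g : Fin n → α) :
    mapN n f (List.ofFn g) = List.ofFn fun i => f (g i) := by
  rw [mapN_eq f (by simp), List.map_ofFn]
  rfl

theorem zipStep_iter {α β γ : Type} (f : α → β → γ) : ∀ (n : ℕ) (u : List α) (v : List β) (acc : List γ),
    u.length ≤ n → u.length = v.length →
    (zipStep f)^[n] (u, v, acc) = ([], [], (List.zipWith f u v).reverse ++ acc) := by
  intro n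
  induction n with
  | zero =>
    intro u v acc h h'
    have : u = [] := List.length_eq_zero_iff.1 (by omega)
    subst this
    have : v = [] := List.length_eq_zero_iff.1 (by simpa using h'.symm)
    subst this
    rfl
  | succ n ih =>
    intro u v acc h h'
    rw [Function.iterate_succ_apply]
    cases u with
    | nil =>
      have : v = [] := List.length_eq_zero_iff.1 (by simpa using h'.symm)
      subst this
      exact ih [] [] acc (by simp) rfl
    | cons a u =>
      cases v with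
      | nil => simp at h'
      | cons b v =>
        show (zipStep f)^[n] (u, v, f a b :: acc) = _
        rw [ih u v (f a b :: acc) (by simpa using h) (by simpa using h')]
        simp

theorem zipN_eq {α β γ : Type} (f : α → β → γ) {n : ℕ} {u : List α} {v : List β} (h : u.length ≤ n)
    (h' : u.length = v.length) : zipN n f u v = List.zipWith f u v := by
  unfold zipN
  rw [zipStep_iter f n u v [] h h', rev_eq (by simp; omega)]
  simp

theorem zipWith_ofFn {α β γ : Type} (f : α → β → γ) : ∀ {n : ℕ} (u : Fin n → α) (v : Fin n → β),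
    List.zipWith f (List.ofFn u) (List.ofFn v) = List.ofFn fun i => f (u i) (v i) := by
  intro n
  induction n with
  | zero => intro u v; simp
  | succ n ih =>
    intro u v
    rw [List.ofFn_succ, List.ofFn_succ, List.ofFn_succ, List.zipWith_cons_cons, ih]

theorem zipN_ofFn {α β γ : Type} (f : α → β → γ) {n : ℕ} (u : Fin n → α) (v : Fin n → β) :
    zipN n f (List.ofFn u) (List.ofFn v) = List.ofFn fun i => f (u i) (v i) := by
  rw [zipN_eq f (by simp) (by simp), zipWith_ofFn]

theorem dotStep_iter : ∀ (n : ℕ) (u v : List ℝ) (acc : ℝ), u.length ≤ n → u.length = v.length →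
    dotStep^[n] (u, v, acc) = ([], [], acc + (List.zipWith (fun a b => a * b) u v).sum) := by
  intro n
  induction n with
  | zero =>
    intro u v acc h h'
    have : u = [] := List.length_eq_zero_iff.1 (by omega)
    subst this
    have : v = [] := List.length_eq_zero_iff.1 (by simpa using h'.symm)
    subst this
    simp
  | succ n ih =>
    intro u v acc h h'
    rw [Function.iterate_succ_apply]
    cases u with
    | nil =>
      have : v = [] := List.length_eq_zero_iff.1 (by simpa using h'.symm)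
      subst this
      exact ih [] [] acc (by simp) rfl
    | cons a u =>
      cases v with
      | nil => simp at h'
      | cons b v =>
        show dotStep^[n] (u, v, acc + a * b) = _
        rw [ih u v (acc + a * b) (by simpa using h) (by simpa using h')]
        simp [add_assoc]

theorem dot_ofFn {n : ℕ} (u v : Fin n → ℝ) : dot n (List.ofFn u) (List.ofFn v) = ∑ i, u i * v i := by
  unfold dot
  rw [dotStep_iter n _ _ 0 (by simp) (by simp), zipWith_ofFn, List.sum_ofFn]
  simp

theorem packStep_iter (M : ℝ) : ∀ (n : ℕ) (c : Fin n → ℝ) (a w : ℝ),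
    (packStep M)^[n] (List.ofFn c, a, w) = ([], a + w * ∑ j, c j * M ^ (j : ℕ), w * M ^ n) := by
  intro n
  induction n with
  | zero => intro c a w; simp
  | succ n ih =>
    intro c a w
    rw [Function.iterate_succ_apply, List.ofFn_succ]
    show (packStep M)^[n] (List.ofFn (fun i => c i.succ), a + c 0 * w, w * M) = _
    rw [ih, Fin.sum_univ_succ]
    refine Prod.ext rfl (Prod.ext ?_ ?_)
    · simp only [Fin.val_zero, pow_zero, mul_one, Fin.val_succ, pow_succ, mul_add, Finset.mul_sum]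
      rw [add_assoc]
      congr 1
      rw [mul_comm (c 0) w]
      congr 1
      exact Finset.sum_congr rfl fun j _ => by ring
    · simp only [pow_succ]; ring

theorem pack_ofFn {n : ℕ} (M : ℝ) (c : Fin n → ℝ) : pack n M (List.ofFn c) = ∑ j, c j * M ^ (j : ℕ) := by
  unfold pack
  rw [packStep_iter]
  simp

/-! ### Bits -/

theorem bit_iter : ∀ (m : ℕ) (θ y a : ℝ), 0 < θ → 0 ≤ y → y < 2 ^ m * θ →
    bit^[m] (y, 2 ^ m * θ / 2, a) = (y - ⌊y / θ⌋ * θ, θ / 2, 2 ^ m * a + ⌊y / θ⌋) := by
  intro m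
  induction m with
  | zero =>
    intro θ y a hθ h0 h1
    have : ⌊y / θ⌋ = 0 := by
      rw [Int.floor_eq_iff]
      constructor
      · simpa using div_nonneg h0 hθ.le
      · rw [Int.cast_zero, zero_add, div_lt_one hθ]
        simpa using h1
    simp [this]
  | succ m ih =>
    intro θ y a hθ h0 h1
    rw [Function.iterate_succ_apply]
    have e : (2 : ℝ) ^ (m + 1) * θ / 2 = 2 ^ m * θ := by rw [pow_succ]; ring
    rw [e]
    unfold bit
    simp only
    by_cases h : 0 ≤ y - 2 ^ m * θ
    · rw [if_pos h]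
      show bit^[m] (y - 2 ^ m * θ, 2 ^ m * θ / 2, 2 * a + 1) = _
      rw [ih θ (y - 2 ^ m * θ) (2 * a + 1) hθ h (by rw [pow_succ] at h1; linarith)]
      have e2 : ⌊(y - 2 ^ m * θ) / θ⌋ = ⌊y / θ⌋ - 2 ^ m := by
        have e3 : (y - 2 ^ m * θ) / θ = y / θ - ((2 ^ m : ℤ) : ℝ) := by
          push_cast
          field_simp
        rw [e3, Int.floor_sub_intCast]
      rw [e2]
      refine Prod.ext ?_ (Prod.ext rfl ?_)
      · push_cast; ring
      · push_cast; rw [pow_succ]; ring
    · rw [if_neg h]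
      show bit^[m] (y, 2 ^ m * θ / 2, 2 * a) = _
      rw [ih θ y (2 * a) hθ h0 (by linarith)]
      refine Prod.ext rfl (Prod.ext rfl ?_)
      simp only
      rw [pow_succ]; ring

/-- one digit -/
theorem unpackStep_eq (k : ℕ) (H W r : ℝ) (c : ℤ) (l : List ℝ) (hW : 0 < W) (hr : 0 ≤ r) (hr' : r < W) (hc : 0 ≤ c)
    (hc' : c < 2 ^ (9 * k + 1)) :
    unpackStep k H (c * W + r, 2 ^ (9 * k + 1) * W / 2, l) =
      (r, W / 2, (((c / 2 ^ (4 * k) : ℤ) : ℝ) - H) :: l) := by
  have hcR : (0 : ℝ) ≤ c := by exact_mod_cast hc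
  have hcR' : (c : ℝ) + 1 ≤ 2 ^ (9 * k + 1) := by exact_mod_cast hc'
  have hP : (0 : ℝ) < 2 ^ (4 * k) := by positivity
  have e1 : (2 : ℝ) ^ (9 * k + 1) * W / 2 = 2 ^ (5 * k + 1) * (2 ^ (4 * k) * W) / 2 := by
    rw [show 9 * k + 1 = (5 * k + 1) + 4 * k by ring, pow_add 2 (5 * k + 1) (4 * k)]
    ring
  have hb : c * W + r < 2 ^ (9 * k + 1) * W := by
    have : (c + 1) * W ≤ 2 ^ (9 * k + 1) * W := mul_le_mul_of_nonneg_right hcR' hW.le
    linarith
  have hfl : ⌊((c : ℝ) * W + r) / (2 ^ (4 * k) * W)⌋ = c / 2 ^ (4 * k) := by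
    have e3 : ((c : ℝ) * W + r) / (2 ^ (4 * k) * W) = ((c : ℝ) * W + r) / W / ((2 ^ (4 * k) : ℕ) : ℝ) := by
      push_cast
      field_simp
    have e4 : ⌊((c : ℝ) * W + r) / W⌋ = c := by
      rw [Int.floor_eq_iff]
      constructor
      · rw [le_div_iff₀ hW]; linarith
      · rw [div_lt_iff₀ hW]; linarith
    rw [e3, Int.floor_div_natCast, e4]
    push_cast
    rfl
  have h1 : bit^[5 * k + 1] ((c : ℝ) * W + r, 2 ^ (9 * k + 1) * W / 2, 0) =
      ((c : ℝ) * W + r - ((c / 2 ^ (4 * k) : ℤ) : ℝ) * (2 ^ (4 * k) * W), 2 ^ (4 * k) * W / 2,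
        ((c / 2 ^ (4 * k) : ℤ) : ℝ)) := by
    rw [e1, bit_iter (5 * k + 1) (2 ^ (4 * k) * W) _ 0 (by positivity) (by positivity)
      (by rw [← mul_assoc, ← pow_add, show 5 * k + 1 + 4 * k = 9 * k + 1 by ring]; exact hb), hfl]
    simp
  have hmod : (c : ℝ) * W + r - ((c / 2 ^ (4 * k) : ℤ) : ℝ) * (2 ^ (4 * k) * W) =
      ((c % 2 ^ (4 * k) : ℤ) : ℝ) * W + r := by
    have : (c : ℝ) = 2 ^ (4 * k) * ((c / 2 ^ (4 * k) : ℤ) : ℝ) + ((c % 2 ^ (4 * k) : ℤ) : ℝ) := by
      exact_mod_cast (Int.mul_ediv_add_emod c (2 ^ (4 * k))).symm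
    linear_combination W * this
  have hm0 : 0 ≤ c % 2 ^ (4 * k) := Int.emod_nonneg _ (by positivity)
  have hm1 : c % 2 ^ (4 * k) < 2 ^ (4 * k) := Int.emod_lt_of_pos _ (by positivity)
  have hm0R : (0 : ℝ) ≤ ((c % 2 ^ (4 * k) : ℤ) : ℝ) := by exact_mod_cast hm0
  have hm1R : ((c % 2 ^ (4 * k) : ℤ) : ℝ) + 1 ≤ 2 ^ (4 * k) := by exact_mod_cast hm1
  have h2 : bit^[4 * k + 0] (((c % 2 ^ (4 * k) : ℤ) : ℝ) * W + r, 2 ^ (4 * k) * W / 2, 0) =
      (r, W / 2, ((c % 2 ^ (4 * k) : ℤ) : ℝ)) := by
    have hfl2 : ⌊(((c % 2 ^ (4 * k) : ℤ) : ℝ) * W + r) / W⌋ = c % 2 ^ (4 * k) := by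
      rw [Int.floor_eq_iff]
      constructor
      · rw [le_div_iff₀ hW]; linarith
      · rw [div_lt_iff₀ hW]; linarith
    rw [add_zero, bit_iter (4 * k) W _ 0 hW (by positivity)
      (by
        have : (((c % 2 ^ (4 * k) : ℤ) : ℝ) + 1) * W ≤ 2 ^ (4 * k) * W := mul_le_mul_of_nonneg_right hm1R hW.le
        linarith), hfl2]
    simp
  unfold unpackStep
  simp only
  rw [h1]
  simp only
  rw [hmod, h2]

/-- all digits -/
theorem unpack_iter (k : ℕ) (H : ℝ) (c : ℕ → ℤ) (hc : ∀ j, 0 ≤ c j) (hc' : ∀ j, c j < 2 ^ (9 * k + 1)) (M : ℝ)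
    (hM : M = 2 ^ (9 * k + 1)) :
    ∀ (n : ℕ) (l : List ℝ), (unpackStep k H)^[n] (∑ j ∈ range n, (c j : ℝ) * M ^ j, M ^ n / 2, l) =
      (0, 1 / 2, (List.ofFn fun j : Fin n => ((c j / 2 ^ (4 * k) : ℤ) : ℝ) - H) ++ l) := by
  have hMpos : 0 < M := by rw [hM]; positivity
  have hcM : ∀ j, (c j : ℝ) + 1 ≤ M := by
    intro j
    rw [hM]
    exact_mod_cast hc' j
  have hlt : ∀ n : ℕ, ∑ j ∈ range n, (c j : ℝ) * M ^ j < M ^ n := by
    intro n
    induction n with
    | zero => simp
    | succ n ih =>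
      rw [Finset.sum_range_succ, pow_succ]
      have h2 : ((c n : ℝ) + 1) * M ^ n ≤ M * M ^ n :=
        mul_le_mul_of_nonneg_right (hcM n) (by positivity)
      linarith
  intro n
  induction n with
  | zero => intro l; simp
  | succ n ih =>
    intro l
    rw [Function.iterate_succ_apply, Finset.sum_range_succ, add_comm (∑ j ∈ range n, _), pow_succ,
      mul_comm (M ^ n) M]
    have h1 := unpackStep_eq k H (M ^ n) (∑ j ∈ range n, (c j : ℝ) * M ^ j) (c n) l (by positivity)
        (Finset.sum_nonneg fun j _ => mul_nonneg (by exact_mod_cast hc j) (by positivity)) (hlt n) (hc n) (hc' n)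
    rw [← hM] at h1
    rw [h1, ih, List.ofFn_succ']
    simp

theorem unpack_eq (k n : ℕ) (H : ℝ) (c : Fin n → ℤ) (hc : ∀ j, 0 ≤ c j) (hc' : ∀ j, c j < 2 ^ (9 * k + 1)) :
    unpack n k H ((2 ^ (9 * k + 1)) ^ n / 2) (∑ j, (c j : ℝ) * (2 ^ (9 * k + 1)) ^ (j : ℕ)) =
      List.ofFn fun j : Fin n => ((c j / 2 ^ (4 * k) : ℤ) : ℝ) - H := by
  have h := unpack_iter k H (fun j => if h : j < n then c ⟨j, h⟩ else 0)
    (fun j => by split_ifs; exacts [hc _, le_rfl])
    (fun j => by split_ifs; exacts [hc' _, by positivity]) _ rfl n []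
  unfold unpack
  have e : ∑ j, (c j : ℝ) * (2 ^ (9 * k + 1)) ^ (j : ℕ) =
      ∑ j ∈ range n, (((if h : j < n then c ⟨j, h⟩ else 0 : ℤ)) : ℝ) * (2 ^ (9 * k + 1)) ^ j := by
    rw [Finset.sum_range]
    refine Finset.sum_congr rfl fun j _ => ?_
    simp
  rw [e, h]
  simp

end Pool.Agent.V5helper29.RLS
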