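import Pool.Agent.V5helper29.RLS.Spec1
import Pool.Agent.V5helper29.RLS.Stm

/-!
# Project RLS: what the algorithm computes
-/

set_option autoImplicit false

noncomputable section

namespace Pool.Agent.V5helper29.RLS

open Finset
open scoped Matrix

theorem pw_eq (k c d : ℕ) : pw k c d = 2 ^ (c * k + d) := by
  unfold pw
  generalize c * k + d = m
  induction m with
  | zero => simp
  | succ m ih => rw [Function.iterate_succ_apply', ih, pow_succ]; ring

theorem mulM_iter (M : ℝ) (n : ℕ) (a : ℝ) : (fun x => x * M)^[n] a = M ^ n * a := by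
  induction n with
  | zero => simp
  | succ n ih => rw [Function.iterate_succ_apply', ih, pow_succ]; ring

theorem addH_iter (M H : ℝ) (n : ℕ) :
    (fun s : ℝ × ℝ => (s.1 + H * s.2, s.2 * M))^[n] (0, 1) = (∑ j ∈ range n, H * M ^ j, M ^ n) := by
  induction n with
  | zero => simp
  | succ n ih =>
    rw [Function.iterate_succ_apply', ih]
    simp only
    rw [Finset.sum_range_succ, pow_succ]

theorem par_eq (n k : ℕ) : par n k = ((2 : ℝ) ^ (9 * k + 1), (2 : ℝ) ^ (4 * k), (2 : ℝ) ^ (5 * k),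
    (2 ^ (9 * k + 1)) ^ n / 2, ∑ j ∈ range n, (2 : ℝ) ^ (9 * k) * (2 ^ (9 * k + 1)) ^ j) := by
  unfold par
  rw [pw_eq, pw_eq, pw_eq, pw_eq, mulM_iter, addH_iter]
  simp only [add_zero]
  rw [mul_one_div]

/-- integer matrices as lists -/
def enc {n : ℕ} (X : Matrix (Fin n) (Fin n) ℤ) : List (List ℝ) := encode fun i j => (X i j : ℝ)

/-- the matrix product -/
theorem mm_eq {n k : ℕ} (X Y : Matrix (Fin n) (Fin n) ℤ) (h : ∀ i j, |(X * Y) i j| < 2 ^ (9 * k)) :
    mm n k (par n k) (enc X) (enc Y) = enc (flo (2 ^ (4 * k)) (X * Y)) := by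
  unfold mm mmB enc encode
  rw [par_eq]
  simp only
  rw [mapN_ofFn, mapN_ofFn]
  congr 1
  funext i
  rw [show (fun k' => pack n (2 ^ (9 * k + 1)) (List.ofFn fun j => (Y k' j : ℝ))) =
    fun k' => ∑ j, (Y k' j : ℝ) * (2 ^ (9 * k + 1)) ^ (j : ℕ) from funext fun k' => pack_ofFn _ _, dot_ofFn]
  have e : ∑ i_1, (X i i_1 : ℝ) * ∑ j, (Y i_1 j : ℝ) * (2 ^ (9 * k + 1)) ^ (j : ℕ) +
      ∑ j ∈ range n, (2 : ℝ) ^ (9 * k) * (2 ^ (9 * k + 1)) ^ j =
      ∑ j : Fin n, (((X * Y) i j + 2 ^ (9 * k) : ℤ) : ℝ) * (2 ^ (9 * k + 1)) ^ (j : ℕ) := by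
    rw [Finset.sum_range]
    simp only [Finset.mul_sum]
    rw [Finset.sum_comm, ← Finset.sum_add_distrib]
    refine Finset.sum_congr rfl fun j _ => ?_
    rw [Matrix.mul_apply]
    push_cast
    rw [add_mul, Finset.sum_mul]
    congr 1
    exact Finset.sum_congr rfl fun l _ => by ring
  rw [e, unpack_eq k n (2 ^ (5 * k)) (fun j => (X * Y) i j + 2 ^ (9 * k))
    (fun j => by have := (abs_lt.1 (h i j)).1; omega)
    (fun j => by
      have := (abs_lt.1 (h i j)).2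
      rw [pow_succ]
      omega)]
  congr 1
  funext j
  have e2 : ((X * Y) i j + 2 ^ (9 * k)) / 2 ^ (4 * k) = (X * Y) i j / 2 ^ (4 * k) + 2 ^ (5 * k) := by
    rw [show 9 * k = 5 * k + 4 * k by ring, pow_add, Int.add_mul_ediv_right _ _ (by positivity)]
  rw [e2]
  unfold flo
  push_cast
  ring

/-! ### Transposition -/

theorem nils_eq (n : ℕ) : nils n = List.ofFn fun _ : Fin n => ([] : List ℝ) := by
  unfold nils
  induction n with
  | zero => rfl
  | succ n ih => rw [Function.iterate_succ_apply', ih, List.ofFn_succ]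

theorem trStep_iter {n : ℕ} : ∀ (m : ℕ) (ρ : List (Fin n → ℝ)) (cols : Fin n → List ℝ), ρ.length ≤ m →
    (trStep n)^[m] (ρ.map List.ofFn, List.ofFn cols) =
      ([], List.ofFn fun j => (ρ.reverse.map fun r => r j) ++ cols j) := by
  intro m
  induction m with
  | zero =>
    intro ρ cols h
    have : ρ = [] := List.length_eq_zero_iff.1 (by omega)
    subst this
    simp
  | succ m ih =>
    intro ρ cols h
    rw [Function.iterate_succ_apply]
    cases ρ with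
    | nil =>
      have h1 := ih [] cols (by simp)
      exact h1
    | cons r ρ =>
      show (trStep n)^[m] (ρ.map List.ofFn, zipN n (fun a c => a :: c) (List.ofFn r) (List.ofFn cols)) = _
      rw [zipN_ofFn, ih ρ (fun j => r j :: cols j) (by simpa using h)]
      simp

theorem transp_eq {n : ℕ} (A : Fin n → Fin n → ℝ) : transp n (encode A) = encode fun i j => A j i := by
  unfold transp
  have e : encode A = (List.ofFn A).map List.ofFn := by
    unfold encode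
    rw [List.map_ofFn]
    rfl
  rw [rev_eq (by unfold encode; simp), e, ← List.map_reverse, nils_eq, trStep_iter n _ _ (by simp)]
  simp only [List.reverse_reverse, List.map_ofFn, List.append_nil]
  rfl

/-! ### Newton's iteration -/

theorem stepX_eq {n k : ℕ} (B X : Matrix (Fin n) (Fin n) ℤ) (h1 : ∀ i j, |(B * X) i j| < 2 ^ (9 * k))
    (h2 : ∀ i j, |(X * flo (2 ^ (4 * k)) (B * X)) i j| < 2 ^ (9 * k)) :
    stepX n k (par n k) (enc B) (enc X) =
      enc ((2 : ℤ) • X - flo (2 ^ (4 * k)) (X * flo (2 ^ (4 * k)) (B * X))) := by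
  unfold stepX
  rw [mm_eq B X h1, mm_eq X _ h2]
  unfold enc encode
  rw [zipN_ofFn]
  congr 1
  funext i
  rw [zipN_ofFn]
  congr 1
  funext j
  show (X i j : ℝ) + X i j - (flo (2 ^ (4 * k)) (X * flo (2 ^ (4 * k)) (B * X)) i j : ℝ) =
    ((((2 : ℤ) • X - flo (2 ^ (4 * k)) (X * flo (2 ^ (4 * k)) (B * X))) i j : ℤ) : ℝ)
  generalize flo (2 ^ (4 * k)) (X * flo (2 ^ (4 * k)) (B * X)) = F
  rw [Matrix.sub_apply, Matrix.smul_apply, smul_eq_mul]
  push_cast
  ring

theorem stepX_iter {n k : ℕ} (B : Matrix (Fin n) (Fin n) ℤ)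
    (h : ∀ m ≤ k, ∀ i j, |(B * newt B (2 ^ (4 * k)) m) i j| < 2 ^ (9 * k) ∧
      |(newt B (2 ^ (4 * k)) m * flo (2 ^ (4 * k)) (B * newt B (2 ^ (4 * k)) m)) i j| < 2 ^ (9 * k)) :
    ∀ m ≤ k, (stepX n k (par n k) (enc B))^[m] (enc (newt B (2 ^ (4 * k)) 0)) = enc (newt B (2 ^ (4 * k)) m) := by
  intro m
  induction m with
  | zero => intro _; rfl
  | succ m ih =>
    intro hm
    rw [Function.iterate_succ_apply', ih (by omega),
      stepX_eq _ _ (fun i j => (h m (by omega) i j).1) (fun i j => (h m (by omega) i j).2)]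
    rfl

/-! ### Rounding -/

theorem rndE_eq (k : ℕ) (D x : ℝ) (h : |x / D| ≤ 1 / 2) :
    rndE k (2 ^ (4 * k)) D x = (⌊(2 : ℝ) ^ (4 * k) * (x / D)⌋ : ℤ) := by
  unfold rndE
  have hP : (0 : ℝ) < 2 ^ (4 * k) := by positivity
  have h' := abs_le.1 h
  have e := bit_iter (4 * k + 1) 1 (2 ^ (4 * k) * (x / D) + 2 ^ (4 * k)) 0 one_pos
    (by nlinarith) (by rw [pow_succ]; nlinarith)
  rw [show (2 : ℝ) ^ (4 * k + 1) * 1 / 2 = 2 ^ (4 * k) by rw [pow_succ]; ring] at e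
  rw [e]
  simp only [div_one, mul_zero, zero_add]
  rw [show (2 : ℝ) ^ (4 * k) = ((2 ^ (4 * k) : ℤ) : ℝ) by push_cast; rfl, Int.floor_add_intCast]
  push_cast
  ring

theorem rndL_eq {n k : ℕ} (A : Matrix (Fin n) (Fin n) ℝ) (hn : 1 ≤ n) (h : ∀ i j, |A i j| ≤ (n : ℝ) ^ 2) :
    rndL n k (2 ^ (4 * k)) (2 * (n : ℝ) ^ 3) (encode A) = enc (rnd A k) := by
  unfold rndL enc encode
  rw [mapN_ofFn]
  congr 1
  funext i
  rw [mapN_ofFn]
  congr 1
  funext j
  have hn' : (1 : ℝ) ≤ n := by exact_mod_cast hn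
  rw [rndE_eq]
  · rfl
  · rw [abs_div, abs_of_pos (by positivity : (0 : ℝ) < 2 * (n : ℝ) ^ 3), div_le_iff₀ (by positivity)]
    calc |A i j| ≤ (n : ℝ) ^ 2 := h i j
      _ = (n : ℝ) ^ 2 * 1 := by ring
      _ ≤ (n : ℝ) ^ 2 * n := by gcongr
      _ = 1 / 2 * (2 * (n : ℝ) ^ 3) := by ring

/-- **The main part of the algorithm.** -/
theorem main_eq {n k : ℕ} (A : Matrix (Fin n) (Fin n) ℝ) (b : Fin n → ℝ) (hn : 1 ≤ n)
    (hA : ∀ i j, |A i j| ≤ (n : ℝ) ^ 2)
    (h : ∀ m ≤ k, ∀ i j, |(rnd A k * newt (rnd A k) (2 ^ (4 * k)) m) i j| < 2 ^ (9 * k) ∧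
      |(newt (rnd A k) (2 ^ (4 * k)) m * flo (2 ^ (4 * k)) (rnd A k * newt (rnd A k) (2 ^ (4 * k)) m)) i j| <
        2 ^ (9 * k)) :
    main n k (2 * (n : ℝ) ^ 3) (encode A) (List.ofFn b) =
      List.ofFn fun i => (∑ j, (newt (rnd A k) (2 ^ (4 * k)) k i j : ℝ) * b j) / (2 ^ (4 * k) * (2 * (n : ℝ) ^ 3)) := by
  unfold main fin
  have e1 : (par n k).2.1 = 2 ^ (4 * k) := by rw [par_eq]
  rw [e1, rndL_eq A hn hA]
  have e2 : transp n (enc (rnd A k)) = enc (newt (rnd A k) (2 ^ (4 * k)) 0) := by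
    unfold enc
    rw [transp_eq]
    rfl
  rw [e2, show 1 * k + 0 = k by ring, stepX_iter (rnd A k) h k le_rfl]
  unfold enc encode
  rw [mapN_ofFn]
  congr 1
  funext i
  rw [dot_ofFn]

end Pool.Agent.V5helper29.RLS
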